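import Pool.Agent.Helper75.KT.Loc

/-!
# Operator norms of block matrices
-/

set_option linter.unusedSectionVars false

namespace Pool.Agent.Helper75.KT

open Matrix
open scoped Kronecker ComplexOrder Matrix.Norms.L2Operator

section Norm

variable {α β γ ι κ μ : Type*} [Fintype α] [Fintype β] [Fintype γ] [Fintype ι] [Fintype κ]
  [Fintype μ]
  [DecidableEq α] [DecidableEq β] [DecidableEq γ] [DecidableEq ι] [DecidableEq κ] [DecidableEq μ]

theorem norm_mulVec_le (A : Matrix α β ℂ) (v : β → ℂ) :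
    ‖WithLp.toLp 2 (A *ᵥ v)‖ ≤ ‖A‖ * ‖WithLp.toLp 2 v‖ := by
  have := Matrix.l2_opNorm_mulVec A (WithLp.toLp 2 v)
  exact this

theorem norm_pr_le {p : Matrix α α ℂ} (hp : IsPr p) : ‖p‖ ≤ 1 := by
  have h1 : ‖pᴴ * p‖ = ‖p‖ * ‖p‖ := Matrix.l2_opNorm_conjTranspose_mul_self p
  rw [hp.2, hp.1] at h1
  by_contra h
  push Not at h
  nlinarith [norm_nonneg p]

theorem norm_le_of_conjT_mul_le {A : Matrix α β ℂ} (h : ‖Aᴴ * A‖ ≤ 1) : ‖A‖ ≤ 1 := by
  have h1 : ‖Aᴴ * A‖ = ‖A‖ * ‖A‖ := Matrix.l2_opNorm_conjTranspose_mul_self A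
  rw [h1] at h
  by_contra h2
  push Not at h2
  nlinarith [norm_nonneg A]

theorem norm_one_le : ‖(1 : Matrix α α ℂ)‖ ≤ 1 := norm_pr_le IsPr.one

/-- `i`-th block inclusion -/
def blkInc (i : ι) : Matrix (ι × α) α ℂ := fun x b => if x.1 = i ∧ x.2 = b then 1 else 0

theorem blkInc_conjT_mul (i : ι) (A : Matrix (ι × α) β ℂ) :
    (blkInc (α := α) i)ᴴ * A = fun a b => A (i, a) b := by
  ext a b
  rw [Matrix.mul_apply]
  simp only [conjTranspose_apply, blkInc]
  rw [Fintype.sum_prod_type, Finset.sum_eq_single i, Finset.sum_eq_single a]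
  · simp
  · intro a' _ h; simp [h]
  · simp
  · intro i' _ h; simp [h]
  · simp

theorem blkInc_norm (i : ι) : ‖blkInc (α := α) i‖ ≤ 1 := by
  apply norm_le_of_conjT_mul_le
  rw [blkInc_conjT_mul]
  have : (fun a b => blkInc (α := α) i (i, a) b) = (1 : Matrix α α ℂ) := by
    ext a b
    simp [blkInc, Matrix.one_apply]
  rw [this]
  exact norm_one_le

/-- a block of a block matrix -/
def blk (M : Matrix (ι × α) (κ × β) ℂ) (i : ι) (j : κ) : Matrix α β ℂ := fun a b => M (i, a) (j, b)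

theorem blk_decomp (M : Matrix (ι × α) (κ × β) ℂ) :
    M = ∑ i, ∑ j, blkInc (α := α) i * blk M i j * (blkInc (α := β) j)ᴴ := by
  ext ⟨i, a⟩ ⟨j, b⟩
  have h1 : ∀ i' j', (blkInc (α := α) i' * blk M i' j' * (blkInc (α := β) j')ᴴ) (i, a) (j, b)
      = if i = i' ∧ j = j' then M (i, a) (j, b) else 0 := by
    intro i' j'
    rw [Matrix.mul_apply, Finset.sum_eq_single b, Matrix.mul_apply, Finset.sum_eq_single a]
    · simp only [blkInc, blk, conjTranspose_apply, and_true]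
      by_cases h1 : i = i'
      · subst h1
        by_cases h2 : j = j'
        · subst h2; simp
        · simp [h2]
      · simp [h1]
    · intro a' _ h; simp [blkInc, h.symm]
    · simp
    · intro b' _ h; simp [blkInc, h.symm]
    · simp
  simp only [Matrix.sum_apply, h1]
  rw [Finset.sum_eq_single i, Finset.sum_eq_single j]
  · simp
  · intro j' _ h; simp [h.symm]
  · simp
  · intro i' _ h; simp [h.symm]
  · simp

/-- The operator norm of a block matrix is at most the sum of the norms of its blocks. -/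
theorem norm_blk_le (M : Matrix (ι × α) (κ × β) ℂ) :
    ‖M‖ ≤ ∑ i, ∑ j, ‖blk M i j‖ := by
  conv_lhs => rw [blk_decomp M]
  refine (norm_sum_le _ _).trans (Finset.sum_le_sum fun i _ => ?_)
  refine (norm_sum_le _ _).trans (Finset.sum_le_sum fun j _ => ?_)
  refine (Matrix.l2_opNorm_mul _ _).trans ?_
  rw [Matrix.l2_opNorm_conjTranspose]
  calc ‖blkInc (α := α) i * blk M i j‖ * ‖blkInc (α := β) j‖
      ≤ ‖blkInc (α := α) i * blk M i j‖ * 1 := by
        gcongr; exact blkInc_norm j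
    _ ≤ (‖blkInc (α := α) i‖ * ‖blk M i j‖) * 1 := by
        gcongr; exact Matrix.l2_opNorm_mul _ _
    _ ≤ (1 * ‖blk M i j‖) * 1 := by
        gcongr; exact blkInc_norm i
    _ = _ := by ring

/-- If `‖Wᴴ W - Q‖ < 1` and `u = Q u`, `W u = 0`, then `u = 0`. -/
theorem near_inj {W : Matrix α β ℂ} {Q : Matrix β β ℂ} (h : ‖Wᴴ * W - Q‖ < 1) (u : β → ℂ)
    (hu : Q *ᵥ u = u) (hw : W *ᵥ u = 0) : u = 0 := by
  have h1 : (Wᴴ * W - Q) *ᵥ u = -u := by
    rw [Matrix.sub_mulVec, ← Matrix.mulVec_mulVec, hw, Matrix.mulVec_zero, hu, zero_sub]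
  have h2 := norm_mulVec_le (Wᴴ * W - Q) u
  rw [h1] at h2
  have h3 : ‖WithLp.toLp 2 (-u)‖ = ‖WithLp.toLp 2 u‖ := by
    rw [WithLp.toLp_neg, norm_neg]
  rw [h3] at h2
  by_contra hne
  have h4 : 0 < ‖WithLp.toLp 2 u‖ := by
    rw [norm_pos_iff]
    intro h0
    apply hne
    have := congrArg WithLp.ofLp h0
    simpa using this
  nlinarith

end Norm

end Pool.Agent.Helper75.KT
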