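import Pool.Agent.Helper75.KT.Rank

/-!
# The data defining the algebra
-/

set_option linter.unusedSectionVars false

namespace Pool.Agent.Helper75.KT

open Matrix Filter Topology CPd
open scoped Kronecker ComplexOrder Matrix.Norms.L2Operator

/-- numbers of coordinates used at each level -/
def dd : ℕ → ℕ
  | 0 => 0
  | (j + 1) => 9 * 2 ^ j

/-- index set of the coordinates -/
abbrev JJ : Type := Option (ℕ × ℕ)

/-- the base space: a countable product of copies of `CP¹` -/
abbrev XX : Type := JJ → CPd 2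

/-- index set of the line bundle of level `j` -/
abbrev RR (j : ℕ) : Type := Fin (dd j) → Fin 2

/-- the line bundle of level `j`: the exterior tensor product of the tautological bundles of the
coordinates `(j, c)`, `c < dd j` -/
noncomputable def ee (j : ℕ) : Matrix (RR j) (RR j) C(XX, ℂ) := fun r s =>
  ∏ c : Fin (dd j), (taut 2 (r c) (s c)).comp
    (⟨fun x => x (some (j, (c : ℕ))), continuous_apply _⟩ : C(XX, CPd 2))

/-- the line bundle of the coordinate `none` -/
noncomputable def LL : Matrix (Fin 2) (Fin 2) C(XX, ℂ) :=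
  (taut 2).map (pbA (⟨fun x => x none, continuous_apply _⟩ : C(XX, CPd 2)))

/-- index set of the matrix algebra at stage `i` -/
abbrev KK (i : ℕ) : Type := Σ k : Fin (2 ^ i), RR (Nat.size k)

theorem ee_apply (j : ℕ) (r s : RR j) (x : XX) :
    ee j r s x = ∏ c : Fin (dd j), (x (some (j, (c : ℕ)))).1 (r c) (s c) := by
  unfold ee
  rw [ContinuousMap.coe_prod, Finset.prod_apply]
  rfl

theorem ee_factor (j : ℕ) (x : XX) (η : Fin (dd j) → Fin 2 → ℂ)
    (hη : ∀ (c : Fin (dd j)) a b, (x (some (j, (c : ℕ)))).1 a b = η c a * star (η c b))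
    (r s : RR j) :
    ee j r s x = (∏ c, η c (r c)) * star (∏ c, η c (s c)) := by
  rw [ee_apply, star_prod, ← Finset.prod_mul_distrib]
  exact Finset.prod_congr rfl fun c _ => hη c _ _

theorem exists_eta (p : CPd 2) : ∃ η : Fin 2 → ℂ, (∀ a b, p.1 a b = η a * star (η b)) ∧
    ∑ a, η a * star (η a) = 1 := by
  obtain ⟨v, h1, h2⟩ := p.exists_col
  refine ⟨fun a => v a 0, ?_, ?_⟩
  · intro a b
    rw [← h1, Matrix.mul_apply]
    simp
  · have h := p.tr
    rw [← h1] at h
    simp only [Matrix.trace, Matrix.diag, Matrix.mul_apply, Finset.univ_unique,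
      Finset.sum_singleton, conjTranspose_apply] at h
    exact h

/-- unit vectors spanning the fibre of `ee j` -/
theorem exists_vec (j : ℕ) (x : XX) : ∃ U : RR j → ℂ,
    (∀ r s, ee j r s x = U r * star (U s)) ∧ ∑ r, U r * star (U r) = 1 := by
  choose η h1 h2 using exists_eta
  refine ⟨fun r => ∏ c : Fin (dd j), η (x (some (j, (c : ℕ)))) (r c), ?_, ?_⟩
  · intro r s
    exact ee_factor j x (fun c => η (x (some (j, (c : ℕ))))) (fun c => h1 _) r s
  · have e : ∀ r : RR j, (∏ c : Fin (dd j), η (x (some (j, (c : ℕ)))) (r c))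
        * star (∏ c : Fin (dd j), η (x (some (j, (c : ℕ)))) (r c))
        = ∏ c : Fin (dd j), η (x (some (j, (c : ℕ)))) (r c)
          * star (η (x (some (j, (c : ℕ)))) (r c)) := by
      intro r
      rw [star_prod, ← Finset.prod_mul_distrib]
    rw [Finset.sum_congr rfl (fun r _ => e r)]
    rw [← Fintype.prod_sum (fun (c : Fin (dd j)) (a : Fin 2) =>
      η (x (some (j, (c : ℕ)))) a * star (η (x (some (j, (c : ℕ)))) a))]
    exact Finset.prod_eq_one fun c _ => h2 _

theorem ee_pr (j : ℕ) : IsPr (ee j) := by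
  apply isPr_of_evM
  intro x
  obtain ⟨U, h1, h2⟩ := exists_vec j x
  have e : evM x (ee j) = Matrix.of fun r s => U r * star (U s) := by
    ext r s; exact h1 r s
  rw [e]
  refine ⟨?_, ?_⟩
  · ext r s
    rw [Matrix.mul_apply]
    have : ∀ k, U r * star (U k) * (U k * star (U s))
        = (U k * star (U k)) * (U r * star (U s)) := fun k => by ring
    simp only [Matrix.of_apply, this]
    rw [← Finset.sum_mul, h2, one_mul]
  · ext r s
    simp only [conjTranspose_apply, Matrix.of_apply, star_mul, star_star]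

theorem LL_pr : IsPr LL := taut_pr.map _

theorem ee_trace (j : ℕ) (x : XX) : (evM x (ee j)).trace = 1 := by
  obtain ⟨U, h1, h2⟩ := exists_vec j x
  rw [← h2]
  simp only [Matrix.trace, Matrix.diag]
  exact Finset.sum_congr rfl fun r _ => h1 r r

/-- simplicity of a C*-algebra -/
def IsSimpleCStar (A : Type*) [CStarAlgebra A] : Prop :=
  Nontrivial A ∧ ∀ I : TwoSidedIdeal A, IsClosed (I : Set A) → I = ⊥ ∨ I = ⊤

/-- The properties of the algebra that are used. -/
structure AlgData where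
  /-- the algebra -/
  A : Type
  [cs : CStarAlgebra A]
  simple : IsSimpleCStar A
  /-- finite stages -/
  D : ℕ → StarSubalgebra ℂ A
  mono : Monotone D
  dense : ∀ a : A, ∀ ε > (0 : ℝ), ∃ i, ∃ d ∈ D i, ‖a - d‖ < ε
  /-- coordinates on the finite stages -/
  Ψ : ∀ i, D i →⋆ₙₐ[ℂ] Matrix (KK i) (KK i) C(XX, ℂ)
  Ψ_inj : ∀ i, Function.Injective (Ψ i)
  Ψ_range : ∀ i M, Ψ i 1 * M * Ψ i 1 = M → ∃ d, Ψ i d = M
  Ψ_norm : ∀ i d x, ‖evM x (Ψ i d)‖ ≤ ‖d‖
  Ψ_one : ∀ i, Ψ i 1 = Matrix.blockDiagonal' fun k : Fin (2 ^ i) => ee (Nat.size k)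
  /-- the unital inclusion of `C(XX)` -/
  emb : C(XX, ℂ) →⋆ₐ[ℂ] A
  emb_mem : ∀ f i, emb f ∈ D i
  /-- evaluation points -/
  P : ℕ → XX
  Ψ_emb : ∀ i f, Ψ i ⟨emb f, emb_mem f i⟩ = Matrix.blockDiagonal' fun k : Fin (2 ^ i) =>
    if (k : ℕ) = 0 then f • ee (Nat.size k) else (f (P k)) • ee (Nat.size k)

attribute [instance] AlgData.cs

end Pool.Agent.Helper75.KT
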