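import Pool.Agent.Helper75.KT.Tr
import Pool.Agent.Helper57.KTMoment

/-!
# Complex projective space as the space of rank one projections
-/

set_option linter.unusedSectionVars false

namespace Pool.Agent.Helper75.KT

open Matrix Filter Topology
open scoped Kronecker ComplexOrder Matrix.Norms.L2Operator

/-- The complex projective space of lines in `ℂ^d`: projections of trace one. -/
def CPd (d : ℕ) : Type := {p : Matrix (Fin d) (Fin d) ℂ // IsPr p ∧ p.trace = 1}

namespace CPd

variable {d : ℕ}

noncomputable instance : TopologicalSpace (CPd d) := instTopologicalSpaceSubtype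

instance : T2Space (CPd d) := inferInstanceAs (T2Space {_p : Matrix (Fin d) (Fin d) ℂ // _})

instance : TopologicalSpace.MetrizableSpace (CPd d) := by
  have h : TopologicalSpace.MetrizableSpace (Matrix (Fin d) (Fin d) ℂ) :=
    inferInstanceAs (TopologicalSpace.MetrizableSpace (Fin d → Fin d → ℂ))
  exact inferInstanceAs (TopologicalSpace.MetrizableSpace {p : Matrix (Fin d) (Fin d) ℂ // _})

theorem pr (p : CPd d) : IsPr p.1 := p.2.1
theorem tr (p : CPd d) : p.1.trace = 1 := p.2.2

/-- the line spanned by a unit vector -/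
noncomputable def mk (z : USph d) : CPd d :=
  ⟨Matrix.of fun i j => z.1 i * star (z.1 j), by
    have hz : ∑ i, z.1 i * star (z.1 i) = 1 := by
      have h : ∑ i, Complex.normSq (z.1 i) = 1 := z.2
      have h2 : ∑ i, ((Complex.normSq (z.1 i) : ℝ) : ℂ) = 1 := by exact_mod_cast h
      rw [← h2]
      apply Finset.sum_congr rfl
      intro i _
      rw [Complex.normSq_eq_conj_mul_self]
      simp only [RCLike.star_def]; ring
    refine ⟨⟨?_, ?_⟩, ?_⟩
    · ext i j
      rw [Matrix.mul_apply]
      have : ∀ k, z.1 i * star (z.1 k) * (z.1 k * star (z.1 j))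
          = (z.1 k * star (z.1 k)) * (z.1 i * star (z.1 j)) := fun k => by ring
      simp only [Matrix.of_apply, this]
      rw [← Finset.sum_mul, hz, one_mul]
    · ext i j
      simp only [conjTranspose_apply, Matrix.of_apply, star_mul, star_star]
    · simp only [Matrix.trace, Matrix.diag, Matrix.of_apply]
      exact hz⟩

theorem mk_apply (z : USph d) (i j : Fin d) : (mk z).1 i j = z.1 i * star (z.1 j) := rfl

theorem continuous_mk : Continuous (mk : USph d → CPd d) := by
  refine Continuous.subtype_mk ?_ _
  refine continuous_pi fun i => continuous_pi fun j => ?_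
  exact ((continuous_apply i).comp continuous_subtype_val).mul
    (((continuous_apply j).comp continuous_subtype_val).star)

theorem exists_col (p : CPd d) : ∃ v : Matrix (Fin d) (Fin 1) ℂ, v * vᴴ = p.1 ∧ vᴴ * v = 1 := by
  obtain ⟨r, ⟨v, h1, h2, _⟩, h3⟩ := pr_eqv_one p.1 p.pr
  rw [p.tr] at h3
  have : r = 1 := by exact_mod_cast h3.symm
  subst this
  exact ⟨v, h1, h2⟩

theorem mk_surj : Function.Surjective (mk : USph d → CPd d) := by
  intro p
  obtain ⟨v, h1, h2⟩ := p.exists_col
  have hz : (fun i => v i 0) ∈ USph d := by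
    have h := congrFun (congrFun h2 0) 0
    rw [Matrix.mul_apply] at h
    simp only [conjTranspose_apply, Matrix.one_apply_eq] at h
    have h3 : ((∑ i, Complex.normSq (v i 0) : ℝ) : ℂ) = 1 := by
      rw [← h]
      push_cast
      apply Finset.sum_congr rfl
      intro i _
      rw [Complex.normSq_eq_conj_mul_self]; rfl
    exact_mod_cast h3
  refine ⟨⟨_, hz⟩, ?_⟩
  apply Subtype.ext
  ext i j
  rw [mk_apply, ← h1, Matrix.mul_apply]
  simp

instance : CompactSpace (CPd d) := by
  have h : IsCompact (Set.range (mk : USph d → CPd d)) := isCompact_range continuous_mk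
  rw [mk_surj.range_eq] at h
  exact ⟨h⟩

/-- the tautological line bundle, as a projection over `C(CP^(d-1))` -/
noncomputable def taut (d : ℕ) : Matrix (Fin d) (Fin d) C(CPd d, ℂ) :=
  fun i j => ⟨fun p => p.1 i j,
    ((continuous_apply j).comp ((continuous_apply i).comp continuous_subtype_val))⟩

/-- the dual (conjugate) of the tautological line bundle -/
noncomputable def tautB (d : ℕ) : Matrix (Fin d) (Fin d) C(CPd d, ℂ) := (taut d)ᵀ

theorem evM_taut (p : CPd d) : evM p (taut d) = p.1 := rfl
theorem evM_tautB (p : CPd d) : evM p (tautB d) = p.1ᵀ := rfl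

theorem taut_pr : IsPr (taut d) := isPr_of_evM fun p => by rw [evM_taut]; exact p.pr

theorem transpose_pr {ι : Type*} [Fintype ι] {p : Matrix ι ι ℂ} (h : IsPr p) : IsPr pᵀ := by
  refine ⟨?_, ?_⟩
  · rw [← Matrix.transpose_mul, h.1]
  · have : (pᵀ)ᴴ = (pᴴ)ᵀ := by ext i j; simp [conjTranspose_apply]
    rw [this, h.2]

theorem tautB_pr : IsPr (tautB d) := isPr_of_evM fun p => by
  rw [evM_tautB]; exact transpose_pr p.pr

end CPd

end Pool.Agent.Helper75.KT
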