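import Pool.Agent.Helper75.KT.Groth

/-!
# Projections in matrix algebras, Murray-von Neumann equivalence, and `K_0`

For a unital star ring `R`, `V R` is the monoid of Murray-von Neumann classes of projections in
matrices over `R`, and `K0 R` its Grothendieck group.
-/

set_option linter.unusedSectionVars false

namespace Pool.Agent.Helper75.KT

open Matrix

section Basic

variable {R : Type*} [Ring R] [StarRing R]
variable {ι κ μ ν : Type*} [Fintype ι] [Fintype κ] [Fintype μ] [Fintype ν]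

/-- A square matrix over `R` is a projection: self-adjoint and idempotent. -/
def IsPr (p : Matrix ι ι R) : Prop := p * p = p ∧ pᴴ = p

/-- Murray-von Neumann equivalence of two projections (possibly of different sizes): there is a
partial isometry `v` with `v vᴴ = p` and `vᴴ v = q`. -/
def Eqv (p : Matrix ι ι R) (q : Matrix κ κ R) : Prop :=
  ∃ v : Matrix ι κ R, v * vᴴ = p ∧ vᴴ * v = q ∧ v * vᴴ * v = v

theorem IsPr.submatrix {p : Matrix ι ι R} (h : IsPr p) (e : κ ≃ ι) :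
    IsPr (p.submatrix e e) := by
  refine ⟨?_, ?_⟩
  · rw [Matrix.submatrix_mul_equiv, h.1]
  · rw [Matrix.conjTranspose_submatrix, h.2]

theorem IsPr.zero : IsPr (0 : Matrix ι ι R) := ⟨by simp, by simp⟩

theorem IsPr.one [DecidableEq ι] : IsPr (1 : Matrix ι ι R) := ⟨by simp, by simp⟩

theorem IsPr.fromBlocks {p : Matrix ι ι R} {q : Matrix κ κ R} (hp : IsPr p) (hq : IsPr q) :
    IsPr (fromBlocks p 0 0 q) := by
  refine ⟨?_, ?_⟩
  · rw [Matrix.fromBlocks_multiply]; simp [hp.1, hq.1]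
  · rw [Matrix.fromBlocks_conjTranspose]; simp [hp.2, hq.2]

theorem IsPr.one_sub [DecidableEq ι] {p : Matrix ι ι R} (h : IsPr p) : IsPr (1 - p) := by
  refine ⟨?_, ?_⟩
  · rw [mul_sub, sub_mul, sub_mul, h.1]; simp
  · rw [Matrix.conjTranspose_sub, h.2]; simp

theorem Eqv.refl {p : Matrix ι ι R} (h : IsPr p) : Eqv p p :=
  ⟨p, by rw [h.2, h.1], by rw [h.2, h.1], by rw [h.2, h.1, h.1]⟩

theorem Eqv.symm {p : Matrix ι ι R} {q : Matrix κ κ R} (h : Eqv p q) : Eqv q p := by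
  obtain ⟨v, h1, h2, h3⟩ := h
  refine ⟨vᴴ, by rw [conjTranspose_conjTranspose, h2], by rw [conjTranspose_conjTranspose, h1], ?_⟩
  rw [conjTranspose_conjTranspose]
  have := congrArg conjTranspose h3
  rw [conjTranspose_mul, conjTranspose_mul, conjTranspose_conjTranspose, ← Matrix.mul_assoc] at this
  exact this

theorem Eqv.isPr_left {p : Matrix ι ι R} {q : Matrix κ κ R} (h : Eqv p q) : IsPr p := by
  obtain ⟨v, h1, h2, h3⟩ := h
  refine ⟨?_, ?_⟩
  · rw [← h1, ← Matrix.mul_assoc, h3]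
  · rw [← h1, conjTranspose_mul, conjTranspose_conjTranspose]

theorem Eqv.isPr_right {p : Matrix ι ι R} {q : Matrix κ κ R} (h : Eqv p q) : IsPr q :=
  h.symm.isPr_left

theorem Eqv.trans {p : Matrix ι ι R} {q : Matrix κ κ R} {r : Matrix μ μ R}
    (h : Eqv p q) (h' : Eqv q r) : Eqv p r := by
  obtain ⟨v, h1, h2, h3⟩ := h
  obtain ⟨w, g1, g2, g3⟩ := h'
  have e1 : (v * w) * (v * w)ᴴ = p := by
    rw [conjTranspose_mul]
    calc v * w * (wᴴ * vᴴ) = v * (w * wᴴ) * vᴴ := by simp only [Matrix.mul_assoc]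
      _ = v * vᴴ * v * vᴴ := by rw [g1, ← h2]; simp only [Matrix.mul_assoc]
      _ = p := by rw [h3, h1]
  have e2 : (v * w)ᴴ * (v * w) = r := by
    rw [conjTranspose_mul]
    calc wᴴ * vᴴ * (v * w) = wᴴ * (vᴴ * v) * w := by simp only [Matrix.mul_assoc]
      _ = wᴴ * (w * wᴴ * w) := by rw [h2, ← g1]; simp only [Matrix.mul_assoc]
      _ = r := by rw [g3, g2]
  refine ⟨v * w, e1, e2, ?_⟩
  rw [e1, ← h1]
  calc v * vᴴ * (v * w) = (v * vᴴ * v) * w := by simp only [Matrix.mul_assoc]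
    _ = v * w := by rw [h3]

/-- Reindexing a projection does not change its class. -/
theorem Eqv.submatrix_equiv {p : Matrix ι ι R} (h : IsPr p) (e : κ ≃ ι) :
    Eqv p (p.submatrix e e) := by
  classical
  refine ⟨p.submatrix id e, ?_, ?_, ?_⟩
  · rw [conjTranspose_submatrix, h.2]
    have := Matrix.submatrix_mul_equiv p p (id : ι → ι) e (id : ι → ι)
    rw [this, h.1]; rfl
  · rw [conjTranspose_submatrix, h.2]
    have := Matrix.submatrix_mul_equiv p p (e : κ → ι) (Equiv.refl ι) (e : κ → ι)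
    rw [h.1] at this
    exact this
  · rw [conjTranspose_submatrix, h.2]
    have h1 := Matrix.submatrix_mul_equiv p p (id : ι → ι) e (id : ι → ι)
    rw [h1, h.1]
    have h2 := Matrix.submatrix_mul_equiv p p (id : ι → ι) (Equiv.refl ι) (e : κ → ι)
    rw [h.1] at h2
    exact h2

theorem Eqv.of_submatrix {p : Matrix ι ι R} {q : Matrix κ κ R} (h : IsPr p) (e : κ ≃ ι)
    (hq : q = p.submatrix e e) : Eqv p q := by
  rw [hq]; exact Eqv.submatrix_equiv h e

theorem Eqv.fromBlocks {p : Matrix ι ι R} {p' : Matrix κ κ R} {q : Matrix μ μ R}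
    {q' : Matrix ν ν R} (h : Eqv p p') (h' : Eqv q q') :
    Eqv (fromBlocks p 0 0 q) (fromBlocks p' 0 0 q') := by
  obtain ⟨v, h1, h2, h3⟩ := h
  obtain ⟨w, g1, g2, g3⟩ := h'
  refine ⟨Matrix.fromBlocks v 0 0 w, ?_, ?_, ?_⟩
  · rw [fromBlocks_conjTranspose, fromBlocks_multiply]; simp [h1, g1]
  · rw [fromBlocks_conjTranspose, fromBlocks_multiply]; simp [h2, g2]
  · rw [fromBlocks_conjTranspose, fromBlocks_multiply, fromBlocks_multiply]; simp [h3, g3]

theorem Eqv.fromBlocks_comm {p : Matrix ι ι R} {q : Matrix κ κ R} (hp : IsPr p) (hq : IsPr q) :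
    Eqv (Matrix.fromBlocks p 0 0 q) (Matrix.fromBlocks q 0 0 p) := by
  refine Eqv.of_submatrix (hp.fromBlocks hq) (Equiv.sumComm κ ι) ?_
  ext i j
  rcases i with i | i <;> rcases j with j | j <;> rfl

theorem Eqv.fromBlocks_assoc {p : Matrix ι ι R} {q : Matrix κ κ R} {r : Matrix μ μ R}
    (hp : IsPr p) (hq : IsPr q) (hr : IsPr r) :
    Eqv (Matrix.fromBlocks (Matrix.fromBlocks p 0 0 q) 0 0 r)
      (Matrix.fromBlocks p 0 0 (Matrix.fromBlocks q 0 0 r)) := by
  refine Eqv.of_submatrix ((hp.fromBlocks hq).fromBlocks hr) (Equiv.sumAssoc ι κ μ).symm ?_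
  ext i j
  rcases i with i | i | i <;> rcases j with j | j | j <;> rfl

theorem Eqv.fromBlocks_zero_left {p : Matrix ι ι R} {q : Matrix κ κ R} [IsEmpty κ]
    (hp : IsPr p) :
    Eqv (Matrix.fromBlocks q 0 0 p) p := by
  refine Eqv.symm (Eqv.of_submatrix hp (Equiv.emptySum κ ι) ?_)
  ext i j
  rcases i with i | i
  · exact isEmptyElim i
  · rcases j with j | j
    · exact isEmptyElim j
    · rfl

/-- Adding an arbitrary zero block does not change the class. -/
theorem Eqv.fromBlocks_zero {p : Matrix ι ι R} (hp : IsPr p) :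
    Eqv (Matrix.fromBlocks (0 : Matrix κ κ R) 0 0 p) p := by
  refine ⟨Matrix.fromRows 0 p, ?_, ?_, ?_⟩
  · rw [conjTranspose_fromRows_eq_fromCols_conjTranspose, Matrix.fromRows_mul_fromCols, hp.2, hp.1]; simp
  · rw [conjTranspose_fromRows_eq_fromCols_conjTranspose, Matrix.fromCols_mul_fromRows, hp.2, hp.1]; simp
  · rw [conjTranspose_fromRows_eq_fromCols_conjTranspose, Matrix.mul_assoc, Matrix.fromCols_mul_fromRows, hp.2, hp.1]
    simp [Matrix.fromRows_mul, hp.1]

theorem Eqv.zero_zero : Eqv (0 : Matrix ι ι R) (0 : Matrix κ κ R) :=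
  ⟨0, by simp, by simp, by simp⟩

end Basic

/-- Commutativity of a ring, as a mixin. -/
class RComm (R : Type*) [Ring R] : Prop where
  /-- multiplication is commutative -/
  comm : ∀ a b : R, a * b = b * a

instance (Y : Type*) [TopologicalSpace Y] : RComm C(Y, ℂ) := ⟨mul_comm⟩

instance : RComm ℂ := ⟨mul_comm⟩

section Comm

variable {R : Type*} [Ring R] [StarRing R] [RComm R]
variable {ι κ μ ν : Type*} [Fintype ι] [Fintype κ] [Fintype μ] [Fintype ν]

open scoped Kronecker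

theorem kron_mul {ι κ μ ι' κ' μ' : Type*} [Fintype κ] [Fintype κ'] (A : Matrix ι κ R)
    (B : Matrix κ μ R) (C : Matrix ι' κ' R) (D : Matrix κ' μ' R) :
    (A * B) ⊗ₖ (C * D) = (A ⊗ₖ C) * (B ⊗ₖ D) := by
  let _ : CommRing R := { (inferInstance : Ring R) with mul_comm := RComm.comm }
  exact mul_kronecker_mul A B C D

theorem kron_conjT {ι κ ι' κ' : Type*} (A : Matrix ι κ R) (C : Matrix ι' κ' R) :
    (A ⊗ₖ C)ᴴ = Aᴴ ⊗ₖ Cᴴ := by
  ext ⟨i, j⟩ ⟨k, l⟩
  simp only [conjTranspose_apply, kroneckerMap_apply, star_mul]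
  exact RComm.comm _ _

theorem IsPr.kron {p : Matrix ι ι R} {q : Matrix κ κ R} (hp : IsPr p) (hq : IsPr q) :
    IsPr (p ⊗ₖ q) := by
  refine ⟨?_, ?_⟩
  · rw [← kron_mul, hp.1, hq.1]
  · rw [kron_conjT, hp.2, hq.2]

theorem Eqv.kron {p : Matrix ι ι R} {p' : Matrix κ κ R} {q : Matrix μ μ R}
    {q' : Matrix ν ν R} (h : Eqv p p') (h' : Eqv q q') :
    Eqv (p ⊗ₖ q) (p' ⊗ₖ q') := by
  obtain ⟨v, h1, h2, h3⟩ := h
  obtain ⟨w, g1, g2, g3⟩ := h'
  refine ⟨v ⊗ₖ w, ?_, ?_, ?_⟩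
  · rw [kron_conjT, ← kron_mul, h1, g1]
  · rw [kron_conjT, ← kron_mul, h2, g2]
  · rw [kron_conjT, ← kron_mul, ← kron_mul, h3, g3]

theorem Eqv.kron_comm {p : Matrix ι ι R} {q : Matrix κ κ R} (hp : IsPr p) (hq : IsPr q) :
    Eqv (p ⊗ₖ q) (q ⊗ₖ p) := by
  refine Eqv.of_submatrix (hp.kron hq) (Equiv.prodComm κ ι) ?_
  ext ⟨i, j⟩ ⟨k, l⟩
  simp only [kroneckerMap_apply, submatrix_apply, Equiv.prodComm_apply, Prod.swap_prod_mk]
  exact RComm.comm _ _

theorem Eqv.kron_assoc {p : Matrix ι ι R} {q : Matrix κ κ R} {r : Matrix μ μ R}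
    (hp : IsPr p) (hq : IsPr q) (hr : IsPr r) :
    Eqv ((p ⊗ₖ q) ⊗ₖ r) (p ⊗ₖ (q ⊗ₖ r)) := by
  refine Eqv.of_submatrix ((hp.kron hq).kron hr) (Equiv.prodAssoc ι κ μ).symm ?_
  ext ⟨i, j, k⟩ ⟨i', j', k'⟩
  simp [mul_assoc]

theorem Eqv.kron_one {p : Matrix ι ι R} (hp : IsPr p) [Unique κ] [DecidableEq κ] :
    Eqv ((1 : Matrix κ κ R) ⊗ₖ p) p := by
  refine Eqv.symm (Eqv.of_submatrix hp (Equiv.uniqueProd ι κ) ?_)
  ext ⟨i, j⟩ ⟨i', j'⟩
  obtain rfl := Subsingleton.elim i i'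
  simp

theorem Eqv.kron_zero {p : Matrix ι ι R} [IsEmpty κ] {q : Matrix κ κ R} {r : Matrix μ μ R}
    [IsEmpty μ] :
    Eqv (q ⊗ₖ p) r := by
  refine ⟨0, ?_, ?_, ?_⟩
  · ext ⟨i, j⟩; exact isEmptyElim i
  · ext i; exact isEmptyElim i
  · simp

theorem Eqv.kron_fromBlocks {p : Matrix ι ι R} {q : Matrix κ κ R} {r : Matrix μ μ R}
    (hp : IsPr p) (hq : IsPr q) (hr : IsPr r) :
    Eqv (r ⊗ₖ (Matrix.fromBlocks p 0 0 q)) (Matrix.fromBlocks (r ⊗ₖ p) 0 0 (r ⊗ₖ q)) := by
  refine Eqv.of_submatrix (hr.kron (hp.fromBlocks hq)) (Equiv.prodSumDistrib μ ι κ).symm ?_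
  ext i j
  rcases i with ⟨i, i'⟩ | ⟨i, i'⟩ <;> rcases j with ⟨j, j'⟩ | ⟨j, j'⟩ <;> simp

end Comm

/-! ### The monoid `V R` -/

/-- Projections in `M_n(R)`, all `n`. -/
structure PMat (R : Type*) [Ring R] [StarRing R] where
  /-- size of the matrix -/
  n : ℕ
  /-- the matrix -/
  mat : Matrix (Fin n) (Fin n) R
  isPr : IsPr mat

section V

variable (R : Type*) [Ring R] [StarRing R]

/-- Murray-von Neumann equivalence as a setoid. -/
instance PMat.setoid : Setoid (PMat R) where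
  r p q := Eqv p.mat q.mat
  iseqv := ⟨fun p => Eqv.refl p.isPr, fun h => h.symm, fun h h' => h.trans h'⟩

/-- The monoid of Murray-von Neumann classes of projections in matrices over `R`. -/
def V : Type _ := Quotient (PMat.setoid R)

variable {R}
variable {ι κ μ ν : Type*} [Fintype ι] [Fintype κ] [Fintype μ] [Fintype ν]

/-- A projection indexed by any finite type, as a projection indexed by `Fin n`. -/
noncomputable def PMat.of (p : Matrix ι ι R) (h : IsPr p) : PMat R :=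
  ⟨Fintype.card ι, p.submatrix (Fintype.equivFin ι).symm (Fintype.equivFin ι).symm,
    h.submatrix _⟩

theorem PMat.eqv_of (p : Matrix ι ι R) (h : IsPr p) : Eqv p (PMat.of p h).mat :=
  Eqv.submatrix_equiv h _

/-- The class of a projection. -/
noncomputable def V.mk (p : Matrix ι ι R) (h : IsPr p) : V R := ⟦PMat.of p h⟧

theorem V.mk_eq_mk {p : Matrix ι ι R} {hp : IsPr p} {q : Matrix κ κ R} {hq : IsPr q} :
    V.mk p hp = V.mk q hq ↔ Eqv p q := by
  unfold V.mk
  constructor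
  · intro h
    have h' : Eqv (PMat.of p hp).mat (PMat.of q hq).mat := Quotient.exact h
    exact ((PMat.eqv_of p hp).trans h').trans (PMat.eqv_of q hq).symm
  · intro h
    apply Quotient.sound
    exact ((PMat.eqv_of p hp).symm.trans h).trans (PMat.eqv_of q hq)

theorem V.mk_sound {p : Matrix ι ι R} {hp : IsPr p} {q : Matrix κ κ R} {hq : IsPr q}
    (h : Eqv p q) : V.mk p hp = V.mk q hq := V.mk_eq_mk.2 h

theorem V.exists_mk (a : V R) :
    ∃ (n : ℕ) (p : Matrix (Fin n) (Fin n) R) (hp : IsPr p), a = V.mk p hp := by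
  induction a using Quotient.inductionOn with
  | h a =>
    obtain ⟨n, p, hp⟩ := a
    refine ⟨n, p, hp, ?_⟩
    apply Quotient.sound
    exact PMat.eqv_of p hp

/-- Addition: block sum. -/
noncomputable instance : Add (V R) where
  add := Quotient.map₂
    (fun p q => PMat.of (Matrix.fromBlocks p.mat 0 0 q.mat) (p.isPr.fromBlocks q.isPr))
    (by
      intro p p' h q q' h'
      refine ((PMat.eqv_of _ _).symm.trans ?_).trans (PMat.eqv_of _ _)
      exact Eqv.fromBlocks h h')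

noncomputable instance : Zero (V R) where
  zero := V.mk (0 : Matrix (Fin 0) (Fin 0) R) IsPr.zero

theorem V.zero_def : (0 : V R) = V.mk (0 : Matrix (Fin 0) (Fin 0) R) IsPr.zero := rfl

theorem V.mk_add_mk (p : Matrix ι ι R) (hp : IsPr p) (q : Matrix κ κ R) (hq : IsPr q) :
    V.mk p hp + V.mk q hq = V.mk (Matrix.fromBlocks p 0 0 q) (hp.fromBlocks hq) := by
  apply Quotient.sound
  refine ((PMat.eqv_of _ _).symm.trans ?_).trans (PMat.eqv_of _ _)
  exact Eqv.fromBlocks (PMat.eqv_of p hp).symm (PMat.eqv_of q hq).symm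

noncomputable instance V.instAddCommMonoid : AddCommMonoid (V R) where
  add_assoc a b c := by
    obtain ⟨_, p, hp, rfl⟩ := V.exists_mk a
    obtain ⟨_, q, hq, rfl⟩ := V.exists_mk b
    obtain ⟨_, r, hr, rfl⟩ := V.exists_mk c
    simp only [V.mk_add_mk]
    exact V.mk_sound (Eqv.fromBlocks_assoc hp hq hr)
  add_comm a b := by
    obtain ⟨_, p, hp, rfl⟩ := V.exists_mk a
    obtain ⟨_, q, hq, rfl⟩ := V.exists_mk b
    simp only [V.mk_add_mk]
    exact V.mk_sound (Eqv.fromBlocks_comm hp hq)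
  zero_add a := by
    obtain ⟨_, p, hp, rfl⟩ := V.exists_mk a
    rw [V.zero_def, V.mk_add_mk]
    exact V.mk_sound (Eqv.fromBlocks_zero_left hp)
  add_zero a := by
    obtain ⟨_, p, hp, rfl⟩ := V.exists_mk a
    rw [V.zero_def, V.mk_add_mk]
    exact V.mk_sound ((Eqv.fromBlocks_comm hp IsPr.zero).trans (Eqv.fromBlocks_zero_left hp))
  nsmul := nsmulRec

theorem V.mk_zero : V.mk (0 : Matrix ι ι R) IsPr.zero = 0 :=
  V.mk_sound Eqv.zero_zero

end V

/-- The group `K_0(R)`. -/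
abbrev K0 (R : Type*) [Ring R] [StarRing R] : Type _ := GG (V R)

/-! ### The semiring structure for commutative `R` -/

section VC

variable {R : Type*} [Ring R] [StarRing R] [RComm R]
variable {ι κ μ ν : Type*} [Fintype ι] [Fintype κ] [Fintype μ] [Fintype ν]

open scoped Kronecker

noncomputable instance : Mul (V R) where
  mul := Quotient.map₂
    (fun p q => PMat.of (p.mat ⊗ₖ q.mat) (p.isPr.kron q.isPr))
    (by
      intro p p' h q q' h'
      refine ((PMat.eqv_of _ _).symm.trans ?_).trans (PMat.eqv_of _ _)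
      exact Eqv.kron h h')

noncomputable instance : One (V R) where
  one := V.mk (1 : Matrix (Fin 1) (Fin 1) R) IsPr.one

theorem V.one_def : (1 : V R) = V.mk (1 : Matrix (Fin 1) (Fin 1) R) IsPr.one := rfl

theorem V.mk_mul_mk (p : Matrix ι ι R) (hp : IsPr p) (q : Matrix κ κ R) (hq : IsPr q) :
    V.mk p hp * V.mk q hq = V.mk (p ⊗ₖ q) (hp.kron hq) := by
  apply Quotient.sound
  refine ((PMat.eqv_of _ _).symm.trans ?_).trans (PMat.eqv_of _ _)
  exact Eqv.kron (PMat.eqv_of p hp).symm (PMat.eqv_of q hq).symm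

theorem V.mul_comm' (a b : V R) : a * b = b * a := by
  obtain ⟨_, p, hp, rfl⟩ := V.exists_mk a
  obtain ⟨_, q, hq, rfl⟩ := V.exists_mk b
  simp only [V.mk_mul_mk]
  exact V.mk_sound (Eqv.kron_comm hp hq)

theorem V.mul_add' (a b c : V R) : a * (b + c) = a * b + a * c := by
  obtain ⟨_, p, hp, rfl⟩ := V.exists_mk a
  obtain ⟨_, q, hq, rfl⟩ := V.exists_mk b
  obtain ⟨_, r, hr, rfl⟩ := V.exists_mk c
  simp only [V.mk_add_mk, V.mk_mul_mk]
  exact V.mk_sound (Eqv.kron_fromBlocks hq hr hp)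

theorem V.one_mul' (a : V R) : 1 * a = a := by
  obtain ⟨_, p, hp, rfl⟩ := V.exists_mk a
  rw [V.one_def, V.mk_mul_mk]
  exact V.mk_sound (Eqv.kron_one hp)

theorem V.zero_mul' (a : V R) : 0 * a = 0 := by
  obtain ⟨_, p, hp, rfl⟩ := V.exists_mk a
  rw [V.zero_def, V.mk_mul_mk]
  exact V.mk_sound Eqv.kron_zero

noncomputable instance V.instCommSemiring : CommSemiring (V R) :=
  { V.instAddCommMonoid with
    mul := (· * ·)
    one := 1
    left_distrib := V.mul_add'
    right_distrib := fun a b c => by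
      rw [V.mul_comm', V.mul_add', V.mul_comm' c a, V.mul_comm' c b]
    zero_mul := V.zero_mul'
    mul_zero := fun a => by rw [V.mul_comm', V.zero_mul']
    mul_assoc := fun a b c => by
      obtain ⟨_, p, hp, rfl⟩ := V.exists_mk a
      obtain ⟨_, q, hq, rfl⟩ := V.exists_mk b
      obtain ⟨_, r, hr, rfl⟩ := V.exists_mk c
      simp only [V.mk_mul_mk]
      exact V.mk_sound (Eqv.kron_assoc hp hq hr)
    one_mul := V.one_mul'
    mul_one := fun a => by rw [V.mul_comm', V.one_mul']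
    mul_comm := V.mul_comm' }

end VC

end Pool.Agent.Helper75.KT
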