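import Pool.Agent.Helper75.KT.PsiM
import Pool.Agent.Helper77.KTProd
import Pool.Agent.Helper96.KTAlg

set_option linter.unusedSectionVars false

namespace Pool.Agent.Helper75.KT

open Matrix Filter Topology CPd
open scoped Kronecker ComplexOrder Matrix.Norms.L2Operator

theorem one_sub_LL : 1 - kcl LL = Yc JJ none := by
  rw [Yc_eq, map_sub, map_one, pb_kcl _ taut_pr]
  rfl

theorem one_sub_LL_sq : (1 - kcl LL) ^ 2 = 0 := by
  rw [one_sub_LL]
  exact Yc_sq JJ none

theorem size_block (i k : ℕ) (h1 : 2 ^ i ≤ k) (h2 : k < 2 ^ (i + 1)) : Nat.size k = i + 1 := by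
  apply le_antisymm
  · exact Nat.size_le.2 h2
  · exact Nat.lt_size.2 h1

/-- grouping by size -/
theorem prod_by_size {R : Type*} [CommRing R] (g : ℕ → R) (i : ℕ) :
    ∏ k ∈ (Finset.range (2 ^ i)).erase 0, g (Nat.size k) = ∏ j ∈ Finset.range i,
      g (j + 1) ^ (2 ^ j) := by
  induction i with
  | zero => simp
  | succ i ih =>
    have hdis : Disjoint ((Finset.range (2 ^ i)).erase 0) (Finset.Ico (2 ^ i) (2 ^ (i + 1))) := by
      rw [Finset.disjoint_left]
      intro a ha hb
      rw [Finset.mem_erase, Finset.mem_range] at ha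
      rw [Finset.mem_Ico] at hb
      omega
    have hun : (Finset.range (2 ^ (i + 1))).erase 0
        = ((Finset.range (2 ^ i)).erase 0) ∪ (Finset.Ico (2 ^ i) (2 ^ (i + 1))) := by
      have hp : 0 < 2 ^ i := Nat.two_pow_pos i
      have hs : 2 ^ (i + 1) = 2 ^ i + 2 ^ i := by ring
      ext a
      rw [Finset.mem_union, Finset.mem_erase, Finset.mem_erase, Finset.mem_range,
        Finset.mem_range, Finset.mem_Ico]
      omega
    rw [hun, Finset.prod_union hdis, ih, Finset.prod_range_succ]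
    congr 1
    have hcard : 2 ^ (i + 1) - 2 ^ i = 2 ^ i := by
      have hs : 2 ^ (i + 1) = 2 ^ i + 2 ^ i := by ring
      rw [hs, Nat.add_sub_cancel]
    have hc : ∀ k ∈ Finset.Ico (2 ^ i) (2 ^ (i + 1)), g (Nat.size k) = g (i + 1) := by
      intro k hk
      rw [Finset.mem_Ico] at hk
      rw [size_block i k hk.1 hk.2]
    rw [Finset.prod_congr rfl hc, Finset.prod_const, Nat.card_Ico, hcard]

theorem one_sub_kcl_ee_pow (j : ℕ) : (1 - kcl (ee j)) ^ (dd j)
    = ((dd j).factorial : K0 C(XX, ℂ)) * ∏ c : Fin (dd j), Yc JJ (some (j, (c : ℕ))) := by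
  have h := prod_pow_card (Finset.univ : Finset (Fin (dd j)))
    (fun c => Yc JJ (some (j, (c : ℕ)))) (fun c _ => Yc_sq JJ _)
  rw [Finset.card_univ, Fintype.card_fin] at h
  rw [← h, kcl_ee]
  congr 2
  apply Finset.prod_congr rfl
  intro c _
  rw [Yc_eq, map_sub, map_one]
  have : (1 : K0 C(XX, ℂ)) - (1 - pb (⟨fun x => x (some (j, (c : ℕ))), continuous_apply _⟩ :
    C(XX, CPd 2)) (kcl (taut 2))) = pb (⟨fun x => x (some (j, (c : ℕ))), continuous_apply _⟩ :
    C(XX, CPd 2)) (kcl (taut 2)) := sub_sub_cancel _ _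
  exact this.symm

/-- the product in the form needed for nonvanishing -/
theorem prod_form (i : ℕ) : ∃ (m : ℕ) (F : Finset (ℕ × ℕ)), m ≠ 0 ∧ (∀ c ∈ F, c.1 ≤ i) ∧
    ∏ j ∈ Finset.range i, (1 - kcl (ee (j + 1))) ^ (dd (j + 1))
      = (m : K0 C(XX, ℂ)) * ∏ c ∈ F, Yc JJ (some c) := by
  induction i with
  | zero => exact ⟨1, ∅, one_ne_zero, by simp, by simp⟩
  | succ i ih =>
    obtain ⟨m, F, hm, hF, h⟩ := ih
    refine ⟨m * (dd (i + 1)).factorial,
      F ∪ (Finset.univ : Finset (Fin (dd (i + 1)))).image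
        (fun c : Fin (dd (i + 1)) => (i + 1, (c : ℕ))),
      mul_ne_zero hm (Nat.factorial_ne_zero _), ?_, ?_⟩
    · intro c hc
      rw [Finset.mem_union] at hc
      rcases hc with hc | hc
      · exact (hF c hc).trans (Nat.le_succ i)
      · obtain ⟨c', -, rfl⟩ := Finset.mem_image.1 hc
        exact le_rfl
    · have hdis : Disjoint F
          ((Finset.univ : Finset (Fin (dd (i + 1)))).image
        (fun c : Fin (dd (i + 1)) => (i + 1, (c : ℕ)))) := by
        rw [Finset.disjoint_left]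
        intro c hc hc'
        obtain ⟨c', -, rfl⟩ := Finset.mem_image.1 hc'
        have := hF _ hc
        simp only at this
        omega
      have hinj : Function.Injective (fun c : Fin (dd (i + 1)) => (i + 1, (c : ℕ))) := by
        intro a b hab
        rw [Prod.mk.injEq] at hab
        exact Fin.ext hab.2
      rw [Finset.prod_range_succ, h, one_sub_kcl_ee_pow, Finset.prod_union hdis,
        Finset.prod_image (fun a _ b _ hab => hinj hab)]
      push_cast
      ring

theorem prod_class_ne (hq2 : QuantStmt2) (i : ℕ) :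
    (1 - kcl LL) * ∏ k ∈ (Finset.range (2 ^ i)).erase 0, (1 - ek k) ^ 9 ≠ 0 := by
  have h1 : ∏ k ∈ (Finset.range (2 ^ i)).erase 0, (1 - ek k) ^ 9
      = ∏ j ∈ Finset.range i, (1 - kcl (ee (j + 1))) ^ (dd (j + 1)) := by
    rw [show (fun k => (1 - ek k) ^ 9) = fun k => (fun j => (1 - kcl (ee j)) ^ 9) (Nat.size k)
      from rfl, prod_by_size (fun j => (1 - kcl (ee j)) ^ 9)]
    apply Finset.prod_congr rfl
    intro j _
    rw [← pow_mul]
    rfl
  obtain ⟨m, F, hm, -, h2⟩ := prod_form i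
  rw [h1, h2, one_sub_LL]
  have h3 := Yc_prod_ne hq2 JJ (insert none (F.map ⟨some, Option.some_injective _⟩)) m hm
  rw [Finset.prod_insert (by simp), Finset.prod_map] at h3
  intro h4
  apply h3
  rw [← h4]
  simp only [Function.Embedding.coeFn_mk]
  ring

end Pool.Agent.Helper75.KT
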