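import Mathlib

/-!
# The Grothendieck group of a commutative monoid, and its ring structure

`GG S` is Mathlib's `Algebra.GrothendieckAddGroup S`, and for a commutative semiring `S` it is
given the evident commutative ring structure.
-/

namespace Pool.Agent.Helper75.KT

open Function

/-- The Grothendieck group of an additive commutative monoid. -/
def GG (S : Type*) [AddCommMonoid S] : Type _ := Algebra.GrothendieckAddGroup S

namespace GG

noncomputable instance (S : Type*) [AddCommMonoid S] : AddCommGroup (GG S) :=
  inferInstanceAs (AddCommGroup (Algebra.GrothendieckAddGroup S))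

section Add

variable {S T U : Type*} [AddCommMonoid S] [AddCommMonoid T] [AddCommMonoid U]

/-- The canonical map into the Grothendieck group. -/
noncomputable def of : S →+ GG S := Algebra.GrothendieckAddGroup.of (M := S)

theorem exists_sub (x : GG S) : ∃ a b : S, x = of a - of b := by
  induction x using AddLocalization.ind with
  | H y =>
    obtain ⟨a, b, hb⟩ := y
    refine ⟨a, b, ?_⟩
    have h1 : (of a : GG S) = AddLocalization.mk a (0 : (⊤ : AddSubmonoid S)) :=
      (AddLocalization.mk_zero_eq_addMonoidOf_mk a).symm
    have h2 : (of b : GG S) = AddLocalization.mk b (0 : (⊤ : AddSubmonoid S)) :=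
      (AddLocalization.mk_zero_eq_addMonoidOf_mk b).symm
    rw [h1, h2]
    have := Algebra.GrothendieckAddGroup.mk_sub_mk a b (0 : (⊤ : AddSubmonoid S)) 0
    refine Eq.trans ?_ this.symm
    change AddLocalization.mk a _ = _
    congr 1
    · simp
    · ext; simp

theorem of_eq_of_iff {a b : S} : (of a : GG S) = of b ↔ ∃ c, a + c = b + c := by
  have h1 : (of a : GG S) = AddLocalization.mk a (0 : (⊤ : AddSubmonoid S)) :=
    (AddLocalization.mk_zero_eq_addMonoidOf_mk a).symm
  have h2 : (of b : GG S) = AddLocalization.mk b (0 : (⊤ : AddSubmonoid S)) :=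
    (AddLocalization.mk_zero_eq_addMonoidOf_mk b).symm
  rw [h1, h2]
  constructor
  · intro h
    have h' := AddLocalization.mk_eq_mk_iff.1 h
    rw [AddLocalization.r_iff_exists] at h'
    obtain ⟨c, hc⟩ := h'
    refine ⟨c, ?_⟩
    simpa [add_comm] using hc
  · rintro ⟨c, hc⟩
    refine AddLocalization.mk_eq_mk_iff.2 ?_
    rw [AddLocalization.r_iff_exists]
    exact ⟨⟨c, trivial⟩, by simpa [add_comm] using hc⟩

/-- Extension of an additive map to the Grothendieck group. -/
noncomputable def lift {G : Type*} [AddCommGroup G] (f : S →+ G) : GG S →+ G :=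
  Algebra.GrothendieckAddGroup.lift f

@[simp] theorem lift_of {G : Type*} [AddCommGroup G] (f : S →+ G) (a : S) :
    lift f (of a) = f a := by
  have : (Algebra.GrothendieckAddGroup.lift.symm (Algebra.GrothendieckAddGroup.lift f)) a = f a := by
    rw [Equiv.symm_apply_apply]
  exact this

theorem hom_ext {G : Type*} [AddCommGroup G] {f g : GG S →+ G}
    (h : ∀ a, f (of a) = g (of a)) : f = g := by
  ext x
  obtain ⟨a, b, rfl⟩ := exists_sub x
  rw [map_sub, map_sub, h, h]

/-- Functoriality. -/
noncomputable def map (f : S →+ T) : GG S →+ GG T := lift (of.comp f)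

@[simp] theorem map_of (f : S →+ T) (a : S) : map f (of a) = of (f a) := by
  simp [map]

theorem map_comp (g : T →+ U) (f : S →+ T) (x : GG S) :
    map g (map f x) = map (g.comp f) x := by
  obtain ⟨a, b, rfl⟩ := exists_sub x
  simp

theorem map_id' (x : GG S) : map (AddMonoidHom.id S) x = x := by
  obtain ⟨a, b, rfl⟩ := exists_sub x
  simp

end Add

section Ring

variable {S T : Type*} [CommSemiring S] [CommSemiring T]

/-- Multiplication as a biadditive map. -/
noncomputable def mulHom : GG S →+ GG S →+ GG S :=
  lift
    { toFun := fun a => lift (of.comp (AddMonoidHom.mulLeft a))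
      map_zero' := by
        apply hom_ext; intro b; simp
      map_add' := by
        intro a a'
        apply hom_ext; intro b; simp [add_mul] }

theorem mulHom_of (a b : S) : mulHom (of a) (of b) = (of (a * b) : GG S) := by
  simp [mulHom]

noncomputable instance : Mul (GG S) := ⟨fun x y => mulHom x y⟩
noncomputable instance : One (GG S) := ⟨of 1⟩

theorem mul_def (x y : GG S) : x * y = mulHom x y := rfl
theorem one_def : (1 : GG S) = of 1 := rfl

theorem of_mul (a b : S) : (of (a * b) : GG S) = of a * of b := (mulHom_of a b).symm

theorem mul_add' (x y z : GG S) : x * (y + z) = x * y + x * z := by simp [mul_def]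
theorem add_mul' (x y z : GG S) : (x + y) * z = x * z + y * z := by simp [mul_def]
theorem mul_sub' (x y z : GG S) : x * (y - z) = x * y - x * z := by simp [mul_def]
theorem sub_mul' (x y z : GG S) : (x - y) * z = x * z - y * z := by simp [mul_def]
theorem zero_mul' (x : GG S) : 0 * x = 0 := by simp [mul_def]
theorem mul_zero' (x : GG S) : x * 0 = 0 := by simp [mul_def]

theorem mul_comm' (x y : GG S) : x * y = y * x := by
  obtain ⟨a, b, rfl⟩ := exists_sub x
  obtain ⟨c, d, rfl⟩ := exists_sub y
  simp only [mul_sub', sub_mul', ← of_mul, mul_comm a, mul_comm b]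
  abel

theorem one_mul' (x : GG S) : 1 * x = x := by
  obtain ⟨a, b, rfl⟩ := exists_sub x
  simp only [mul_sub', one_def, ← of_mul, one_mul]

theorem mul_assoc' (x y z : GG S) : x * y * z = x * (y * z) := by
  obtain ⟨a, b, rfl⟩ := exists_sub x
  obtain ⟨c, d, rfl⟩ := exists_sub y
  obtain ⟨e, f, rfl⟩ := exists_sub z
  simp only [mul_sub', sub_mul', ← of_mul, mul_assoc]

noncomputable instance instCommRing : CommRing (GG S) :=
  { (inferInstance : AddCommGroup (GG S)) with
    mul := (· * ·)
    one := 1
    left_distrib := mul_add'
    right_distrib := add_mul'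
    zero_mul := zero_mul'
    mul_zero := mul_zero'
    mul_assoc := mul_assoc'
    one_mul := one_mul'
    mul_one := fun x => by rw [mul_comm', one_mul']
    mul_comm := mul_comm' }

@[simp] theorem of_one : (of 1 : GG S) = 1 := rfl

theorem of_natCast (n : ℕ) : (of (n : S) : GG S) = n := by
  induction n with
  | zero => simp
  | succ n ih => rw [Nat.cast_succ, map_add, ih, of_one, Nat.cast_succ]

theorem of_pow (a : S) (n : ℕ) : (of (a ^ n) : GG S) = of a ^ n := by
  induction n with
  | zero => simp
  | succ n ih => rw [pow_succ, of_mul, ih, pow_succ]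

theorem of_prod {ι : Type*} (s : Finset ι) (f : ι → S) :
    (of (∏ i ∈ s, f i) : GG S) = ∏ i ∈ s, of (f i) := by
  classical
  induction s using Finset.induction_on with
  | empty => simp
  | insert a s ha ih => rw [Finset.prod_insert ha, Finset.prod_insert ha, of_mul, ih]

/-- Functoriality for ring homomorphisms. -/
noncomputable def mapRing (f : S →+* T) : GG S →+* GG T :=
  { map f.toAddMonoidHom with
    map_one' := by
      change map f.toAddMonoidHom (of 1) = of 1
      rw [map_of]
      simp
    map_mul' := by
      intro x y
      obtain ⟨a, b, rfl⟩ := exists_sub x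
      obtain ⟨c, d, rfl⟩ := exists_sub y
      change map f.toAddMonoidHom _ = map f.toAddMonoidHom _ * map f.toAddMonoidHom _
      simp only [mul_sub, sub_mul, ← of_mul, map_sub, map_of, RingHom.toAddMonoidHom_eq_coe,
        AddMonoidHom.coe_coe, map_mul] }

@[simp] theorem mapRing_of (f : S →+* T) (a : S) : mapRing f (of a) = of (f a) := by
  change map f.toAddMonoidHom (of a) = of (f a)
  simp

/-- Extension of a semiring homomorphism into a commutative ring. -/
noncomputable def liftRing {A : Type*} [CommRing A] (f : S →+* A) : GG S →+* A :=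
  { lift f.toAddMonoidHom with
    map_one' := by
      change lift f.toAddMonoidHom (of 1) = 1
      rw [lift_of]
      simp
    map_mul' := by
      intro x y
      obtain ⟨a, b, rfl⟩ := exists_sub x
      obtain ⟨c, d, rfl⟩ := exists_sub y
      change lift f.toAddMonoidHom _ = lift f.toAddMonoidHom _ * lift f.toAddMonoidHom _
      simp only [mul_sub, sub_mul, ← of_mul, map_sub, lift_of, RingHom.toAddMonoidHom_eq_coe,
        AddMonoidHom.coe_coe, map_mul] }

@[simp] theorem liftRing_of {A : Type*} [CommRing A] (f : S →+* A) (a : S) :
    liftRing f (of a) = f a := by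
  change lift f.toAddMonoidHom (of a) = f a
  simp

end Ring

end GG

end Pool.Agent.Helper75.KT
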