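import Pool.Agent.Helper75.KT.AlgDefs
import Pool.Agent.Helper97.KTLamP

/-!
# Classes of products and block sums, and the lambda operation on `K_0`
-/

set_option linter.unusedSectionVars false

namespace Pool.Agent.Helper75.KT

open Matrix Filter Topology CPd
open scoped Kronecker ComplexOrder Matrix.Norms.L2Operator

section ProdM

variable {X : Type*} [TopologicalSpace X] [CompactSpace X]

/-- exterior tensor product of 2 by 2 matrices -/
noncomputable def prodM {n : ℕ} (q : Fin n → Matrix (Fin 2) (Fin 2) C(X, ℂ)) :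
    Matrix (Fin n → Fin 2) (Fin n → Fin 2) C(X, ℂ) := fun r s => ∏ c, q c (r c) (s c)

theorem prodM_class {n : ℕ} (q : Fin n → Matrix (Fin 2) (Fin 2) C(X, ℂ)) (hq : ∀ c, IsPr (q c)) :
    IsPr (prodM q) ∧ kcl (prodM q) = ∏ c, kcl (q c) := by
  induction n with
  | zero =>
    have h : prodM q = 1 := by
      ext1 r s
      obtain rfl := Subsingleton.elim r s
      simp [prodM]
    rw [h]
    refine ⟨IsPr.one, ?_⟩
    rw [kcl_one]
    simp
  | succ n ih =>
    obtain ⟨h1, h2⟩ := ih (fun c => q c.succ) (fun c => hq _)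
    have h3 : (prodM q).submatrix (Fin.consEquiv (fun _ => Fin 2)) (Fin.consEquiv (fun _ => Fin 2))
        = q 0 ⊗ₖ prodM (fun c => q c.succ) := by
      ext1 ⟨a, r⟩ ⟨b, s⟩
      simp [prodM, Fin.prod_univ_succ]
    have h4 : prodM q = (q 0 ⊗ₖ prodM (fun c => q c.succ)).submatrix
        (Fin.consEquiv (fun _ => Fin 2)).symm (Fin.consEquiv (fun _ => Fin 2)).symm := by
      rw [← h3, Matrix.submatrix_submatrix]
      simp
    have h5 := (hq 0).kron h1
    rw [h4]
    refine ⟨h5.submatrix _, ?_⟩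
    rw [kcl_submatrix h5, kcl_kron (hq 0) h1, h2, Fin.prod_univ_succ]

end ProdM

section Blk

variable {X : Type*} [TopologicalSpace X] [CompactSpace X]
variable {o : Type*} [Fintype o] [DecidableEq o] {β : o → Type*} [∀ i, Fintype (β i)]
  [∀ i, DecidableEq (β i)]

theorem blockDiagonal'_pr (e : ∀ i, Matrix (β i) (β i) C(X, ℂ)) (he : ∀ i, IsPr (e i)) :
    IsPr (Matrix.blockDiagonal' e) := by
  refine ⟨?_, ?_⟩
  · rw [← Matrix.blockDiagonal'_mul]
    congr 1
    funext i
    exact (he i).1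
  · rw [Matrix.blockDiagonal'_conjTranspose]
    congr 1
    funext i
    exact (he i).2

theorem kcl_blockDiagonal' (e : ∀ i, Matrix (β i) (β i) C(X, ℂ)) (he : ∀ i, IsPr (e i)) :
    kcl (Matrix.blockDiagonal' e) = ∑ i, kcl (e i) := by
  let W : ∀ i, Matrix (Σ i, β i) (β i) C(X, ℂ) := fun i a b =>
    if h : a.1 = i then e i (h ▸ a.2) b else 0
  have hW : ∀ i (a : β i) b, W i ⟨i, a⟩ b = e i a b := by
    intro i a b; simp [W]
  have hW' : ∀ i j (a : β j) b, j ≠ i → W i ⟨j, a⟩ b = 0 := by
    intro i j a b h; simp [W, h]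
  have h1 : ∀ i, (W i)ᴴ * W i = e i := by
    intro i
    have h0 : (e i)ᴴ * e i = e i := by rw [(he i).2, (he i).1]
    ext1 a b
    rw [Matrix.mul_apply, Fintype.sum_sigma, Finset.sum_eq_single i]
    · have := congrFun (congrFun h0 a) b
      rw [Matrix.mul_apply] at this
      rw [← this]
      apply Finset.sum_congr rfl
      intro c _
      rw [conjTranspose_apply, hW, hW, conjTranspose_apply]
    · intro j _ hj
      apply Finset.sum_eq_zero
      intro c _
      rw [hW' i j c b hj, mul_zero]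
    · simp
  have h2 : ∀ i j, i ≠ j → (W i)ᴴ * W j = 0 := by
    intro i j hij
    ext1 a b
    rw [Matrix.mul_apply, Fintype.sum_sigma]
    apply Finset.sum_eq_zero
    intro k _
    apply Finset.sum_eq_zero
    intro c _
    by_cases hk : k = j
    · subst hk
      rw [conjTranspose_apply, hW' i k c a (Ne.symm hij), star_zero, zero_mul]
    · rw [hW' j k c b hk, mul_zero]
  have h3 := (kcl_orth_family W e he h1 h2 Finset.univ).2
  rw [← h3]
  congr 1
  ext1 ⟨i, a⟩ ⟨j, b⟩
  rw [Matrix.sum_apply, Finset.sum_eq_single i]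
  · rw [Matrix.mul_apply]
    by_cases hij : i = j
    · subst hij
      have h0 : e i * (e i)ᴴ = e i := by rw [(he i).2, (he i).1]
      rw [Matrix.blockDiagonal'_apply_eq]
      have := congrFun (congrFun h0 a) b
      rw [Matrix.mul_apply] at this
      rw [← this]
      apply Finset.sum_congr rfl
      intro c _
      rw [conjTranspose_apply, conjTranspose_apply, hW, hW]
    · rw [Matrix.blockDiagonal'_apply_ne _ _ _ hij]
      symm
      apply Finset.sum_eq_zero
      intro c _
      rw [conjTranspose_apply, hW' i j b c (Ne.symm hij), star_zero, mul_zero]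
  · intro k _ hk
    rw [Matrix.mul_apply]
    apply Finset.sum_eq_zero
    intro c _
    rw [hW' k i a c (Ne.symm hk), zero_mul]
  · simp

end Blk

section LamK

variable {X : Type*} [TopologicalSpace X] [CompactSpace X]
variable {ι κ : Type*} [Fintype ι] [Fintype κ] [DecidableEq ι] [DecidableEq κ]

open Polynomial

theorem lamP_isUnit {p : Matrix ι ι C(X, ℂ)} (hp : IsPr p) :
    IsUnit ((lamP p : (K0 C(X, ℂ))[X]) : PowerSeries (K0 C(X, ℂ))) := by
  rw [PowerSeries.isUnit_iff_constantCoeff, Polynomial.constantCoeff_coe, lamP_coeff hp,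
    kcl_Lam_zero hp]
  exact isUnit_one

/-- the total lambda operation on `V` as a function -/
noncomputable def lamVf (X : Type*) [TopologicalSpace X] [CompactSpace X] (a : V C(X, ℂ)) :
    Additive (PowerSeries (K0 C(X, ℂ)))ˣ :=
  Quotient.lift (fun p : PMat C(X, ℂ) => Additive.ofMul (lamP_isUnit p.isPr).unit)
    (fun p q (h : Eqv p.mat q.mat) => by
      congr 1
      apply Units.ext
      rw [IsUnit.unit_spec, IsUnit.unit_spec, lamP_eqv h]) a

theorem lamVf_mk (p : Matrix ι ι C(X, ℂ)) (hp : IsPr p) :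
    ((lamVf X (V.mk p hp)).toMul : PowerSeries (K0 C(X, ℂ)))
      = ((lamP p : (K0 C(X, ℂ))[X]) : PowerSeries (K0 C(X, ℂ))) := by
  have h1 : ((lamVf X (V.mk p hp)).toMul : PowerSeries (K0 C(X, ℂ)))
      = ((lamP (PMat.of p hp).mat : (K0 C(X, ℂ))[X]) : PowerSeries (K0 C(X, ℂ))) :=
    IsUnit.unit_spec _
  rw [h1, lamP_eqv (PMat.eqv_of p hp)]

/-- the total lambda operation on `V` -/
noncomputable def lamV (X : Type*) [TopologicalSpace X] [CompactSpace X] :
    V C(X, ℂ) →+ Additive (PowerSeries (K0 C(X, ℂ)))ˣ where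
  toFun := lamVf X
  map_zero' := by
    apply Additive.toMul.injective
    apply Units.ext
    rw [V.zero_def, lamVf_mk, toMul_zero, Units.val_one, lamP_eqv (q := (1 : Matrix (Fin 0) (Fin 0)
      C(X, ℂ))) ?_, lamP_one]
    · simp
    · have : (1 : Matrix (Fin 0) (Fin 0) C(X, ℂ)) = 0 := by ext i; exact i.elim0
      rw [this]
      exact Eqv.zero_zero
  map_add' a b := by
    obtain ⟨_, p, hp, rfl⟩ := V.exists_mk a
    obtain ⟨_, q, hq, rfl⟩ := V.exists_mk b
    apply Additive.toMul.injective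
    apply Units.ext
    rw [V.mk_add_mk, lamVf_mk, toMul_add, Units.val_mul, lamVf_mk, lamVf_mk,
      lamP_fromBlocks hp hq, Polynomial.coe_mul]

/-- the total lambda operation on `K_0`, with values in invertible power series -/
noncomputable def lamK (X : Type*) [TopologicalSpace X] [CompactSpace X] :
    GG (V C(X, ℂ)) →+ Additive (PowerSeries (K0 C(X, ℂ)))ˣ :=
  GG.lift (S := V C(X, ℂ)) (G := Additive (PowerSeries (K0 C(X, ℂ)))ˣ) (lamV X)

/-- the total lambda operation on `K_0`, multiplicative notation -/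
noncomputable def lamS (a : K0 C(X, ℂ)) : PowerSeries (K0 C(X, ℂ)) :=
  ((lamK X a).toMul : PowerSeries (K0 C(X, ℂ)))

theorem lamS_add (a b : K0 C(X, ℂ)) : lamS (a + b) = lamS a * lamS b := by
  unfold lamS
  rw [map_add, toMul_add, Units.val_mul]

theorem lamS_kcl {p : Matrix ι ι C(X, ℂ)} (hp : IsPr p) :
    lamS (kcl p) = ((lamP p : (K0 C(X, ℂ))[X]) : PowerSeries (K0 C(X, ℂ))) := by
  unfold lamS lamK
  rw [kcl_def hp, GG.lift_of]
  exact lamVf_mk p hp

theorem lamS_zero : lamS (0 : K0 C(X, ℂ)) = 1 := by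
  unfold lamS
  rw [map_zero, toMul_zero, Units.val_one]

theorem lamS_sum {σ : Type*} (s : Finset σ) (f : σ → K0 C(X, ℂ)) :
    lamS (∑ i ∈ s, f i) = ∏ i ∈ s, lamS (f i) := by
  classical
  induction s using Finset.induction_on with
  | empty => simp [lamS_zero]
  | insert a s ha ih => rw [Finset.sum_insert ha, Finset.prod_insert ha, lamS_add, ih]

theorem lamS_one : lamS (1 : K0 C(X, ℂ)) = ((1 + Polynomial.X : (K0 C(X, ℂ))[X]) :
    PowerSeries (K0 C(X, ℂ))) := by
  rw [one_eq_kcl, lamS_kcl IsPr.one, lamP_one, pow_one]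

end LamK

/-- The class of the line bundle of level `j`. -/
theorem kcl_ee (j : ℕ) : kcl (ee j) = ∏ c : Fin (dd j),
    pb (⟨fun x => x (some (j, (c : ℕ))), continuous_apply _⟩ : C(XX, CPd 2)) (kcl (taut 2)) := by
  have h : ee j = prodM (fun c : Fin (dd j) => (taut 2).map
      (pbA (⟨fun x => x (some (j, (c : ℕ))), continuous_apply _⟩ : C(XX, CPd 2)))) := rfl
  rw [h, (prodM_class _ (fun c => taut_pr.map _)).2]
  apply Finset.prod_congr rfl
  intro c _
  rw [pb_kcl _ taut_pr]

end Pool.Agent.Helper75.KT
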