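import Pool.Agent.Helper75.KT.Polar

/-!
# The clutching identity and the localisation lemma
-/

set_option linter.unusedSectionVars false

namespace Pool.Agent.Helper75.KT

open Matrix
open scoped Kronecker ComplexOrder

section Pull

variable {X Y Z : Type*} [TopologicalSpace X] [TopologicalSpace Y] [TopologicalSpace Z]
variable {ι κ μ ν : Type*} [Fintype ι] [Fintype κ] [Fintype μ] [Fintype ν]

/-- precomposition with a continuous map, as a star algebra homomorphism -/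
noncomputable abbrev pbA (f : C(X, Y)) : C(Y, ℂ) →⋆ₐ[ℂ] C(X, ℂ) := f.compStarAlgHom' ℂ ℂ

/-- pullback in K-theory -/
noncomputable def pb (f : C(X, Y)) : K0 C(Y, ℂ) →+* K0 C(X, ℂ) := K0.mapR (pbA f)

theorem pb_kcl (f : C(X, Y)) {p : Matrix ι ι C(Y, ℂ)} (hp : IsPr p) :
    pb f (kcl p) = kcl (p.map (pbA f)) := K0.mapR_kcl _ hp

theorem pb_comp (g : C(Y, Z)) (f : C(X, Y)) (a : K0 C(Z, ℂ)) :
    pb f (pb g a) = pb (g.comp f) a := by
  unfold pb
  rw [K0.mapR_comp]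
  rfl

theorem pb_id (a : K0 C(X, ℂ)) : pb (ContinuousMap.id X) a = a := by
  unfold pb
  exact K0.mapR_id a

theorem evM_pb (f : C(X, Y)) (M : Matrix ι κ C(Y, ℂ)) (x : X) :
    evM x (M.map (pbA f)) = evM (f x) M := rfl

/-- the inclusion of a subset, as a continuous map -/
def inc (C : Set X) : C(C, X) := ⟨Subtype.val, continuous_subtype_val⟩

/-- restriction in K-theory to a subset -/
noncomputable def rs (C : Set X) : K0 C(X, ℂ) →+* K0 C(C, ℂ) := pb (inc C)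

theorem pb_surj_of_homeo (e : X ≃ₜ Y) (a : K0 C(Y, ℂ))
    (h : pb (e : C(X, Y)) a = 0) : a = 0 := by
  have : pb (e.symm : C(Y, X)) (pb (e : C(X, Y)) a) = a := by
    rw [pb_comp]
    have : ((e : C(X, Y)).comp (e.symm : C(Y, X))) = ContinuousMap.id Y := by
      ext y; simp
    rw [this, pb_id]
  rw [← this, h, map_zero]

theorem rs_mono {C D : Set X} (h : C ⊆ D) (a : K0 C(X, ℂ)) (ha : rs D a = 0) : rs C a = 0 := by
  have : rs C a = pb (⟨Set.inclusion h, continuous_inclusion h⟩ : C(C, D)) (rs D a) := by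
    unfold rs
    rw [pb_comp]
    rfl
  rw [this, ha, map_zero]

theorem rs_univ (a : K0 C(X, ℂ)) (ha : rs Set.univ a = 0) : a = 0 := by
  have h1 : pb (⟨fun x => ⟨x, trivial⟩, by fun_prop⟩ : C(X, (Set.univ : Set X))) (rs Set.univ a)
      = a := by
    unfold rs
    rw [pb_comp]
    have : (inc (Set.univ : Set X)).comp ⟨fun x => ⟨x, trivial⟩, by fun_prop⟩
        = ContinuousMap.id X := by ext x; rfl
    rw [this, pb_id]
  rw [← h1, ha, map_zero]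

end Pull

section Clutch

/-- If `t A + Bᴴ B` kills a vector `v` in the range of the projection `A`, with `Bᴴ B = A` when
`t = 0`, then `v = 0`. -/
theorem inj_aux {α β : Type*} [Fintype α] [Fintype β] [DecidableEq α] (t : ℂ) (ht : 0 ≤ t)
    (A : Matrix α α ℂ) (B : Matrix β α ℂ) (hB : t = 0 → Bᴴ * B = A) (v : α → ℂ)
    (hv : A *ᵥ v = v) (h : (t • A + Bᴴ * B) *ᵥ v = 0) : v = 0 := by
  by_cases h0 : t = 0
  · rw [hB h0, h0, zero_smul, zero_add, hv] at h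
    exact h
  · have h1 : star v ⬝ᵥ ((t • A + Bᴴ * B) *ᵥ v) = 0 := by rw [h]; simp
    rw [Matrix.add_mulVec, dotProduct_add, Matrix.smul_mulVec, hv, star_dot_conjT,
      dotProduct_smul, smul_eq_mul] at h1
    have n1 : 0 ≤ star v ⬝ᵥ v := dotProduct_star_self_nonneg _
    have n2 : 0 ≤ star (B *ᵥ v) ⬝ᵥ (B *ᵥ v) := dotProduct_star_self_nonneg _
    obtain ⟨h2, h3⟩ := (add_eq_zero_iff_of_nonneg (mul_nonneg ht n1) n2).1 h1
    rcases mul_eq_zero.1 h2 with h4 | h4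
    · exact absurd h4 h0
    · exact dotProduct_star_self_eq_zero.1 h4

variable {X : Type*} [TopologicalSpace X] [CompactSpace X]
variable {γ γ' ε φ : Type*} [Fintype γ] [Fintype γ'] [Fintype ε] [Fintype φ]
  [DecidableEq γ] [DecidableEq γ'] [DecidableEq ε] [DecidableEq φ]

theorem neg_mul_neg' {R : Type*} [Ring R] {α β δ : Type*} [Fintype β] (M : Matrix α β R)
    (N : Matrix β δ R) : (-M) * (-N) = M * N := by
  rw [Matrix.neg_mul, Matrix.mul_neg, neg_neg]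

theorem evM_smul {α β : Type*} (x : X) (f : C(X, ℂ)) (M : Matrix α β C(X, ℂ)) :
    evM x (f • M) = f x • evM x M := by
  ext i j; simp [evM]

theorem mulVec_sum_fst {α β γ δ : Type*} [Fintype γ] [Fintype δ] (A : Matrix α γ ℂ)
    (B : Matrix β δ ℂ) (v : γ ⊕ δ → ℂ) :
    Matrix.fromBlocks A 0 0 B *ᵥ v = Sum.elim (A *ᵥ (v ∘ Sum.inl)) (B *ᵥ (v ∘ Sum.inr)) := by
  rw [Matrix.fromBlocks_mulVec]
  simp

theorem clutch_aux (G : Matrix γ γ C(X, ℂ)) (G' : Matrix γ' γ' C(X, ℂ))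
    (E : Matrix ε ε C(X, ℂ)) (F : Matrix φ φ C(X, ℂ))
    (hG : IsPr G) (hG' : IsPr G') (hE : IsPr E) (hF : IsPr F)
    (D : Matrix φ ε C(X, ℂ)) (f : C(X, ℂ)) (hFD : F * D = D) (hDE : D * E = D)
    (hDD : Dᴴ * D = f • E)
    (hf : ∀ x, 0 ≤ f x) (θ : Matrix γ' γ C(X, ℂ)) (hθ1 : G' * θ = θ) (hθ2 : θ * G = θ)
    (hθ3 : ∀ x, f x = 0 → evM x (θᴴ * θ) = evM x G)
    (hDD' : D * Dᴴ = f • F)
    (hθ4 : ∀ x, f x = 0 → evM x (θ * θᴴ) = evM x G') (x : X)
    (v : (γ × ε) ⊕ (γ' × φ) → ℂ)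
    (hv : evM x (Matrix.fromBlocks (G ⊗ₖ E) 0 0 (G' ⊗ₖ F)) *ᵥ v = v)
    (hv' : evM x (Matrix.fromBlocks (G ⊗ₖ D) (-(θᴴ ⊗ₖ F)) (θ ⊗ₖ E) (G' ⊗ₖ Dᴴ)) *ᵥ v = 0) :
    v = 0 := by
  have hED : E * Dᴴ = Dᴴ := by
    have := congrArg conjTranspose hDE
    rwa [conjTranspose_mul, hE.2] at this
  have hDF : Dᴴ * F = Dᴴ := by
    have := congrArg conjTranspose hFD
    rwa [conjTranspose_mul, hF.2] at this
  have hGθ : G * θᴴ = θᴴ := by
    have := congrArg conjTranspose hθ2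
    rwa [conjTranspose_mul, hG.2] at this
  have hθG' : θᴴ * G' = θᴴ := by
    have := congrArg conjTranspose hθ1
    rwa [conjTranspose_mul, hG'.2] at this
  have hww : (Matrix.fromBlocks (G ⊗ₖ D) (-(θᴴ ⊗ₖ F)) (θ ⊗ₖ E) (G' ⊗ₖ Dᴴ))ᴴ *
      (Matrix.fromBlocks (G ⊗ₖ D) (-(θᴴ ⊗ₖ F)) (θ ⊗ₖ E) (G' ⊗ₖ Dᴴ)) =
      Matrix.fromBlocks (f • (G ⊗ₖ E) + (θ ⊗ₖ E)ᴴ * (θ ⊗ₖ E)) 0 0
        (f • (G' ⊗ₖ F) + (θᴴ ⊗ₖ F)ᴴ * (θᴴ ⊗ₖ F)) := by
    rw [Matrix.fromBlocks_conjTranspose, Matrix.fromBlocks_multiply]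
    simp only [Matrix.conjTranspose_neg, conjTranspose_kronecker, conjTranspose_conjTranspose,
      Matrix.neg_mul, Matrix.mul_neg, neg_neg, ← mul_kronecker_mul, hG.2, hG.1, hE.2, hE.1, hF.2,
      hF.1, hG'.2, hG'.1, hDD, hDD', hED, hDF, hGθ, hθG', hθ1, hθ2, hFD, hDE]
    rw [kronecker_smul, kronecker_smul]
    congr 1
    · simp
    · simp
    · rw [add_comm]
  have h0 : evM x (Matrix.fromBlocks (f • (G ⊗ₖ E) + (θ ⊗ₖ E)ᴴ * (θ ⊗ₖ E)) 0 0
        (f • (G' ⊗ₖ F) + (θᴴ ⊗ₖ F)ᴴ * (θᴴ ⊗ₖ F))) *ᵥ v = 0 := by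
    rw [← hww, evM_mul, ← Matrix.mulVec_mulVec, hv', Matrix.mulVec_zero]
  rw [evM_fromBlocks, evM_zero, evM_zero, mulVec_sum_fst] at h0 hv
  have a1 : evM x (G ⊗ₖ E) *ᵥ (v ∘ Sum.inl) = v ∘ Sum.inl := by
    have := congrArg (fun u => u ∘ Sum.inl) hv
    simpa using this
  have a2 : evM x (G' ⊗ₖ F) *ᵥ (v ∘ Sum.inr) = v ∘ Sum.inr := by
    have := congrArg (fun u => u ∘ Sum.inr) hv
    simpa using this
  have b1 : evM x (f • (G ⊗ₖ E) + (θ ⊗ₖ E)ᴴ * (θ ⊗ₖ E)) *ᵥ (v ∘ Sum.inl) = 0 := by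
    have := congrArg (fun u => u ∘ Sum.inl) h0
    simpa using this
  have b2 : evM x (f • (G' ⊗ₖ F) + (θᴴ ⊗ₖ F)ᴴ * (θᴴ ⊗ₖ F)) *ᵥ (v ∘ Sum.inr) = 0 := by
    have := congrArg (fun u => u ∘ Sum.inr) h0
    simpa using this
  have c1 : v ∘ Sum.inl = 0 := by
    refine inj_aux (f x) (hf x) (evM x (G ⊗ₖ E)) (evM x (θ ⊗ₖ E)) ?_ _ a1 ?_
    · intro h
      rw [← evM_conjT, ← evM_mul, conjTranspose_kronecker, ← mul_kronecker_mul, hE.2, hE.1,
        evM_kron, hθ3 x h, evM_kron]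
    · rw [← evM_conjT, ← evM_mul, ← evM_smul, ← evM_add]; exact b1
  have c2 : v ∘ Sum.inr = 0 := by
    refine inj_aux (f x) (hf x) (evM x (G' ⊗ₖ F)) (evM x (θᴴ ⊗ₖ F)) ?_ _ a2 ?_
    · intro h
      rw [← evM_conjT, ← evM_mul, conjTranspose_kronecker, ← mul_kronecker_mul, hF.2, hF.1,
        conjTranspose_conjTranspose, evM_kron, hθ4 x h, evM_kron]
    · rw [← evM_conjT, ← evM_mul, ← evM_smul, ← evM_add]; exact b2
  funext i
  rcases i with i | i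
  · exact congrFun c1 i
  · exact congrFun c2 i

/-- The clutching identity. -/
theorem clutch (G : Matrix γ γ C(X, ℂ)) (G' : Matrix γ' γ' C(X, ℂ))
    (E : Matrix ε ε C(X, ℂ)) (F : Matrix φ φ C(X, ℂ))
    (hG : IsPr G) (hG' : IsPr G') (hE : IsPr E) (hF : IsPr F)
    (D : Matrix φ ε C(X, ℂ)) (f : C(X, ℂ)) (hFD : F * D = D) (hDE : D * E = D)
    (hDD : Dᴴ * D = f • E) (hDD' : D * Dᴴ = f • F)
    (hf : ∀ x, 0 ≤ f x) (θ : Matrix γ' γ C(X, ℂ)) (hθ1 : G' * θ = θ) (hθ2 : θ * G = θ)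
    (hθ3 : ∀ x, f x = 0 → evM x (θᴴ * θ) = evM x G)
    (hθ4 : ∀ x, f x = 0 → evM x (θ * θᴴ) = evM x G') :
    (kcl G - kcl G') * (kcl E - kcl F) = 0 := by
  have hED : E * Dᴴ = Dᴴ := by
    have := congrArg conjTranspose hDE
    rwa [conjTranspose_mul, hE.2] at this
  have hDF : Dᴴ * F = Dᴴ := by
    have := congrArg conjTranspose hFD
    rwa [conjTranspose_mul, hF.2] at this
  have hGθ : G * θᴴ = θᴴ := by
    have := congrArg conjTranspose hθ2
    rwa [conjTranspose_mul, hG.2] at this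
  have hθG' : θᴴ * G' = θᴴ := by
    have := congrArg conjTranspose hθ1
    rwa [conjTranspose_mul, hG'.2] at this
  have key : Eqv (Matrix.fromBlocks (G ⊗ₖ F) 0 0 (G' ⊗ₖ E))
      (Matrix.fromBlocks (G ⊗ₖ E) 0 0 (G' ⊗ₖ F)) := by
    refine eqv_of_pointwise _ _
      (Matrix.fromBlocks (G ⊗ₖ D) (-(θᴴ ⊗ₖ F)) (θ ⊗ₖ E) (G' ⊗ₖ Dᴴ))
      ((hG.kron hF).fromBlocks (hG'.kron hE)) ((hG.kron hE).fromBlocks (hG'.kron hF)) ?_ ?_ ?_ ?_
    · rw [Matrix.fromBlocks_multiply]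
      simp only [Matrix.zero_mul, add_zero, zero_add, Matrix.mul_neg, ← mul_kronecker_mul, hG.1,
        hG'.1, hE.1, hF.1, hFD, hED, hGθ, hθ1, neg_zero]
    · rw [Matrix.fromBlocks_multiply]
      simp only [Matrix.mul_zero, add_zero, zero_add, Matrix.neg_mul, ← mul_kronecker_mul, hG.1,
        hG'.1, hE.1, hF.1, hDE, hDF, hθG', hθ2]
    · intro x v hv hv'
      exact clutch_aux G G' E F hG hG' hE hF D f hFD hDE hDD hf θ hθ1 hθ2 hθ3 hDD' hθ4 x v hv hv'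
    · intro x v hv hv'
      rw [← evM_conjT, Matrix.fromBlocks_conjTranspose] at hv'
      -- change sign of the second component to reduce to the previous case
      have e1 := clutch_aux G G' F E hG hG' hF hE Dᴴ f hED hDF
        (by rw [conjTranspose_conjTranspose]; exact hDD') hf (-θ)
        (by rw [Matrix.mul_neg, hθ1]) (by rw [Matrix.neg_mul, hθ2])
        (by intro y hy; rw [Matrix.conjTranspose_neg, neg_mul_neg']; exact hθ3 y hy)
        (by rw [conjTranspose_conjTranspose]; exact hDD)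
        (by intro y hy; rw [Matrix.conjTranspose_neg, neg_mul_neg']; exact hθ4 y hy)
        x v hv
      apply e1
      convert hv' using 3
      simp only [Matrix.conjTranspose_neg, conjTranspose_kronecker, conjTranspose_conjTranspose,
        hG.2, hG'.2, hE.2, hF.2]
      congr 1
      · ext ⟨i, j⟩ ⟨k, l⟩; simp
      · ext ⟨i, j⟩ ⟨k, l⟩; simp
  have h1 := key.kcl_eq
  rw [kcl_fromBlocks (hG.kron hF) (hG'.kron hE), kcl_fromBlocks (hG.kron hE) (hG'.kron hF),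
    kcl_kron hG hF, kcl_kron hG' hE, kcl_kron hG hE, kcl_kron hG' hF] at h1
  linear_combination -h1

end Clutch

section Localise

variable {X : Type*} [TopologicalSpace X] [CompactSpace X] [T2Space X]

/-- Tietze extension for matrices of functions. -/
theorem exists_extend {ι κ : Type*} (Z : Set X) (hZ : IsClosed Z) (M : Matrix ι κ C(Z, ℂ)) :
    ∃ N : Matrix ι κ C(X, ℂ), N.map (pbA (inc Z)) = M := by
  have h : ∀ i j, ∃ g : C(X, ℂ), g.restrict Z = M i j := fun i j =>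
    ContinuousMap.exists_restrict_eq hZ (M i j)
  choose g hg using h
  refine ⟨fun i j => g i j, ?_⟩
  ext i j x
  exact DFunLike.congr_fun (hg i j) x

theorem fromBlocks_map' {R R' : Type*} [Ring R] [StarRing R] [Algebra ℂ R] [Ring R'] [StarRing R']
    [Algebra ℂ R'] {ι κ : Type*} (f : R →⋆ₐ[ℂ] R') (P : Matrix ι ι R) (Q : Matrix κ κ R) :
    (Matrix.fromBlocks P 0 0 Q).map f = Matrix.fromBlocks (P.map f) 0 0 (Q.map f) := by
  rw [Matrix.fromBlocks_map]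
  congr 1 <;> (ext i j; simp)

/-- The localisation lemma: if `e` is a projection with a section `s` whose zero set is `Z`,
`e = s sᴴ / |s|²` off `Z`, and `a` vanishes on `C ∩ Z`, then `a (1 - [e])` vanishes on `C`. -/
theorem loc {μ : Type*} [Fintype μ] [DecidableEq μ] (C Z : Set X) (hC : IsClosed C)
    (hZ : IsClosed Z) (e : Matrix μ μ C(X, ℂ)) (he : IsPr e) (s : Matrix μ (Fin 1) C(X, ℂ))
    (f : C(X, ℂ)) (hes : e * s = s) (hs1 : sᴴ * s = f • (1 : Matrix (Fin 1) (Fin 1) C(X, ℂ)))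
    (hs2 : s * sᴴ = f • e) (hf : ∀ x, 0 ≤ f x) (hfZ : ∀ x, f x = 0 → x ∈ Z)
    (a : K0 C(X, ℂ)) (ha : rs (C ∩ Z) a = 0) : rs C (a * (1 - kcl e)) = 0 := by
  obtain ⟨n, m, p, hp, rfl⟩ := exists_kcl_sub_nat a
  have hCZ : IsClosed (C ∩ Z) := hC.inter hZ
  rw [map_sub, map_natCast, rs, pb_kcl _ hp] at ha
  have h1 : kcl (p.map (pbA (inc (C ∩ Z))))
      = kcl (1 : Matrix (Fin m) (Fin m) C((C ∩ Z : Set X), ℂ)) := by
    rw [kcl_one, Fintype.card_fin]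
    exact sub_eq_zero.1 ha
  obtain ⟨k, hk⟩ := (kcl_eq_iff (hp.map _) IsPr.one).1 h1
  set G : Matrix (Fin n ⊕ Fin k) (Fin n ⊕ Fin k) C(X, ℂ) := Matrix.fromBlocks p 0 0 1 with hG
  set G' : Matrix (Fin m ⊕ Fin k) (Fin m ⊕ Fin k) C(X, ℂ) := Matrix.fromBlocks 1 0 0 1 with hG'
  have hGp : IsPr G := hp.fromBlocks IsPr.one
  have hG'p : IsPr G' := IsPr.one.fromBlocks IsPr.one
  have hk' : Eqv (G'.map (pbA (inc (C ∩ Z)))) (G.map (pbA (inc (C ∩ Z)))) := by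
    rw [hG, hG', fromBlocks_map', fromBlocks_map', one_map, one_map]
    exact hk.symm
  obtain ⟨θ0, t1, t2, t3⟩ := hk'
  obtain ⟨θ1, hθ1⟩ := exists_extend (C ∩ Z) hCZ θ0
  have hval : kcl p - (m : K0 C(X, ℂ)) = kcl G - kcl G' := by
    rw [hG, hG', kcl_fromBlocks hp IsPr.one, kcl_fromBlocks IsPr.one IsPr.one, kcl_one, kcl_one]
    simp
  have t4 : G'.map (pbA (inc (C ∩ Z))) * θ0 = θ0 := by rw [← t1, t3]
  have t5 : θ0 * G.map (pbA (inc (C ∩ Z))) = θ0 := by rw [← t2, ← Matrix.mul_assoc, t3]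
  -- the cut down extension
  set θ := G' * θ1 * G with hθ
  have hθZ : θ.map (pbA (inc (C ∩ Z))) = θ0 := by
    rw [hθ, mul_map, mul_map, hθ1, t4, t5]
  have hθa : G' * θ = θ := by rw [hθ, ← Matrix.mul_assoc, ← Matrix.mul_assoc, hG'p.1]
  have hθb : θ * G = θ := by rw [hθ, Matrix.mul_assoc, hGp.1]
  -- restrict everything to `C`
  have hCc : CompactSpace C := isCompact_iff_compactSpace.1 hC.isCompact
  have key := clutch (X := C) (G.map (pbA (inc C))) (G'.map (pbA (inc C)))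
    (1 : Matrix (Fin 1) (Fin 1) C(C, ℂ)) (e.map (pbA (inc C))) (hGp.map _) (hG'p.map _)
    IsPr.one (he.map _) (s.map (pbA (inc C))) (pbA (inc C) f)
    (by rw [← mul_map, hes]) (by rw [Matrix.mul_one])
    (by
      rw [conjT_map, ← mul_map, hs1]
      ext i j x
      simp [Matrix.one_apply]
      split_ifs <;> rfl)
    (by
      rw [conjT_map, ← mul_map, hs2]
      ext i j x
      simp)
    (fun x => hf x) (θ.map (pbA (inc C))) (by rw [← mul_map, hθa]) (by rw [← mul_map, hθb])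
    (by
      intro x hx
      have hxZ : (x : X) ∈ C ∩ Z := ⟨x.2, hfZ x hx⟩
      rw [conjT_map, ← mul_map, evM_pb, evM_pb]
      have e1 : evM (⟨(x : X), hxZ⟩ : (C ∩ Z : Set X)) ((θᴴ * θ).map (pbA (inc (C ∩ Z))))
          = evM (⟨(x : X), hxZ⟩ : (C ∩ Z : Set X)) (G.map (pbA (inc (C ∩ Z)))) := by
        rw [mul_map, ← conjT_map, hθZ, t2]
      exact e1)
    (by
      intro x hx
      have hxZ : (x : X) ∈ C ∩ Z := ⟨x.2, hfZ x hx⟩
      rw [conjT_map, ← mul_map, evM_pb, evM_pb]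
      have e1 : evM (⟨(x : X), hxZ⟩ : (C ∩ Z : Set X)) ((θ * θᴴ).map (pbA (inc (C ∩ Z))))
          = evM (⟨(x : X), hxZ⟩ : (C ∩ Z : Set X)) (G'.map (pbA (inc (C ∩ Z)))) := by
        rw [mul_map, ← conjT_map, hθZ, t1]
      exact e1)
  rw [hval, map_mul, map_sub, map_sub, map_one, rs, pb_kcl _ hGp, pb_kcl _ hG'p, pb_kcl _ he]
  rw [kcl_one, Fintype.card_fin, Nat.cast_one] at key
  exact key

/-- Iterated localisation. -/
theorem loc_finset {σ : Type*} [DecidableEq σ] {μ : σ → Type*} [∀ i, Fintype (μ i)]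
    [∀ i, DecidableEq (μ i)] (T : Finset σ)
    (Z : σ → Set X) (hZ : ∀ i, IsClosed (Z i)) (e : ∀ i, Matrix (μ i) (μ i) C(X, ℂ))
    (he : ∀ i, IsPr (e i)) (s : ∀ i, Matrix (μ i) (Fin 1) C(X, ℂ)) (f : σ → C(X, ℂ))
    (hes : ∀ i, e i * s i = s i)
    (hs1 : ∀ i, (s i)ᴴ * s i = f i • (1 : Matrix (Fin 1) (Fin 1) C(X, ℂ)))
    (hs2 : ∀ i, s i * (s i)ᴴ = f i • e i) (hf : ∀ i x, 0 ≤ f i x)
    (hfZ : ∀ i x, f i x = 0 → x ∈ Z i) (a : K0 C(X, ℂ))
    (ha : rs (⋂ i ∈ T, Z i) a = 0) : a * ∏ i ∈ T, (1 - kcl (e i)) = 0 := by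
  have key : ∀ (T : Finset σ) (C : Set X), IsClosed C → ∀ b : K0 C(X, ℂ),
      rs (C ∩ ⋂ i ∈ T, Z i) b = 0 → rs C (b * ∏ i ∈ T, (1 - kcl (e i))) = 0 := by
    intro T
    induction T using Finset.induction_on with
    | empty =>
      intro C hC b hb
      have h0 : C ∩ ⋂ i ∈ (∅ : Finset σ), Z i = C := by simp
      rw [h0] at hb
      rw [Finset.prod_empty, mul_one]
      exact hb
    | insert j T hj ih =>
      intro C hC b hb
      rw [Finset.prod_insert hj]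
      have h1 : rs (C ∩ Z j) (b * ∏ i ∈ T, (1 - kcl (e i))) = 0 := by
        apply ih _ (hC.inter (hZ j))
        have : C ∩ Z j ∩ ⋂ i ∈ T, Z i = C ∩ ⋂ i ∈ insert j T, Z i := by
          rw [Finset.set_biInter_insert, Set.inter_assoc]
        rw [this]; exact hb
      have h2 := loc C (Z j) hC (hZ j) (e j) (he j) (s j) (f j) (hes j) (hs1 j) (hs2 j) (hf j)
        (hfZ j) _ h1
      rw [mul_assoc, mul_comm _ (1 - kcl (e j))] at h2
      exact h2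
  apply rs_univ
  apply key T Set.univ isClosed_univ
  rw [Set.univ_inter]
  exact ha

end Localise

end Pool.Agent.Helper75.KT
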