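import Pool.Agent.Helper75.KT.VLoc
import Pool.Agent.Helper90.KTF1
import Pool.Agent.Helper28.KTF3
import Pool.Agent.Helper75.KT.F2

/-!
# No homomorphism induces the map
-/

set_option linter.unusedSectionVars false

namespace Pool.Agent.Helper75.KT

open Matrix Filter Topology CPd
open scoped Kronecker ComplexOrder Matrix.Norms.L2Operator

open Polynomial in
theorem lamS_pb_line {X Y : Type*} [TopologicalSpace X] [CompactSpace X] [TopologicalSpace Y]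
    [CompactSpace Y] {ι : Type*} [Fintype ι] [DecidableEq ι] (g : C(Y, X))
    {p : Matrix ι ι C(X, ℂ)} (hp : IsPr p) (htr : ∀ x, (evM x p).trace = 1) :
    lamS (pb g (kcl p)) = ((1 + C (pb g (kcl p)) * Polynomial.X : (K0 C(Y, ℂ))[X]) :
      PowerSeries (K0 C(Y, ℂ))) := by
  rw [pb_kcl g hp, lamS_kcl (hp.map _), lamP_line (hp.map _)]
  intro y
  exact htr (g y)

theorem alg_prod {R : Type*} [CommRing R] (s : Finset ℕ) (Y : R) (e : ℕ → R)
    (h : Y * (∏ k ∈ s, (1 - e k) ^ 2) ^ 2 * ∏ k ∈ s, (1 - e k) ^ 5 = 0) :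
    Y * ∏ k ∈ s, (1 - e k) ^ 9 = 0 := by
  rw [← Finset.prod_pow, mul_assoc, ← Finset.prod_mul_distrib] at h
  rw [← h]
  congr 1
  apply Finset.prod_congr rfl
  intro k _
  ring

/-- the contradiction: no homomorphism sends the Bott projection to the class `1 + [L]` -/
theorem no_hom (hq : QuantStmt) (hq2 : QuantStmt2) (𝒟 : AlgData) (φ : C(S4, ℂ) →⋆ₐ[ℂ] 𝒟.A)
    (hφ : K0.map φ (kcl pB) = kcl (1 : Matrix (Fin 1) (Fin 1) 𝒟.A) + kcl (LL.map 𝒟.emb)) :
    False := by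
  have hL : IsPr (LL.map 𝒟.emb) := LL_pr.map 𝒟.emb
  rw [K0.map_kcl φ pB_pr, ← kcl_fromBlocks IsPr.one hL,
    kcl_eq_iff (pB_pr.map φ) (IsPr.one.fromBlocks hL)] at hφ
  obtain ⟨n, v, hv1, hv2, -⟩ := hφ
  have hv1' : v * vᴴ = PPm n (fun a => φ (xc a)) := by
    rw [hv1, PPm, ← pB_map]
  obtain ⟨i, h, w, hs, b1, b2, b3⟩ := exists_stage 𝒟 n φ v hv1' hv2 (show (0 : ℝ) < 1 / 500 by
    norm_num)
  obtain ⟨τ, E, hE, hk⟩ := exists_split 𝒟 i n w hs b1 b2 b3
  have hVc : IsClosed (VV 𝒟 i h) := VV_closed 𝒟 i h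
  have hVcomp : CompactSpace (VV 𝒟 i h) := isCompact_iff_compactSpace.1 hVc.isCompact
  have h1 := lam_step hq τ E hE ((Finset.range (2 ^ i)).erase 0)
    (fun k => rs (VV 𝒟 i h) (ek k)) (rs (VV 𝒟 i h) (kcl LL))
    (fun k _ => lamS_pb_line (inc (VV 𝒟 i h)) (ee_pr _) (ee_trace _))
    (lamS_pb_line (inc (VV 𝒟 i h)) LL_pr (fun x => CPd.tr (x none))) ?_ hk
  · have h2 : rs (VV 𝒟 i h) ((1 - kcl LL)
        * (∏ k ∈ (Finset.range (2 ^ i)).erase 0, (1 - ek k) ^ 2) ^ 2) = 0 := by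
      simp only [map_mul, map_sub, map_one, map_pow, map_prod]
      exact h1
    have h3 := loc_step 𝒟 i h _ h2
    exact prod_class_ne hq2 i (alg_prod _ _ _ h3)
  · have := congrArg (rs (VV 𝒟 i h)) one_sub_LL_sq
    simpa only [map_pow, map_sub, map_one, map_zero] using this

end Pool.Agent.Helper75.KT
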