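import Pool.Agent.Helper75.KT.Defs

/-!
# Functoriality of `K_0`, classes of projections
-/

set_option linter.unusedSectionVars false

namespace Pool.Agent.Helper75.KT

open Matrix
open scoped Kronecker

section Map

variable {R R' R'' : Type*} [Ring R] [StarRing R] [Algebra ℂ R] [Ring R'] [StarRing R']
  [Algebra ℂ R'] [Ring R''] [StarRing R''] [Algebra ℂ R'']
variable {ι κ μ ν : Type*} [Fintype ι] [Fintype κ] [Fintype μ] [Fintype ν]

theorem conjT_map (f : R →⋆ₐ[ℂ] R') (M : Matrix ι κ R) : (M.map f)ᴴ = (Mᴴ).map f := by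
  ext i j
  simp [conjTranspose_apply, map_star]

theorem mul_map (f : R →⋆ₐ[ℂ] R') (M : Matrix ι κ R) (N : Matrix κ μ R) :
    (M * N).map f = M.map f * N.map f := by
  ext i j
  simp [Matrix.mul_apply, map_sum]

theorem IsPr.map (f : R →⋆ₐ[ℂ] R') {p : Matrix ι ι R} (h : IsPr p) : IsPr (p.map f) := by
  refine ⟨?_, ?_⟩
  · rw [← mul_map, h.1]
  · rw [conjT_map, h.2]

theorem Eqv.map (f : R →⋆ₐ[ℂ] R') {p : Matrix ι ι R} {q : Matrix κ κ R} (h : Eqv p q) :
    Eqv (p.map f) (q.map f) := by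
  obtain ⟨v, h1, h2, h3⟩ := h
  refine ⟨v.map f, ?_, ?_, ?_⟩
  · rw [conjT_map, ← mul_map, h1]
  · rw [conjT_map, ← mul_map, h2]
  · rw [conjT_map, ← mul_map, ← mul_map, h3]

/-- The map induced on Murray-von Neumann classes by a unital star homomorphism, as a function. -/
def V.mapFun (f : R →⋆ₐ[ℂ] R') : V R → V R' :=
  Quotient.map (fun p => (⟨p.n, p.mat.map f, p.isPr.map f⟩ : PMat R'))
    (fun _ _ h => Eqv.map f h)

theorem V.mapFun_mk (f : R →⋆ₐ[ℂ] R') (p : Matrix ι ι R) (hp : IsPr p) :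
    V.mapFun f (V.mk p hp) = V.mk (p.map f) (hp.map f) := by
  refine Quotient.sound ?_
  change Eqv _ _
  exact (Eqv.map f (PMat.eqv_of p hp)).symm.trans (PMat.eqv_of _ _)

/-- The map induced on Murray-von Neumann classes by a unital star homomorphism. -/
def V.map (f : R →⋆ₐ[ℂ] R') : V R →+ V R' where
  toFun := V.mapFun f
  map_zero' := by
    rw [V.zero_def, V.mapFun_mk, V.zero_def]
    apply V.mk_sound
    have : (0 : Matrix (Fin 0) (Fin 0) R).map f = 0 := by ext i; exact i.elim0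
    rw [this]
    exact Eqv.zero_zero
  map_add' := by
    intro a b
    obtain ⟨_, p, hp, rfl⟩ := V.exists_mk a
    obtain ⟨_, q, hq, rfl⟩ := V.exists_mk b
    rw [V.mk_add_mk, V.mapFun_mk, V.mapFun_mk, V.mapFun_mk, V.mk_add_mk]
    apply V.mk_sound
    have h2 : (Matrix.fromBlocks p 0 0 q).map f
        = Matrix.fromBlocks (p.map f) 0 0 (q.map f) := by
      rw [Matrix.fromBlocks_map]
      congr 1 <;> (ext i j; simp)
    rw [h2]
    exact Eqv.refl ((hp.map f).fromBlocks (hq.map f))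

theorem V.map_mk (f : R →⋆ₐ[ℂ] R') (p : Matrix ι ι R) (hp : IsPr p) :
    V.map f (V.mk p hp) = V.mk (p.map f) (hp.map f) := V.mapFun_mk f p hp

/-- The map induced on `K_0` by a unital star homomorphism. -/
noncomputable def K0.map (f : R →⋆ₐ[ℂ] R') : K0 R →+ K0 R' := GG.map (V.map f)

end Map

section KCL

variable {R : Type*} [Ring R] [StarRing R]
variable {ι κ μ ν : Type*} [Fintype ι] [Fintype κ] [Fintype μ] [Fintype ν]

open Classical in
/-- The class in `K_0` of a projection (junk value `0` for a matrix which is not a projection). -/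
noncomputable def kcl (p : Matrix ι ι R) : K0 R :=
  if h : IsPr p then GG.of (V.mk p h) else 0

theorem kcl_def {p : Matrix ι ι R} (h : IsPr p) : kcl p = GG.of (V.mk p h) := by
  unfold kcl; rw [dif_pos h]

theorem Eqv.kcl_eq {p : Matrix ι ι R} {q : Matrix κ κ R} (h : Eqv p q) : kcl p = kcl q := by
  rw [kcl_def h.isPr_left, kcl_def h.isPr_right, V.mk_sound h]

theorem kcl_fromBlocks {p : Matrix ι ι R} {q : Matrix κ κ R} (hp : IsPr p) (hq : IsPr q) :
    kcl (Matrix.fromBlocks p 0 0 q) = kcl p + kcl q := by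
  rw [kcl_def hp, kcl_def hq, kcl_def (hp.fromBlocks hq), ← map_add, V.mk_add_mk]

theorem kcl_zero : kcl (0 : Matrix ι ι R) = 0 := by
  rw [kcl_def IsPr.zero, V.mk_zero, map_zero]

theorem kcl_submatrix {p : Matrix ι ι R} (hp : IsPr p) (e : κ ≃ ι) :
    kcl (p.submatrix e e) = kcl p := (Eqv.submatrix_equiv hp e).symm.kcl_eq

theorem eqv_add_orth {p q : Matrix ι ι R} (hp : IsPr p) (hq : IsPr q) (h : p * q = 0) :
    Eqv (Matrix.fromBlocks p 0 0 q) (p + q) := by
  have h' : q * p = 0 := by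
    have := congrArg conjTranspose h
    rwa [conjTranspose_mul, hp.2, hq.2, conjTranspose_zero] at this
  refine ⟨Matrix.fromRows p q, ?_, ?_, ?_⟩
  · rw [conjTranspose_fromRows_eq_fromCols_conjTranspose, Matrix.fromRows_mul_fromCols, hp.2, hp.1,
      hq.2, hq.1, h, h']
  · rw [conjTranspose_fromRows_eq_fromCols_conjTranspose, Matrix.fromCols_mul_fromRows, hp.2, hp.1,
      hq.2, hq.1]
  · rw [conjTranspose_fromRows_eq_fromCols_conjTranspose, Matrix.mul_assoc,
      Matrix.fromCols_mul_fromRows, hp.2, hp.1, hq.2, hq.1]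
    rw [Matrix.fromRows_mul, mul_add, mul_add, h, h', hp.1, hq.1]; simp

theorem kcl_add_orth {p q : Matrix ι ι R} (hp : IsPr p) (hq : IsPr q) (h : p * q = 0) :
    kcl (p + q) = kcl p + kcl q := by
  rw [← (eqv_add_orth hp hq h).kcl_eq, kcl_fromBlocks hp hq]

theorem kcl_one_sub [DecidableEq ι] {p : Matrix ι ι R} (hp : IsPr p) :
    kcl (1 - p) = kcl (1 : Matrix ι ι R) - kcl p := by
  have h : p * (1 - p) = 0 := by rw [mul_sub, hp.1]; simp
  have := kcl_add_orth hp hp.one_sub h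
  rw [add_sub_cancel] at this
  rw [this]; abel

theorem eqv_stab {n : ℕ} {r : Matrix (Fin n) (Fin n) R} (hr : IsPr r)
    {s : Matrix ι ι R} (hs : IsPr s) :
    Eqv (Matrix.fromBlocks s 0 0 (1 : Matrix (Fin n) (Fin n) R))
      (Matrix.fromBlocks (Matrix.fromBlocks s 0 0 r) 0 0 (1 - r)) := by
  have h0 : r * (1 - r) = 0 := by rw [mul_sub, hr.1]; simp
  refine Eqv.trans ?_ (Eqv.fromBlocks_assoc hs hr hr.one_sub).symm
  refine Eqv.fromBlocks (Eqv.refl hs) ?_
  have := (eqv_add_orth hr hr.one_sub h0).symm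
  rwa [add_sub_cancel] at this

/-- Equality in `K_0` is stable equivalence. -/
theorem kcl_eq_iff {p : Matrix ι ι R} {q : Matrix κ κ R} (hp : IsPr p) (hq : IsPr q) :
    kcl p = kcl q ↔ ∃ n : ℕ, Eqv (Matrix.fromBlocks p 0 0 (1 : Matrix (Fin n) (Fin n) R))
      (Matrix.fromBlocks q 0 0 (1 : Matrix (Fin n) (Fin n) R)) := by
  constructor
  · intro h
    rw [kcl_def hp, kcl_def hq, GG.of_eq_of_iff] at h
    obtain ⟨c, hc⟩ := h
    obtain ⟨n, r, hr, rfl⟩ := V.exists_mk c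
    rw [V.mk_add_mk, V.mk_add_mk] at hc
    have h1 := V.mk_eq_mk.1 hc
    exact ⟨n, ((eqv_stab hr hp).trans (h1.fromBlocks (Eqv.refl hr.one_sub))).trans
      (eqv_stab hr hq).symm⟩
  · rintro ⟨n, h⟩
    have := h.kcl_eq
    rw [kcl_fromBlocks hp IsPr.one, kcl_fromBlocks hq IsPr.one] at this
    exact add_right_cancel this

theorem exists_kcl_sub (x : K0 R) : ∃ (n : ℕ) (p q : Matrix (Fin n) (Fin n) R),
    IsPr p ∧ IsPr q ∧ x = kcl p - kcl q := by
  obtain ⟨a, b, rfl⟩ := GG.exists_sub x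
  obtain ⟨m, p, hp, rfl⟩ := V.exists_mk a
  obtain ⟨k, q, hq, rfl⟩ := V.exists_mk b
  refine ⟨m + k, (Matrix.fromBlocks p 0 0 (0 : Matrix (Fin k) (Fin k) R)).submatrix finSumFinEquiv.symm
    finSumFinEquiv.symm, (fromBlocks (0 : Matrix (Fin m) (Fin m) R) 0 0 q).submatrix
    finSumFinEquiv.symm finSumFinEquiv.symm, (hp.fromBlocks IsPr.zero).submatrix _,
    (IsPr.zero.fromBlocks hq).submatrix _, ?_⟩
  rw [kcl_submatrix (hp.fromBlocks IsPr.zero), kcl_submatrix (IsPr.zero.fromBlocks hq),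
    kcl_fromBlocks hp IsPr.zero, kcl_fromBlocks IsPr.zero hq, kcl_zero, kcl_zero, kcl_def hp,
    kcl_def hq, add_zero, zero_add]

theorem kcl_nsmul_one (n : ℕ) :
    kcl (1 : Matrix (Fin n) (Fin n) R) = n • kcl (1 : Matrix (Fin 1) (Fin 1) R) := by
  induction n with
  | zero =>
    rw [zero_smul]
    have : (1 : Matrix (Fin 0) (Fin 0) R) = 0 := by ext i; exact i.elim0
    rw [this, kcl_zero]
  | succ n ih =>
    rw [succ_nsmul, ← ih, ← kcl_fromBlocks IsPr.one IsPr.one, Matrix.fromBlocks_one,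
      ← kcl_submatrix (IsPr.one (ι := Fin n ⊕ Fin 1)) finSumFinEquiv.symm,
      Matrix.submatrix_one_equiv]

theorem kcl_one_nsmul [DecidableEq ι] :
    kcl (1 : Matrix ι ι R) = Fintype.card ι • kcl (1 : Matrix (Fin 1) (Fin 1) R) := by
  rw [← kcl_nsmul_one, ← kcl_submatrix (IsPr.one (ι := ι)) (Fintype.equivFin ι).symm,
    Matrix.submatrix_one_equiv]

end KCL

section KCLmap

variable {R R' : Type*} [Ring R] [StarRing R] [Algebra ℂ R] [Ring R'] [StarRing R']
  [Algebra ℂ R']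
variable {ι κ μ ν : Type*} [Fintype ι] [Fintype κ] [Fintype μ] [Fintype ν]

theorem K0.map_kcl (f : R →⋆ₐ[ℂ] R') {p : Matrix ι ι R} (hp : IsPr p) :
    K0.map f (kcl p) = kcl (p.map f) := by
  rw [kcl_def hp, kcl_def (hp.map f), K0.map, GG.map_of, V.map_mk]

end KCLmap

section KComm

variable {R : Type*} [Ring R] [StarRing R] [RComm R]
variable {ι κ μ ν : Type*} [Fintype ι] [Fintype κ] [Fintype μ] [Fintype ν]

theorem kcl_kron {p : Matrix ι ι R} {q : Matrix κ κ R} (hp : IsPr p) (hq : IsPr q) :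
    kcl (p ⊗ₖ q) = kcl p * kcl q := by
  rw [kcl_def hp, kcl_def hq, kcl_def (hp.kron hq), ← GG.of_mul, V.mk_mul_mk]

theorem one_eq_kcl : (1 : K0 R) = kcl (1 : Matrix (Fin 1) (Fin 1) R) := by
  rw [kcl_def IsPr.one, ← V.one_def, GG.of_one]

theorem kcl_one [DecidableEq ι] : kcl (1 : Matrix ι ι R) = (Fintype.card ι : K0 R) := by
  rw [kcl_one_nsmul, ← one_eq_kcl, nsmul_one]

theorem kcl_compl [DecidableEq ι] {p : Matrix ι ι R} (hp : IsPr p) :
    kcl (1 - p) = (Fintype.card ι : K0 R) - kcl p := by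
  rw [kcl_one_sub hp, kcl_one]

theorem exists_kcl_sub_nat (x : K0 R) : ∃ (n m : ℕ) (p : Matrix (Fin n) (Fin n) R),
    IsPr p ∧ x = kcl p - m := by
  obtain ⟨n, p, q, hp, hq, rfl⟩ := exists_kcl_sub x
  refine ⟨n + n, n, (fromBlocks p 0 0 (1 - q)).submatrix finSumFinEquiv.symm finSumFinEquiv.symm,
    (hp.fromBlocks hq.one_sub).submatrix _, ?_⟩
  rw [kcl_submatrix (hp.fromBlocks hq.one_sub), kcl_fromBlocks hp hq.one_sub, kcl_compl hq]
  simp only [Fintype.card_fin]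
  abel

end KComm

section KCommMap

variable {R R' R'' : Type*} [Ring R] [StarRing R] [RComm R] [Algebra ℂ R] [Ring R'] [StarRing R']
  [RComm R'] [Algebra ℂ R'] [Ring R''] [StarRing R''] [RComm R''] [Algebra ℂ R'']
variable {ι κ μ ν : Type*} [Fintype ι] [Fintype κ] [Fintype μ] [Fintype ν]

theorem kron_map (f : R →⋆ₐ[ℂ] R') (p : Matrix ι ι R) (q : Matrix κ κ R) :
    (p ⊗ₖ q).map f = p.map f ⊗ₖ q.map f := by
  ext ⟨i, j⟩ ⟨k, l⟩
  simp

theorem one_map [DecidableEq ι] (f : R →⋆ₐ[ℂ] R') : (1 : Matrix ι ι R).map f = 1 := by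
  rw [Matrix.map_one _ (map_zero f) (map_one f)]

/-- The ring homomorphism induced on `K_0` of commutative algebras. -/
noncomputable def K0.mapR (f : R →⋆ₐ[ℂ] R') : K0 R →+* K0 R' :=
  { K0.map f with
    map_one' := by
      change K0.map f 1 = 1
      rw [one_eq_kcl, K0.map_kcl f IsPr.one, one_map, one_eq_kcl]
    map_mul' := by
      intro x y
      change K0.map f (x * y) = K0.map f x * K0.map f y
      obtain ⟨_, p, q, hp, hq, rfl⟩ := exists_kcl_sub x
      obtain ⟨_, p', q', hp', hq', rfl⟩ := exists_kcl_sub y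
      simp only [sub_mul, mul_sub, map_sub, ← kcl_kron, hp, hq, hp', hq', K0.map_kcl,
        IsPr.kron, kron_map, IsPr.map] }

theorem K0.mapR_kcl (f : R →⋆ₐ[ℂ] R') {p : Matrix ι ι R} (hp : IsPr p) :
    K0.mapR f (kcl p) = kcl (p.map f) := K0.map_kcl f hp

theorem K0.mapR_comp (g : R' →⋆ₐ[ℂ] R'') (f : R →⋆ₐ[ℂ] R') (x : K0 R) :
    K0.mapR g (K0.mapR f x) = K0.mapR (g.comp f) x := by
  obtain ⟨_, p, q, hp, hq, rfl⟩ := exists_kcl_sub x
  simp only [map_sub, K0.mapR_kcl, hp, hq, IsPr.map]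
  rfl

theorem K0.mapR_id (x : K0 R) : K0.mapR (StarAlgHom.id ℂ R) x = x := by
  obtain ⟨_, p, q, hp, hq, rfl⟩ := exists_kcl_sub x
  simp only [map_sub, K0.mapR_kcl, hp, hq]
  rfl

end KCommMap

end Pool.Agent.Helper75.KT
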