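import Pool.Agent.Helper75.KT.Transfer

/-!
# Projections over `ℂ`, and asymptotic classes
-/

set_option linter.unusedSectionVars false

namespace Pool.Agent.Helper75.KT

open Matrix Filter Topology
open scoped Kronecker ComplexOrder Matrix.Norms.L2Operator

section MatC

variable {α β γ δ : Type*} [Fintype α] [Fintype β] [Fintype γ] [Fintype δ] [DecidableEq α]
  [DecidableEq β] [DecidableEq γ] [DecidableEq δ]

/-- Every self-adjoint matrix is within `2 ‖a² - a‖` of a projection. -/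
theorem near_pr (a : Matrix α α ℂ) (ha : aᴴ = a) :
    ∃ E : Matrix α α ℂ, IsPr E ∧ ‖a - E‖ ≤ 2 * ‖a * a - a‖ := by
  have hsa : IsSelfAdjoint a := ha
  set f : ℝ → ℝ := fun t => if t < 1 / 2 then 0 else 1 with hf
  have hfin : (spectrum ℝ a).Finite := Matrix.finite_real_spectrum
  have hc : ∀ g : ℝ → ℝ, ContinuousOn g (spectrum ℝ a) := fun g => hfin.continuousOn g
  refine ⟨cfc f a, ⟨?_, ?_⟩, ?_⟩
  · rw [← cfc_mul f f a (hc _) (hc _)]
    congr 1
    ext t
    simp only [hf]
    split_ifs <;> simp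
  · have : IsSelfAdjoint (cfc f a) := cfc_predicate f a
    exact this
  · have h1 : a - cfc f a = cfc (fun t => t - f t) a := by
      rw [cfc_sub (fun t => t) f a (hc _) (hc _), cfc_id' ℝ a]
    have h2 : a * a - a = cfc (fun t : ℝ => t * t - t) a := by
      rw [cfc_sub (fun t : ℝ => t * t) (fun t => t) a (hc _) (hc _),
        cfc_mul (fun t : ℝ => t) (fun t => t) a
        (hc _) (hc _), cfc_id' ℝ a]
    have h3 : ∀ t ∈ spectrum ℝ a, ‖t * t - t‖ ≤ ‖a * a - a‖ := by
      have := (norm_cfc_le_iff (fun t : ℝ => t * t - t) a (norm_nonneg (a * a - a)) (hc _) hsa).1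
        (by rw [← h2])
      exact this
    rw [h1]
    apply norm_cfc_le (by positivity)
    intro t ht
    have h4 := h3 t ht
    have h5 : ‖t - f t‖ ≤ 2 * ‖t * t - t‖ := by
      have e : t * t - t = t * (t - 1) := by ring
      rw [e, norm_mul]
      simp only [hf]
      split_ifs with h
      · have : 1 / 2 ≤ ‖t - 1‖ := by
          rw [Real.norm_eq_abs, abs_sub_comm, abs_of_pos (by linarith)]; linarith
        rw [sub_zero]
        nlinarith [norm_nonneg t]
      · have : 1 / 2 ≤ ‖t‖ := by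
          rw [Real.norm_eq_abs, abs_of_pos (by linarith)]; linarith
        nlinarith [norm_nonneg (t - 1)]
    linarith

theorem pr_diag (E : Matrix α α ℂ) (hE : IsPr E) :
    ∃ (U : Matrix α α ℂ) (l : α → ℝ), Uᴴ * U = 1 ∧ U * Uᴴ = 1 ∧
      E = U * Matrix.diagonal (fun i => ((l i : ℝ) : ℂ)) * Uᴴ := by
  have hH : E.IsHermitian := hE.2
  refine ⟨(hH.eigenvectorUnitary : Matrix α α ℂ), hH.eigenvalues,
    Unitary.coe_star_mul_self hH.eigenvectorUnitary,
    Unitary.coe_mul_star_self hH.eigenvectorUnitary, ?_⟩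
  have := hH.spectral_theorem
  rw [Unitary.conjStarAlgAut_apply] at this
  exact this

/-- A projection over `ℂ` is equivalent to an identity matrix. -/
theorem pr_eqv_one (E : Matrix α α ℂ) (hE : IsPr E) :
    ∃ r : ℕ, Eqv E (1 : Matrix (Fin r) (Fin r) ℂ) ∧ E.trace = r := by
  obtain ⟨U, l, hUU, hUU', hspec⟩ := pr_diag E hE
  set D : Matrix α α ℂ := Matrix.diagonal (fun i => ((l i : ℝ) : ℂ)) with hD
  have hDD : D * D = D := by
    have h1 : D = Uᴴ * E * U := by
      rw [hspec]
      calc D = (Uᴴ * U) * D * (Uᴴ * U) := by rw [hUU]; simp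
        _ = Uᴴ * (U * D * Uᴴ) * U := by simp only [Matrix.mul_assoc]
    rw [h1]
    calc Uᴴ * E * U * (Uᴴ * E * U) = Uᴴ * E * (U * Uᴴ) * E * U := by
          simp only [Matrix.mul_assoc]
      _ = Uᴴ * (E * E) * U := by rw [hUU', Matrix.mul_one]; simp only [Matrix.mul_assoc]
      _ = Uᴴ * E * U := by rw [hE.1]
  have hev : ∀ i, l i = 0 ∨ l i = 1 := by
    intro i
    have h1 := congrFun (congrFun hDD i) i
    rw [hD, Matrix.diagonal_mul_diagonal, Matrix.diagonal_apply_eq, Matrix.diagonal_apply_eq] at h1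
    have h2 : l i * l i = l i := by exact_mod_cast h1
    have h3 : l i * (l i - 1) = 0 := by linarith
    rcases mul_eq_zero.1 h3 with h | h
    · left; exact h
    · right; linarith
  classical
  set S := {i : α // l i = 1} with hS
  set v : Matrix α S ℂ := fun a i => U a i.1 with hv
  have hvv : vᴴ * v = 1 := by
    ext i j
    have := congrFun (congrFun hUU i.1) j.1
    rw [Matrix.mul_apply] at this
    rw [Matrix.mul_apply]
    refine (this).trans ?_
    simp only [Matrix.one_apply]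
    congr 1
    exact propext Subtype.ext_iff.symm
  have hvv' : v * vᴴ = E := by
    rw [hspec]
    ext a b
    rw [Matrix.mul_apply, Matrix.mul_apply]
    have e1 : ∀ j, (U * D) a j * Uᴴ j b = if l j = 1 then U a j * star (U b j) else 0 := by
      intro j
      rw [hD, Matrix.mul_diagonal, conjTranspose_apply]
      rcases hev j with h | h
      · rw [h]; simp
      · rw [h]; simp
    rw [Finset.sum_congr rfl (fun j _ => e1 j), ← Finset.sum_filter]
    rw [← Finset.sum_subtype_eq_sum_filter]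
    rw [Finset.subtype_univ]
    rfl
  have h1 : Eqv E (1 : Matrix S S ℂ) := ⟨v, hvv', hvv, by rw [Matrix.mul_assoc, hvv]; simp⟩
  refine ⟨Fintype.card S, h1.trans ?_, ?_⟩
  · refine Eqv.of_submatrix IsPr.one (Fintype.equivFin S).symm ?_
    rw [Matrix.submatrix_one_equiv]
  · rw [← hvv', Matrix.trace_mul_comm, hvv, Matrix.trace_one]

theorem norm_sub_one {σ τ : Type*} [Fintype σ] [Fintype τ] [DecidableEq σ] [DecidableEq τ]
    (h : τ → σ) (hh : Function.Injective h) : ‖((1 : Matrix σ σ ℂ).submatrix h id)ᴴ‖ ≤ 1 := by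
  apply norm_le_of_conjT_mul_le
  rw [conjTranspose_conjTranspose, conjTranspose_submatrix, conjTranspose_one]
  have : (1 : Matrix σ σ ℂ).submatrix h id * (1 : Matrix σ σ ℂ).submatrix id h = 1 := by
    ext i j
    rw [Matrix.mul_apply]
    simp only [Matrix.submatrix_apply, id, Matrix.one_apply]
    rw [Finset.sum_eq_single (h i)]
    · by_cases hij : i = j
      · simp [hij]
      · have : h i ≠ h j := fun h' => hij (hh h')
        simp [hij, this]
    · intro b _ hb; simp [hb.symm]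
    · simp
  rw [this]
  exact norm_one_le

theorem norm_submatrix_le (M : Matrix α β ℂ) (f : γ → α) (g : δ → β)
    (hf : Function.Injective f) (hg : Function.Injective g) : ‖M.submatrix f g‖ ≤ ‖M‖ := by
  have e : M.submatrix f g = (1 : Matrix α α ℂ).submatrix f id * M
      * ((1 : Matrix β β ℂ).submatrix g id)ᴴ := by
    rw [conjTranspose_submatrix, conjTranspose_one]
    ext i j
    simp [Matrix.mul_apply, Matrix.one_apply]
  rw [e]
  have k1 := norm_sub_one f hf
  rw [Matrix.l2_opNorm_conjTranspose] at k1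
  have k2 := norm_sub_one g hg
  calc _ ≤ ‖(1 : Matrix α α ℂ).submatrix f id * M‖ * ‖((1 : Matrix β β ℂ).submatrix g id)ᴴ‖ :=
        Matrix.l2_opNorm_mul _ _
    _ ≤ (‖(1 : Matrix α α ℂ).submatrix f id‖ * ‖M‖) * 1 := by
        gcongr
        exact Matrix.l2_opNorm_mul _ _
    _ ≤ (1 * ‖M‖) * 1 := by gcongr
    _ = ‖M‖ := by ring

theorem norm_fromBlocks_le (A : Matrix α β ℂ) (B : Matrix γ δ ℂ) :
    ‖Matrix.fromBlocks A 0 0 B‖ ≤ ‖A‖ + ‖B‖ := by
  have key1 : ‖(Matrix.fromRows (1 : Matrix α α ℂ) (0 : Matrix γ α ℂ))‖ ≤ 1 := by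
    apply norm_le_of_conjT_mul_le
    rw [conjTranspose_fromRows_eq_fromCols_conjTranspose, Matrix.fromCols_mul_fromRows]
    simpa using norm_one_le
  have key2 : ‖(Matrix.fromRows (1 : Matrix β β ℂ) (0 : Matrix δ β ℂ))ᴴ‖ ≤ 1 := by
    rw [Matrix.l2_opNorm_conjTranspose]
    apply norm_le_of_conjT_mul_le
    rw [conjTranspose_fromRows_eq_fromCols_conjTranspose, Matrix.fromCols_mul_fromRows]
    simpa using norm_one_le
  have key3 : ‖(Matrix.fromRows (0 : Matrix α γ ℂ) (1 : Matrix γ γ ℂ))‖ ≤ 1 := by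
    apply norm_le_of_conjT_mul_le
    rw [conjTranspose_fromRows_eq_fromCols_conjTranspose, Matrix.fromCols_mul_fromRows]
    simpa using norm_one_le
  have key4 : ‖(Matrix.fromRows (0 : Matrix β δ ℂ) (1 : Matrix δ δ ℂ))ᴴ‖ ≤ 1 := by
    rw [Matrix.l2_opNorm_conjTranspose]
    apply norm_le_of_conjT_mul_le
    rw [conjTranspose_fromRows_eq_fromCols_conjTranspose, Matrix.fromCols_mul_fromRows]
    simpa using norm_one_le
  have e : Matrix.fromBlocks A 0 0 B
      = (Matrix.fromRows (1 : Matrix α α ℂ) (0 : Matrix γ α ℂ)) * A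
          * (Matrix.fromRows (1 : Matrix β β ℂ) (0 : Matrix δ β ℂ))ᴴ
        + (Matrix.fromRows (0 : Matrix α γ ℂ) (1 : Matrix γ γ ℂ)) * B
          * (Matrix.fromRows (0 : Matrix β δ ℂ) (1 : Matrix δ δ ℂ))ᴴ := by
    rw [conjTranspose_fromRows_eq_fromCols_conjTranspose,
      conjTranspose_fromRows_eq_fromCols_conjTranspose]
    ext i j
    rcases i with i | i <;> rcases j with j | j <;>
      simp [Matrix.mul_apply, Matrix.one_apply]
  rw [e]
  refine (norm_add_le _ _).trans (add_le_add ?_ ?_)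
  · calc _ ≤ ‖(Matrix.fromRows (1 : Matrix α α ℂ) (0 : Matrix γ α ℂ)) * A‖ * _ :=
          Matrix.l2_opNorm_mul _ _
      _ ≤ (‖(Matrix.fromRows (1 : Matrix α α ℂ) (0 : Matrix γ α ℂ))‖ * ‖A‖) * 1 := by
          gcongr
          exact Matrix.l2_opNorm_mul _ _
      _ ≤ (1 * ‖A‖) * 1 := by gcongr
      _ = ‖A‖ := by ring
  · calc _ ≤ ‖(Matrix.fromRows (0 : Matrix α γ ℂ) (1 : Matrix γ γ ℂ)) * B‖ * _ :=
          Matrix.l2_opNorm_mul _ _
      _ ≤ (‖(Matrix.fromRows (0 : Matrix α γ ℂ) (1 : Matrix γ γ ℂ))‖ * ‖B‖) * 1 := by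
          gcongr
          exact Matrix.l2_opNorm_mul _ _
      _ ≤ (1 * ‖B‖) * 1 := by gcongr
      _ = ‖B‖ := by ring

end MatC

end Pool.Agent.Helper75.KT
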