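import Pool.Agent.Helper75.KT.Maps

/-!
# Polar decomposition
-/

set_option linter.unusedSectionVars false

namespace Pool.Agent.Helper75.KT

open Matrix
open scoped Kronecker ComplexOrder

/-- Polar decomposition in a unital C*-algebra. -/
theorem polar_abstract {M : Type*} [CStarAlgebra M] (p q w : M)
    (hp : p * p = p) (hp' : star p = p) (hq : q * q = q) (hq' : star q = q)
    (hpw : p * w = w) (hwq : w * q = w)
    (h1 : IsUnit (star w * w + (1 - q))) (h2 : IsUnit (w * star w + (1 - p))) :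
    ∃ u : M, u * star u = p ∧ star u * u = q := by
  let _ := CStarAlgebra.spectralOrder M
  have _ := CStarAlgebra.spectralOrderedRing M
  set a := star w * w + (1 - q) with ha
  have hqw : q * star w = star w := by
    have := congrArg star hwq
    rwa [star_mul, hq'] at this
  have hwp : star w * p = star w := by
    have := congrArg star hpw
    rwa [star_mul, hp'] at this
  have hapos : 0 ≤ a := by
    have e1 : (1 - q) = star (1 - q) * (1 - q) := by
      rw [star_sub, star_one, hq', mul_sub, sub_mul, sub_mul, hq]; simp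
    rw [ha, e1]
    exact add_nonneg (star_mul_self_nonneg w) (star_mul_self_nonneg _)
  set r := CFC.sqrt a with hr
  have hrr : r * r = a := CFC.sqrt_mul_sqrt_self a hapos
  have hru : IsUnit r := (CFC.isUnit_sqrt_iff a hapos).2 h1
  obtain ⟨R, hR⟩ := hru
  have hrsa : star r = r := (CFC.sqrt_nonneg a).isSelfAdjoint
  have hqa : q * a = a * q := by
    rw [ha, mul_add, add_mul, ← mul_assoc, hqw, mul_assoc, hwq, mul_sub, sub_mul, hq]; simp
  have hcomm : Commute a q := hqa.symm
  have hcr : Commute r q := by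
    rw [hr, CFC.sqrt]
    exact hcomm.cfcₙ_nnreal _
  set s : M := ((R⁻¹ : Mˣ) : M) with hs
  have hrs : r * s = 1 := by rw [← hR, hs]; simp
  have hsr : s * r = 1 := by rw [← hR, hs]; simp
  have hcs : s * q = q * s := by
    calc s * q = s * q * (r * s) := by rw [hrs, mul_one]
      _ = s * (q * r) * s := by simp only [mul_assoc]
      _ = s * (r * q) * s := by rw [← hcr.eq]
      _ = (s * r) * q * s := by simp only [mul_assoc]
      _ = q * s := by rw [hsr, one_mul]
  have hssa : star s = s := by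
    have h3 : star s * r = 1 := by
      have := congrArg star hrs
      rwa [star_mul, hrsa, star_one] at this
    calc star s = star s * (r * s) := by rw [hrs, mul_one]
      _ = (star s * r) * s := by rw [mul_assoc]
      _ = s := by rw [h3, one_mul]
  have hsas : s * a * s = 1 := by
    rw [← hrr]
    calc s * (r * r) * s = (s * r) * (r * s) := by simp only [mul_assoc]
      _ = 1 := by rw [hsr, hrs, mul_one]
  have hss : s * s * a = 1 := by
    rw [← hrr]
    calc s * s * (r * r) = s * (s * r) * r := by simp only [mul_assoc]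
      _ = 1 := by rw [hsr, mul_one, hsr]
  have hass : a * (s * s) = 1 := by
    rw [← hrr]
    calc r * r * (s * s) = r * (r * s) * s := by simp only [mul_assoc]
      _ = 1 := by rw [hrs, mul_one, hrs]
  have ha1 : a * (1 - q) = 1 - q := by
    have e1 : star w * w * (1 - q) = 0 := by rw [mul_assoc, mul_sub, hwq]; simp
    have e2 : (1 - q) * (1 - q) = 1 - q := by rw [mul_sub, mul_one, sub_mul, hq]; simp
    rw [ha, add_mul, e1, e2, zero_add]
  have hss1 : s * s * (1 - q) = 1 - q := by
    calc s * s * (1 - q) = s * s * (a * (1 - q)) := by rw [ha1]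
      _ = (s * s * a) * (1 - q) := by simp only [mul_assoc]
      _ = 1 - q := by rw [hss, one_mul]
  have hww : star w * w = a - (1 - q) := by rw [ha]; simp
  refine ⟨w * s, ?_, ?_⟩
  · rw [star_mul, hssa]
    have e1 : w * s * (s * star w) = w * (s * s) * star w := by simp only [mul_assoc]
    rw [e1]
    set p' := w * (s * s) * star w with hp'def
    have hp'w : p' * w = w := by
      calc p' * w = w * (s * s) * (star w * w) := by rw [hp'def]; simp only [mul_assoc]
        _ = w * (s * s * a) - w * (s * s * (1 - q)) := by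
            rw [hww, mul_sub]; simp only [mul_assoc]
        _ = w := by rw [hss, hss1, mul_sub, hwq]; simp
    have h3 : (p - p') * (w * star w + (1 - p)) = 0 := by
      rw [mul_add, ← mul_assoc, sub_mul, hpw, hp'w, sub_self, zero_mul, zero_add, sub_mul,
        mul_sub, mul_sub, hp]
      have : p' * p = p' := by
        rw [hp'def, mul_assoc, hwp]
      rw [this]; simp
    obtain ⟨B, hB⟩ := h2
    rw [← hB] at h3
    have h4 : p - p' = 0 := by
      calc p - p' = (p - p') * (B : M) * ((B⁻¹ : Mˣ) : M) := by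
            rw [mul_assoc, Units.mul_inv, mul_one]
        _ = 0 := by rw [h3, zero_mul]
    exact (sub_eq_zero.1 h4).symm
  · rw [star_mul, hssa]
    calc s * star w * (w * s) = s * (star w * w) * s := by simp only [mul_assoc]
      _ = s * a * s - s * (1 - q) * s := by rw [hww, mul_sub, sub_mul]
      _ = 1 - s * s * (1 - q) := by
          rw [hsas]
          congr 1
          rw [mul_assoc, sub_mul, one_mul, ← hcs, mul_sub, mul_sub, mul_one]
          simp only [mul_assoc]
      _ = q := by rw [hss1]; simp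

section MatrixPolar

theorem fromBlocks_sub' {R : Type*} [Ring R] {l m n o : Type*} (A A' : Matrix n l R)
    (B B' : Matrix n m R) (C C' : Matrix o l R) (D D' : Matrix o m R) :
    Matrix.fromBlocks A B C D - Matrix.fromBlocks A' B' C' D'
      = Matrix.fromBlocks (A - A') (B - B') (C - C') (D - D') := by
  ext i j
  rcases i with i | i <;> rcases j with j | j <;> rfl

theorem isUnit_fromBlocks {R : Type*} [Ring R] {ι κ : Type*} [Fintype ι] [Fintype κ]
    [DecidableEq ι] [DecidableEq κ] {a : Matrix ι ι R} {b : Matrix κ κ R} (ha : IsUnit a)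
    (hb : IsUnit b) : IsUnit (Matrix.fromBlocks a 0 0 b) := by
  obtain ⟨U, rfl⟩ := ha
  obtain ⟨V, rfl⟩ := hb
  refine ⟨⟨Matrix.fromBlocks (U : Matrix ι ι R) 0 0 (V : Matrix κ κ R),
    Matrix.fromBlocks ((U⁻¹ : (Matrix ι ι R)ˣ) : Matrix ι ι R) 0 0
      ((V⁻¹ : (Matrix κ κ R)ˣ) : Matrix κ κ R), ?_, ?_⟩, rfl⟩
  · rw [Matrix.fromBlocks_multiply]; simp
  · rw [Matrix.fromBlocks_multiply]; simp

variable {A : Type*} [CStarAlgebra A]
variable {ι κ : Type*} [Fintype ι] [Fintype κ] [DecidableEq ι] [DecidableEq κ]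

/-- Polar decomposition for square matrices over a C*-algebra. -/
theorem polar_square (p q w : Matrix ι ι A) (hp : IsPr p) (hq : IsPr q)
    (hpw : p * w = w) (hwq : w * q = w)
    (h1 : IsUnit (wᴴ * w + (1 - q))) (h2 : IsUnit (w * wᴴ + (1 - p))) : Eqv p q := by
  let _ := CStarAlgebra.spectralOrder A
  have _ := CStarAlgebra.spectralOrderedRing A
  have key := polar_abstract (M := CStarMatrix ι ι A) (CStarMatrix.ofMatrix p)
    (CStarMatrix.ofMatrix q) (CStarMatrix.ofMatrix w) hp.1 hp.2 hq.1 hq.2 hpw hwq h1 h2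
  obtain ⟨u, hu1, hu2⟩ := key
  have h3 : u * star u * u = u := by
    set x := u * star u * u - u with hx
    have hp1 : (u * star u) * (u * star u) = u * star u := by rw [hu1]; exact hp.1
    have hz : x * star x = 0 := by
      rw [hx, star_sub, star_mul, star_mul, star_star, sub_mul, mul_sub, mul_sub]
      have e1 : u * star u * u * (star u * (u * star u)) = u * star u := by
        calc u * star u * u * (star u * (u * star u))
            = ((u * star u) * (u * star u)) * (u * star u) := by simp only [mul_assoc]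
          _ = u * star u := by rw [hp1, hp1]
      have e2 : u * star u * u * star u = u * star u := by rw [mul_assoc, hp1]
      have e3 : u * (star u * (u * star u)) = u * star u := by
        rw [← mul_assoc, hp1]
      rw [e1, e2, e3]; simp
    have : x = 0 := by
      have := CStarRing.mul_star_self_eq_zero_iff x
      exact this.1 hz
    exact sub_eq_zero.1 this
  exact ⟨CStarMatrix.ofMatrix.symm u, hu1, hu2, h3⟩

/-- Polar decomposition for rectangular matrices over a C*-algebra. -/
theorem polar_rect (p : Matrix ι ι A) (q : Matrix κ κ A) (w : Matrix ι κ A)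
    (hp : IsPr p) (hq : IsPr q) (hpw : p * w = w) (hwq : w * q = w)
    (h1 : IsUnit (wᴴ * w + (1 - q))) (h2 : IsUnit (w * wᴴ + (1 - p))) : Eqv p q := by
  have key : Eqv (Matrix.fromBlocks p 0 0 (0 : Matrix κ κ A))
      (Matrix.fromBlocks (0 : Matrix ι ι A) 0 0 q) := by
    refine polar_square _ _ (Matrix.fromBlocks 0 w 0 0) (hp.fromBlocks IsPr.zero)
      (IsPr.zero.fromBlocks hq) ?_ ?_ ?_ ?_
    · rw [Matrix.fromBlocks_multiply]; simp [hpw]
    · rw [Matrix.fromBlocks_multiply]; simp [hwq]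
    · rw [Matrix.fromBlocks_conjTranspose, Matrix.fromBlocks_multiply]
      rw [← Matrix.fromBlocks_one, fromBlocks_sub', Matrix.fromBlocks_add]
      simp only [Matrix.conjTranspose_zero, Matrix.mul_zero, Matrix.zero_mul, add_zero, zero_add,
        sub_zero, sub_self]
      exact isUnit_fromBlocks isUnit_one h1
    · rw [Matrix.fromBlocks_conjTranspose, Matrix.fromBlocks_multiply]
      rw [← Matrix.fromBlocks_one, fromBlocks_sub', Matrix.fromBlocks_add]
      simp only [Matrix.conjTranspose_zero, Matrix.mul_zero, Matrix.zero_mul, add_zero, zero_add,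
        sub_zero, sub_self]
      exact isUnit_fromBlocks h2 isUnit_one
  have h3 : Eqv (Matrix.fromBlocks p 0 0 (0 : Matrix κ κ A)) p :=
    (Eqv.fromBlocks_comm hp IsPr.zero).trans (Eqv.fromBlocks_zero hp)
  exact (h3.symm.trans key).trans (Eqv.fromBlocks_zero hq)

end MatrixPolar

section Pointwise

variable {X : Type*} [TopologicalSpace X] [CompactSpace X]
variable {ι κ : Type*} [Fintype ι] [Fintype κ] [DecidableEq ι] [DecidableEq κ]

/-- evaluation of a function at a point, as a ring homomorphism -/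
noncomputable def evR (x : X) : C(X, ℂ) →+* ℂ where
  toFun f := f x
  map_one' := rfl
  map_mul' _ _ := rfl
  map_zero' := rfl
  map_add' _ _ := rfl

/-- evaluation of a matrix of functions at a point -/
noncomputable def evM (x : X) (M : Matrix ι κ C(X, ℂ)) : Matrix ι κ ℂ := fun i j => M i j x

theorem evM_apply (x : X) (M : Matrix ι κ C(X, ℂ)) (i : ι) (j : κ) : evM x M i j = M i j x := rfl

theorem evM_mul {μ : Type*} [Fintype μ] (x : X) (M : Matrix ι κ C(X, ℂ))
    (N : Matrix κ μ C(X, ℂ)) : evM x (M * N) = evM x M * evM x N := by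
  ext i j
  simp [evM, Matrix.mul_apply]

theorem evM_conjT (x : X) (M : Matrix ι κ C(X, ℂ)) : evM x Mᴴ = (evM x M)ᴴ := by
  ext i j
  simp [evM, conjTranspose_apply]

theorem evM_add (x : X) (M N : Matrix ι κ C(X, ℂ)) : evM x (M + N) = evM x M + evM x N := rfl
theorem evM_sub (x : X) (M N : Matrix ι κ C(X, ℂ)) : evM x (M - N) = evM x M - evM x N := rfl
theorem evM_zero (x : X) : evM x (0 : Matrix ι κ C(X, ℂ)) = 0 := rfl
theorem evM_one (x : X) : evM x (1 : Matrix ι ι C(X, ℂ)) = 1 := by
  ext i j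
  simp only [evM, Matrix.one_apply]
  split_ifs <;> rfl

theorem evM_ext {M N : Matrix ι κ C(X, ℂ)} (h : ∀ x, evM x M = evM x N) : M = N := by
  ext i j x
  exact congrFun (congrFun (h x) i) j

theorem evM_kron {μ ν : Type*} (x : X) (M : Matrix ι κ C(X, ℂ))
    (N : Matrix μ ν C(X, ℂ)) : evM x (M ⊗ₖ N) = evM x M ⊗ₖ evM x N := by
  ext ⟨i, j⟩ ⟨k, l⟩
  simp [evM]

theorem evM_fromBlocks {μ ν : Type*} (x : X) (P : Matrix ι κ C(X, ℂ))
    (Q : Matrix ι ν C(X, ℂ)) (S : Matrix μ κ C(X, ℂ)) (T : Matrix μ ν C(X, ℂ)) :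
    evM x (Matrix.fromBlocks P Q S T)
      = Matrix.fromBlocks (evM x P) (evM x Q) (evM x S) (evM x T) := by
  ext i j
  rcases i with i | i <;> rcases j with j | j <;> rfl

theorem evM_submatrix {μ ν : Type*} (x : X) (P : Matrix ι κ C(X, ℂ)) (f : μ → ι) (g : ν → κ) :
    evM x (P.submatrix f g) = (evM x P).submatrix f g := rfl

theorem IsPr.evM {p : Matrix ι ι C(X, ℂ)} (h : IsPr p) (x : X) : IsPr (evM x p) := by
  refine ⟨?_, ?_⟩
  · rw [← evM_mul, h.1]
  · rw [← evM_conjT, h.2]

theorem isPr_of_evM {p : Matrix ι ι C(X, ℂ)} (h : ∀ x, IsPr (evM x p)) : IsPr p := by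
  refine ⟨?_, ?_⟩
  · apply evM_ext; intro x; rw [evM_mul, (h x).1]
  · apply evM_ext; intro x; rw [evM_conjT, (h x).2]

theorem isUnit_of_evM {M : Matrix ι ι C(X, ℂ)} (h : ∀ x, IsUnit (evM x M)) : IsUnit M := by
  rw [Matrix.isUnit_iff_isUnit_det]
  rw [ContinuousMap.isUnit_iff_forall_ne_zero]
  intro x
  have h1 : M.det x = (evM x M).det := by
    have : evR x M.det = ((evR x).mapMatrix M).det := RingHom.map_det (evR x) M
    exact this
  rw [h1]
  have := (Matrix.isUnit_iff_isUnit_det _).1 (h x)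
  exact this.ne_zero

theorem isUnit_of_ker_trivial (M : Matrix ι ι ℂ) (h : ∀ v, M *ᵥ v = 0 → v = 0) : IsUnit M := by
  rw [Matrix.isUnit_iff_isUnit_det, isUnit_iff_ne_zero]
  intro h0
  obtain ⟨v, hv, hv0⟩ := Matrix.exists_mulVec_eq_zero_iff.2 h0
  exact hv (h v hv0)

theorem star_dot_conjT {τ : Type*} [Fintype τ] (m : Matrix τ κ ℂ) (v : κ → ℂ) :
    star v ⬝ᵥ ((mᴴ * m) *ᵥ v) = star (m *ᵥ v) ⬝ᵥ (m *ᵥ v) := by
  rw [← Matrix.mulVec_mulVec, Matrix.dotProduct_mulVec, Matrix.star_mulVec]

/-- `⟨v, Mᴴ M v⟩ = |M v|²`: if a sum of two such vanishes, so do both. -/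
theorem ker_of_add {μ : Type*} [Fintype μ] (w : Matrix μ κ ℂ) (q : Matrix κ κ ℂ) (hq : IsPr q)
    (v : κ → ℂ) (h : (wᴴ * w + (1 - q)) *ᵥ v = 0) : w *ᵥ v = 0 ∧ q *ᵥ v = v := by
  have e0 : (1 - q) = (1 - q)ᴴ * (1 - q) := by
    rw [hq.one_sub.2, hq.one_sub.1]
  have h1 : star v ⬝ᵥ ((wᴴ * w + (1 - q)) *ᵥ v) = 0 := by rw [h]; simp
  rw [Matrix.add_mulVec, dotProduct_add, e0, star_dot_conjT, star_dot_conjT] at h1
  have n1 : 0 ≤ star (w *ᵥ v) ⬝ᵥ (w *ᵥ v) := dotProduct_star_self_nonneg _
  have n2 : 0 ≤ star ((1 - q) *ᵥ v) ⬝ᵥ ((1 - q) *ᵥ v) := dotProduct_star_self_nonneg _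
  obtain ⟨h2, h3⟩ := (add_eq_zero_iff_of_nonneg n1 n2).1 h1
  rw [dotProduct_star_self_eq_zero] at h2 h3
  refine ⟨h2, ?_⟩
  rw [Matrix.sub_mulVec, Matrix.one_mulVec, sub_eq_zero] at h3
  exact h3.symm

/-- Pointwise criterion for equivalence of projections over `C(X)`. -/
theorem eqv_of_pointwise (p : Matrix ι ι C(X, ℂ)) (q : Matrix κ κ C(X, ℂ))
    (w : Matrix ι κ C(X, ℂ)) (hp : IsPr p) (hq : IsPr q) (hpw : p * w = w) (hwq : w * q = w)
    (h1 : ∀ x v, evM x q *ᵥ v = v → evM x w *ᵥ v = 0 → v = 0)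
    (h2 : ∀ x v, evM x p *ᵥ v = v → (evM x w)ᴴ *ᵥ v = 0 → v = 0) : Eqv p q := by
  refine polar_rect p q w hp hq hpw hwq ?_ ?_
  · apply isUnit_of_evM
    intro x
    apply isUnit_of_ker_trivial
    intro v hv
    rw [evM_add, evM_mul, evM_conjT, evM_sub, evM_one] at hv
    obtain ⟨h3, h4⟩ := ker_of_add (evM x w) (evM x q) (hq.evM x) v hv
    exact h1 x v h4 h3
  · apply isUnit_of_evM
    intro x
    apply isUnit_of_ker_trivial
    intro v hv
    rw [evM_add, evM_mul, evM_conjT, evM_sub, evM_one] at hv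
    have hv' : (((evM x w)ᴴ)ᴴ * (evM x w)ᴴ + (1 - evM x p)) *ᵥ v = 0 := by
      rw [conjTranspose_conjTranspose]; exact hv
    obtain ⟨h3, h4⟩ := ker_of_add ((evM x w)ᴴ) (evM x p) (hp.evM x) v hv'
    exact h2 x v h4 h3

end Pointwise

end Pool.Agent.Helper75.KT
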