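import Pool.Agent.Helper75.KT.KSum

/-!
# Matrices over the finite stages
-/

set_option linter.unusedSectionVars false

namespace Pool.Agent.Helper75.KT

open Matrix Filter Topology CPd
open scoped Kronecker ComplexOrder Matrix.Norms.L2Operator

section

variable (𝒟 : AlgData) (i : ℕ)
variable {α β γ δ : Type} [Fintype α] [Fintype β] [Fintype γ] [Fintype δ] [DecidableEq α]
  [DecidableEq β] [DecidableEq γ] [DecidableEq δ]

/-- `Ψ` applied entrywise -/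
noncomputable def PsiM (M : Matrix α β (𝒟.D i)) : Matrix (α × KK i) (β × KK i) C(XX, ℂ) :=
  fun a b => 𝒟.Ψ i (M a.1 b.1) a.2 b.2

theorem PsiM_apply (M : Matrix α β (𝒟.D i)) (a : α × KK i) (b : β × KK i) :
    PsiM 𝒟 i M a b = 𝒟.Ψ i (M a.1 b.1) a.2 b.2 := rfl

theorem PsiM_mul (M : Matrix α β (𝒟.D i)) (N : Matrix β γ (𝒟.D i)) :
    PsiM 𝒟 i (M * N) = PsiM 𝒟 i M * PsiM 𝒟 i N := by
  ext1 ⟨a, k⟩ ⟨c, l⟩
  rw [Matrix.mul_apply, Fintype.sum_prod_type, PsiM_apply, Matrix.mul_apply, map_sum,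
    Matrix.sum_apply]
  apply Finset.sum_congr rfl
  intro b _
  rw [map_mul, Matrix.mul_apply]
  rfl

theorem PsiM_add (M N : Matrix α β (𝒟.D i)) :
    PsiM 𝒟 i (M + N) = PsiM 𝒟 i M + PsiM 𝒟 i N := by
  ext1 ⟨a, k⟩ ⟨c, l⟩
  simp only [PsiM_apply, Matrix.add_apply, map_add]

theorem PsiM_sub (M N : Matrix α β (𝒟.D i)) :
    PsiM 𝒟 i (M - N) = PsiM 𝒟 i M - PsiM 𝒟 i N := by
  ext1 ⟨a, k⟩ ⟨c, l⟩
  simp only [PsiM_apply, Matrix.sub_apply, map_sub]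

theorem PsiM_conjT (M : Matrix α β (𝒟.D i)) : PsiM 𝒟 i Mᴴ = (PsiM 𝒟 i M)ᴴ := by
  ext1 ⟨a, k⟩ ⟨c, l⟩
  simp only [PsiM_apply, conjTranspose_apply, map_star, Matrix.star_apply]

theorem PsiM_pr {M : Matrix α α (𝒟.D i)} (h : IsPr M) : IsPr (PsiM 𝒟 i M) :=
  ⟨by rw [← PsiM_mul, h.1], by rw [← PsiM_conjT, h.2]⟩

theorem norm_PsiM_le (M : Matrix α β (𝒟.D i)) (x : XX) :
    ‖evM x (PsiM 𝒟 i M)‖ ≤ ∑ a, ∑ b, ‖(M a b : 𝒟.A)‖ := by
  refine (norm_blk_le _).trans ?_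
  gcongr with a _ b _
  exact 𝒟.Ψ_norm i (M a b) x

/-- the unit of the corner -/
noncomputable def qq : Matrix (KK i) (KK i) C(XX, ℂ) := 𝒟.Ψ i 1

theorem qq_pr : IsPr (qq 𝒟 i) := by
  unfold qq
  refine ⟨?_, ?_⟩
  · rw [← map_mul, mul_one]
  · have := map_star (𝒟.Ψ i) 1
    rw [star_one] at this
    exact this.symm

theorem PsiM_one : PsiM 𝒟 i (1 : Matrix α α (𝒟.D i)) = (1 : Matrix α α C(XX, ℂ)) ⊗ₖ qq 𝒟 i := by
  ext1 ⟨a, k⟩ ⟨c, l⟩
  rw [PsiM_apply, kroneckerMap_apply]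
  by_cases h : a = c
  · subst h
    rw [Matrix.one_apply_eq, Matrix.one_apply_eq, one_mul]; rfl
  · rw [Matrix.one_apply_ne h, Matrix.one_apply_ne h, zero_mul, map_zero]; rfl

theorem kcl_PsiM_one : kcl (PsiM 𝒟 i (1 : Matrix α α (𝒟.D i)))
    = (Fintype.card α : K0 C(XX, ℂ)) * kcl (qq 𝒟 i) := by
  rw [PsiM_one, kcl_kron IsPr.one (qq_pr 𝒟 i), kcl_one]

theorem kcl_PsiM_fromBlocks {M : Matrix α α (𝒟.D i)} {N : Matrix β β (𝒟.D i)} (hM : IsPr M)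
    (hN : IsPr N) : kcl (PsiM 𝒟 i (Matrix.fromBlocks M 0 0 N))
      = kcl (PsiM 𝒟 i M) + kcl (PsiM 𝒟 i N) := by
  have h : PsiM 𝒟 i (Matrix.fromBlocks M 0 0 N)
      = (Matrix.fromBlocks (PsiM 𝒟 i M) 0 0 (PsiM 𝒟 i N)).submatrix
        (Equiv.sumProdDistrib α β (KK i)) (Equiv.sumProdDistrib α β (KK i)) := by
    ext1 ⟨a, k⟩ ⟨b, l⟩
    rcases a with a | a <;> rcases b with b | b <;> simp [PsiM_apply]
  rw [h, kcl_submatrix ((PsiM_pr 𝒟 i hM).fromBlocks (PsiM_pr 𝒟 i hN)),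
    kcl_fromBlocks (PsiM_pr 𝒟 i hM) (PsiM_pr 𝒟 i hN)]

/-- the class of the line bundle attached to the number `k` -/
noncomputable def ek (k : ℕ) : K0 C(XX, ℂ) := kcl (ee (Nat.size k))

theorem ek_zero : ek 0 = 1 := by
  unfold ek
  rw [kcl_ee, Nat.size_zero]
  exact Fin.prod_univ_zero _

theorem sum_split (i : ℕ) {M : Type*} [AddCommMonoid M] (f : ℕ → M) :
    ∑ k : Fin (2 ^ i), f k = f 0 + ∑ k ∈ (Finset.range (2 ^ i)).erase 0, f k := by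
  rw [Fin.sum_univ_eq_sum_range f (2 ^ i), Finset.add_sum_erase]
  simp

theorem kcl_qq : kcl (qq 𝒟 i) = 1 + ∑ k ∈ (Finset.range (2 ^ i)).erase 0, ek k := by
  unfold qq
  rw [𝒟.Ψ_one, kcl_blockDiagonal' _ (fun k => ee_pr _)]
  have := sum_split i ek
  rw [ek_zero] at this
  exact this

/-- the tautological line bundle, in the finite stage -/
noncomputable def LD : Matrix (Fin 2) (Fin 2) (𝒟.D i) := fun a b =>
  ⟨𝒟.emb (LL a b), 𝒟.emb_mem _ i⟩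

theorem LD_pr : IsPr (LD 𝒟 i) := by
  have h := LL_pr.map 𝒟.emb
  refine ⟨?_, ?_⟩
  · ext1 a b
    apply Subtype.ext
    have := congrFun (congrFun h.1 a) b
    rw [Matrix.mul_apply] at this
    rw [Matrix.mul_apply]
    rw [AddSubmonoidClass.coe_finsetSum]
    exact this
  · ext1 a b
    apply Subtype.ext
    exact congrFun (congrFun h.2 a) b

theorem kcl_PsiM_LD : kcl (PsiM 𝒟 i (LD 𝒟 i))
    = kcl LL + ∑ k ∈ (Finset.range (2 ^ i)).erase 0, ek k := by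
  classical
  let T : ∀ k : Fin (2 ^ i), Matrix (Fin 2) (Fin 2) C(XX, ℂ) := fun k =>
    if (k : ℕ) = 0 then LL else cM XX (evM (𝒟.P k) LL)
  have hT : ∀ k, IsPr (T k) := by
    intro k
    by_cases h : (k : ℕ) = 0
    · simp only [T, h, if_true]; exact LL_pr
    · simp only [T, h, if_false]; exact cM_pr (LL_pr.evM _)
  let e : (Fin 2 × KK i) ≃ Σ k : Fin (2 ^ i), Fin 2 × RR (Nat.size k) :=
    { toFun := fun a => ⟨a.2.1, a.1, a.2.2⟩
      invFun := fun b => (b.2.1, ⟨b.1, b.2.2⟩)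
      left_inv := fun a => rfl
      right_inv := fun b => rfl }
  have h : PsiM 𝒟 i (LD 𝒟 i) = (Matrix.blockDiagonal' fun k : Fin (2 ^ i) =>
      T k ⊗ₖ ee (Nat.size k)).submatrix e e := by
    ext1 ⟨a, k, r⟩ ⟨b, l, s⟩
    rw [PsiM_apply, submatrix_apply]
    change 𝒟.Ψ i ⟨𝒟.emb (LL a b), _⟩ ⟨k, r⟩ ⟨l, s⟩ = _
    rw [𝒟.Ψ_emb]
    by_cases hkl : k = l
    · subst hkl
      rw [Matrix.blockDiagonal'_apply_eq]
      change _ = Matrix.blockDiagonal' (fun k : Fin (2 ^ i) => T k ⊗ₖ ee (Nat.size k))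
        (⟨k, (a, r)⟩ : Σ k : Fin (2 ^ i), Fin 2 × RR (Nat.size k))
        (⟨k, (b, s)⟩ : Σ k : Fin (2 ^ i), Fin 2 × RR (Nat.size k))
      rw [Matrix.blockDiagonal'_apply_eq, kroneckerMap_apply]
      by_cases h0 : (k : ℕ) = 0
      · simp only [T, h0, if_true]
        rfl
      · simp only [T, h0, if_false]
        ext x
        rfl
    · rw [Matrix.blockDiagonal'_apply_ne _ _ _ hkl]
      change _ = Matrix.blockDiagonal' (fun k : Fin (2 ^ i) => T k ⊗ₖ ee (Nat.size k))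
        (⟨k, (a, r)⟩ : Σ k : Fin (2 ^ i), Fin 2 × RR (Nat.size k))
        (⟨l, (b, s)⟩ : Σ k : Fin (2 ^ i), Fin 2 × RR (Nat.size k))
      rw [Matrix.blockDiagonal'_apply_ne _ _ _ hkl]
  rw [h, kcl_submatrix (blockDiagonal'_pr _ (fun k => (hT k).kron (ee_pr _))),
    kcl_blockDiagonal' _ (fun k => (hT k).kron (ee_pr _))]
  have h2 : ∀ k : Fin (2 ^ i), kcl (T k ⊗ₖ ee (Nat.size k))
      = (fun m : ℕ => (if m = 0 then kcl LL else 1) * ek m) k := by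
    intro k
    rw [kcl_kron (hT k) (ee_pr _)]
    by_cases h0 : (k : ℕ) = 0
    · simp only [T, h0, if_true, ek]
    · simp only [T, h0, if_false, ek]
      rw [kcl_cM_trace XX _ (LL_pr.evM _) 1 ?_]
      · simp
      · have := CPd.tr ((𝒟.P k) none)
        rw [Nat.cast_one]
        exact this
  rw [Finset.sum_congr rfl (fun k _ => h2 k), sum_split i (fun m : ℕ =>
    (if m = 0 then kcl LL else 1) * ek m)]
  congr 1
  · simp [ek_zero]
  · apply Finset.sum_congr rfl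
    intro k hk
    rw [if_neg (Finset.ne_of_mem_erase hk), one_mul]

end

end Pool.Agent.Helper75.KT
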