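import Pool.Agent.Helper75.KT.CP

/-!
# The rank homomorphism
-/

set_option linter.unusedSectionVars false

namespace Pool.Agent.Helper75.KT

open Matrix
open scoped Kronecker

section

variable {X Y : Type*} [TopologicalSpace X] [TopologicalSpace Y]
variable {ι κ : Type*} [Fintype ι] [Fintype κ] [DecidableEq ι] [DecidableEq κ]

theorem trace_eqv {p : Matrix ι ι C(X, ℂ)} {q : Matrix κ κ C(X, ℂ)} (h : Eqv p q) :
    p.trace = q.trace := by
  obtain ⟨v, h1, h2, _⟩ := h
  rw [← h1, ← h2, Matrix.trace_mul_comm]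

/-- the trace of a class, as a function -/
noncomputable def trFun (X : Type*) [TopologicalSpace X] : V C(X, ℂ) → C(X, ℂ) :=
  Quotient.lift (fun p => p.mat.trace) (fun _ _ h => trace_eqv h)

theorem trFun_mk (p : Matrix ι ι C(X, ℂ)) (hp : IsPr p) : trFun X (V.mk p hp) = p.trace :=
  (trace_eqv (PMat.eqv_of p hp)).symm

/-- the trace of a class, as a semiring homomorphism -/
noncomputable def trV (X : Type*) [TopologicalSpace X] : V C(X, ℂ) →+* C(X, ℂ) where
  toFun := trFun X
  map_one' := by rw [V.one_def, trFun_mk]; simp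
  map_zero' := by rw [V.zero_def, trFun_mk]; simp
  map_mul' := by
    intro a b
    obtain ⟨_, p, hp, rfl⟩ := V.exists_mk a
    obtain ⟨_, q, hq, rfl⟩ := V.exists_mk b
    rw [V.mk_mul_mk, trFun_mk, trFun_mk, trFun_mk, Matrix.trace_kronecker]
  map_add' := by
    intro a b
    obtain ⟨_, p, hp, rfl⟩ := V.exists_mk a
    obtain ⟨_, q, hq, rfl⟩ := V.exists_mk b
    rw [V.mk_add_mk, trFun_mk, trFun_mk, trFun_mk]
    simp only [Matrix.trace, Fintype.sum_sum_type]
    rfl

theorem trV_mk (p : Matrix ι ι C(X, ℂ)) (hp : IsPr p) : trV X (V.mk p hp) = p.trace :=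
  trFun_mk p hp

/-- the trace of a K-theory class, as a function -/
noncomputable def trK (X : Type*) [TopologicalSpace X] : K0 C(X, ℂ) →+* C(X, ℂ) :=
  GG.liftRing (trV X)

theorem trK_kcl (p : Matrix ι ι C(X, ℂ)) (hp : IsPr p) : trK X (kcl p) = p.trace := by
  rw [kcl_def hp, trK, GG.liftRing_of, trV_mk]

/-- evaluation at a point as a ring homomorphism to `ℂ` -/
noncomputable def rk (x : X) : K0 C(X, ℂ) →+* ℂ where
  toFun a := trK X a x
  map_one' := by rw [map_one]; rfl
  map_zero' := by rw [map_zero]; rfl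
  map_mul' a b := by rw [map_mul]; rfl
  map_add' a b := by rw [map_add]; rfl

theorem rk_kcl (x : X) (p : Matrix ι ι C(X, ℂ)) (hp : IsPr p) :
    rk x (kcl p) = (evM x p).trace := by
  change trK X (kcl p) x = _
  rw [trK_kcl p hp]
  simp only [Matrix.trace, Matrix.diag, ContinuousMap.sum_apply]
  rfl

theorem rk_pb (f : C(X, Y)) (x : X) (a : K0 C(Y, ℂ)) : rk x (pb f a) = rk (f x) a := by
  obtain ⟨_, p, q, hp, hq, rfl⟩ := exists_kcl_sub a
  rw [map_sub, map_sub, map_sub, pb_kcl f hp, pb_kcl f hq, rk_kcl _ _ (hp.map _),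
    rk_kcl _ _ (hq.map _), rk_kcl _ _ hp, rk_kcl _ _ hq, evM_pb, evM_pb]

theorem intCast_eq_zero_iff [Nonempty X] (m : ℤ) : (m : K0 C(X, ℂ)) = 0 ↔ m = 0 := by
  constructor
  · intro h
    have x := Classical.arbitrary X
    have h1 := congrArg (rk x) h
    rw [map_intCast, map_zero] at h1
    exact_mod_cast h1
  · rintro rfl; simp

/-- A constant projection has the class of its rank. -/
theorem kcl_cM_trace (X : Type*) [TopologicalSpace X] (M : Matrix ι ι ℂ) (hM : IsPr M) (r : ℕ)
    (hr : M.trace = r) : kcl (cM X M) = (r : K0 C(X, ℂ)) := by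
  obtain ⟨s, hs, hs'⟩ := pr_eqv_one M hM
  have : s = r := by
    rw [hr] at hs'
    exact_mod_cast hs'.symm
  subst this
  exact kcl_cM hs

/-- Over a point, a class is determined by its rank. -/
theorem eq_of_rk_subsingleton [Subsingleton X] [CompactSpace X] (x : X) (a : K0 C(X, ℂ))
    (h : rk x a = 0) : a = 0 := by
  obtain ⟨_, p, q, hp, hq, rfl⟩ := exists_kcl_sub a
  have e : ∀ {τ : Type} [Fintype τ] [DecidableEq τ] (s : Matrix τ τ C(X, ℂ)),
      s = cM X (evM x s) := by
    intro τ _ _ s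
    ext i j y
    rw [Subsingleton.elim y x]
    rfl
  obtain ⟨r, hr, hr'⟩ := pr_eqv_one (evM x p) (hp.evM x)
  obtain ⟨s, hs, hs'⟩ := pr_eqv_one (evM x q) (hq.evM x)
  rw [map_sub, rk_kcl x p hp, rk_kcl x q hq, hr', hs'] at h
  have hrs : r = s := by
    have := sub_eq_zero.1 h
    exact_mod_cast this
  rw [e p, e q, kcl_cM hr, kcl_cM hs, hrs, sub_self]

end

end Pool.Agent.Helper75.KT
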