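import Pool.Agent.Helper75.KT.Rank

/-!
# The 4-sphere, gamma matrices and the Bott projection
-/

set_option linter.unusedSectionVars false
set_option linter.unusedSimpArgs false

namespace Pool.Agent.Helper75.KT

open Matrix Complex

/-- The 4-sphere. -/
abbrev S4 : Type := Metric.sphere (0 : EuclideanSpace ℝ (Fin 5)) 1

instance : CompactSpace S4 := Metric.sphere.compactSpace _ _

/-- gamma matrices -/
noncomputable def gam : Fin 5 → Matrix (Fin 4) (Fin 4) ℂ :=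
  ![!![1, 0, 0, 0; 0, 1, 0, 0; 0, 0, -1, 0; 0, 0, 0, -1],
    !![0, 0, 1, 0; 0, 0, 0, 1; 1, 0, 0, 0; 0, 1, 0, 0],
    !![0, 0, -I, 0; 0, 0, 0, I; I, 0, 0, 0; 0, -I, 0, 0],
    !![0, 0, 0, 1; 0, 0, -1, 0; 0, -1, 0, 0; 1, 0, 0, 0],
    !![0, 0, 0, -I; 0, 0, -I, 0; 0, I, 0, 0; I, 0, 0, 0]]

theorem gam_conjT (a : Fin 5) : (gam a)ᴴ = gam a := by
  fin_cases a <;> ext i j <;> fin_cases i <;> fin_cases j <;>
    simp [gam, conjTranspose_apply]

/-- the gamma matrices over the Gaussian integers -/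
def gamZ : Fin 5 → Matrix (Fin 4) (Fin 4) GaussianInt :=
  ![!![1, 0, 0, 0; 0, 1, 0, 0; 0, 0, -1, 0; 0, 0, 0, -1],
    !![0, 0, 1, 0; 0, 0, 0, 1; 1, 0, 0, 0; 0, 1, 0, 0],
    !![0, 0, -⟨0, 1⟩, 0; 0, 0, 0, ⟨0, 1⟩; ⟨0, 1⟩, 0, 0, 0; 0, -⟨0, 1⟩, 0, 0],
    !![0, 0, 0, 1; 0, 0, -1, 0; 0, -1, 0, 0; 1, 0, 0, 0],
    !![0, 0, 0, -⟨0, 1⟩; 0, 0, -⟨0, 1⟩, 0; 0, ⟨0, 1⟩, 0, 0; ⟨0, 1⟩, 0, 0, 0]]

theorem gam_eq (a : Fin 5) : gam a = (gamZ a).map GaussianInt.toComplex := by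
  fin_cases a <;> ext i j <;> fin_cases i <;> fin_cases j <;>
    simp [gam, gamZ, GaussianInt.toComplex_def]

theorem gamZ_anti : ∀ a b : Fin 5,
    gamZ a * gamZ b + gamZ b * gamZ a = if a = b then 1 + 1 else 0 := by
  decide +kernel

theorem gam_anti (a b : Fin 5) :
    gam a * gam b + gam b * gam a = if a = b then (2 : ℂ) • (1 : Matrix (Fin 4) (Fin 4) ℂ) else 0 := by
  rw [gam_eq, gam_eq, ← Matrix.map_mul, ← Matrix.map_mul, ← Matrix.map_add _ (map_add _),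
    gamZ_anti]
  split_ifs
  · rw [Matrix.map_add _ (map_add _), Matrix.map_one _ (map_zero _) (map_one _), two_smul]
  · rw [Matrix.map_zero _ (map_zero _)]

/-- `∑ s_a γ_a` -/
noncomputable def gs (s : Fin 5 → ℝ) : Matrix (Fin 4) (Fin 4) ℂ := ∑ a, (s a : ℂ) • gam a

theorem gs_conjT (s : Fin 5 → ℝ) : (gs s)ᴴ = gs s := by
  unfold gs
  rw [conjTranspose_sum]
  apply Finset.sum_congr rfl
  intro a _
  rw [conjTranspose_smul, gam_conjT]
  simp

theorem gs_anti (s t : Fin 5 → ℝ) :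
    gs s * gs t + gs t * gs s = ((2 * ∑ a, s a * t a : ℝ) : ℂ) • (1 : Matrix (Fin 4) (Fin 4) ℂ) := by
  unfold gs
  rw [Finset.sum_mul_sum, Finset.sum_mul_sum]
  rw [Finset.sum_comm (f := fun i j => ((t i : ℂ) • gam i) * ((s j : ℂ) • gam j)),
    ← Finset.sum_add_distrib]
  have h1 : ∀ i, (∑ j, (s i : ℂ) • gam i * (t j : ℂ) • gam j)
      + (∑ j, (t j : ℂ) • gam j * (s i : ℂ) • gam i)
      = ((2 * (s i * t i) : ℝ) : ℂ) • (1 : Matrix (Fin 4) (Fin 4) ℂ) := by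
    intro i
    rw [← Finset.sum_add_distrib]
    have h2 : ∀ j, (s i : ℂ) • gam i * (t j : ℂ) • gam j + (t j : ℂ) • gam j * (s i : ℂ) • gam i
        = if i = j then ((2 * (s i * t i) : ℝ) : ℂ) • (1 : Matrix (Fin 4) (Fin 4) ℂ) else 0 := by
      intro j
      rw [smul_mul_smul_comm, smul_mul_smul_comm, mul_comm (t j : ℂ), ← smul_add, gam_anti]
      split_ifs with h
      · subst h
        rw [smul_smul]
        congr 1
        push_cast; ring
      · simp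
    rw [Finset.sum_congr rfl (fun j _ => h2 j)]
    simp
  rw [Finset.sum_congr rfl (fun i _ => h1 i), ← Finset.sum_smul]
  congr 1
  rw [Finset.mul_sum]
  push_cast
  rfl

/-- the Bott projection at a vector -/
noncomputable def pb4 (s : Fin 5 → ℝ) : Matrix (Fin 4) (Fin 4) ℂ := (1 / 2 : ℂ) • (1 + gs s)

theorem gs_sq (s : Fin 5 → ℝ) : gs s * gs s = ((∑ a, s a * s a : ℝ) : ℂ) • 1 := by
  have h := gs_anti s s
  rw [← two_smul ℂ (gs s * gs s)] at h
  have h2 : (1 / 2 : ℂ) • ((2 : ℂ) • (gs s * gs s))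
      = (1 / 2 : ℂ) • (((2 * ∑ a, s a * s a : ℝ) : ℂ) • (1 : Matrix (Fin 4) (Fin 4) ℂ)) := by
    rw [h]
  rw [smul_smul, smul_smul] at h2
  have e1 : (1 / 2 : ℂ) * 2 = 1 := by norm_num
  have e2 : (1 / 2 : ℂ) * ((2 * ∑ a, s a * s a : ℝ) : ℂ) = ((∑ a, s a * s a : ℝ) : ℂ) := by
    push_cast; ring
  rw [e1, e2, one_smul] at h2
  exact h2

/-- `p(s) p(t) p(s) = (1 + s·t)/2 p(s)` on the unit sphere. -/
theorem pb4_mul_mul (s t : Fin 5 → ℝ) (hs : ∑ a, s a * s a = 1) :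
    pb4 s * pb4 t * pb4 s = (((1 + ∑ a, s a * t a) / 2 : ℝ) : ℂ) • pb4 s := by
  unfold pb4
  have h1 := gs_sq s
  rw [hs, Complex.ofReal_one, one_smul] at h1
  have h2 : gs t * gs s = ((2 * ∑ a, s a * t a : ℝ) : ℂ) • (1 : Matrix (Fin 4) (Fin 4) ℂ)
      - gs s * gs t := by
    rw [← gs_anti s t]; abel
  simp only [Matrix.smul_mul, Matrix.mul_smul, smul_smul]
  have h3 : (1 + gs s) * (1 + gs t) * (1 + gs s)
      = (((2 + 2 * ∑ a, s a * t a : ℝ)) : ℂ) • (1 + gs s) := by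
    have h4 : (1 + gs s) * (1 + gs t) * (1 + gs s) = (1 + gs s) * (1 + gs s)
        + (1 + gs s) * (gs t + gs t * gs s) := by noncomm_ring
    rw [h4, h2]
    have h5 : (1 + gs s) * (gs t + (((2 * ∑ a, s a * t a : ℝ) : ℂ) • (1 : Matrix (Fin 4) (Fin 4) ℂ)
        - gs s * gs t)) = ((2 * ∑ a, s a * t a : ℝ) : ℂ) • (1 + gs s) + (gs t - gs s * gs s * gs t) := by
      rw [mul_add, mul_sub, Matrix.mul_smul, mul_one, add_mul, add_mul, one_mul, one_mul,
        ← mul_assoc]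
      abel
    rw [h5, h1, one_mul, sub_self, add_zero]
    have h6 : (1 + gs s) * (1 + gs s) = (2 : ℂ) • (1 + gs s) := by
      have : (1 + gs s) * (1 + gs s) = 1 + gs s + gs s + gs s * gs s := by noncomm_ring
      rw [this, h1, two_smul]; abel
    rw [h6, ← add_smul]
    congr 1
    push_cast; ring
  rw [h3, smul_smul]
  congr 1
  push_cast; ring

theorem pb4_pr (s : Fin 5 → ℝ) (hs : ∑ a, s a * s a = 1) : IsPr (pb4 s) := by
  refine ⟨?_, ?_⟩
  · unfold pb4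
    have h1 := gs_sq s
    rw [hs, Complex.ofReal_one, one_smul] at h1
    have h6 : (1 + gs s) * (1 + gs s) = (2 : ℂ) • (1 + gs s) := by
      have : (1 + gs s) * (1 + gs s) = 1 + gs s + gs s + gs s * gs s := by noncomm_ring
      rw [this, h1, two_smul]; abel
    simp only [Matrix.smul_mul, Matrix.mul_smul, smul_smul]
    rw [h6, smul_smul]
    congr 1
    norm_num
  · unfold pb4
    rw [conjTranspose_smul, conjTranspose_add, conjTranspose_one, gs_conjT]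
    congr 1
    simp

theorem pb4_neg (s : Fin 5 → ℝ) : pb4 (-s) = 1 - pb4 s := by
  unfold pb4 gs
  have : ∑ a, (((-s) a : ℝ) : ℂ) • gam a = - ∑ a, (s a : ℂ) • gam a := by
    rw [← Finset.sum_neg_distrib]
    apply Finset.sum_congr rfl
    intro a _
    simp
  rw [this]
  ext i j
  simp only [Matrix.smul_apply, Matrix.add_apply, Matrix.sub_apply, Matrix.neg_apply, smul_eq_mul]
  ring

theorem pb4_trace (s : Fin 5 → ℝ) : (pb4 s).trace = 2 := by
  unfold pb4 gs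
  rw [Matrix.trace_smul, Matrix.trace_add, Matrix.trace_one, Matrix.trace_sum]
  have : ∀ a, ((s a : ℂ) • gam a).trace = 0 := by
    intro a
    rw [Matrix.trace_smul]
    fin_cases a <;> simp [gam, Matrix.trace, Fin.sum_univ_four]
  rw [Finset.sum_congr rfl (fun a _ => this a)]
  simp
  norm_num

/-- coordinate functions on the 4-sphere -/
noncomputable def xc (a : Fin 5) : C(S4, ℂ) :=
  ⟨fun s => ((s.1 a : ℝ) : ℂ), by fun_prop⟩

theorem xc_apply (a : Fin 5) (s : S4) : xc a s = ((s.1 a : ℝ) : ℂ) := rfl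

theorem S4_sum (s : S4) : ∑ a, s.1 a * s.1 a = 1 := by
  have h := s.2
  rw [mem_sphere_zero_iff_norm] at h
  have h2 : ‖s.1‖ ^ 2 = 1 := by rw [h]; norm_num
  rw [EuclideanSpace.norm_sq_eq] at h2
  refine Eq.trans ?_ h2
  apply Finset.sum_congr rfl
  intro a _
  rw [Real.norm_eq_abs, sq_abs]; ring

/-- the Bott projection -/
noncomputable def pB : Matrix (Fin 4) (Fin 4) C(S4, ℂ) :=
  (1 / 2 : ℂ) • (1 + ∑ a, xc a • cM S4 (gam a))

theorem evM_pB (s : S4) : evM s pB = pb4 (fun a => s.1 a) := by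
  ext i j
  simp only [evM, pB, pb4, gs, Matrix.smul_apply, Matrix.add_apply, Matrix.sum_apply,
    ContinuousMap.smul_apply, ContinuousMap.add_apply, ContinuousMap.sum_apply, smul_eq_mul,
    ContinuousMap.mul_apply, xc_apply]
  congr 2
  simp only [Matrix.one_apply]
  split_ifs <;> rfl

theorem pB_pr : IsPr pB := isPr_of_evM fun s => by
  rw [evM_pB]; exact pb4_pr _ (S4_sum s)

theorem pB_trace (s : S4) : (evM s pB).trace = 2 := by rw [evM_pB, pb4_trace]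

end Pool.Agent.Helper75.KT
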