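import Pool.Agent.Helper75.KT.PsiM
import Pool.Agent.Helper75.KT.S4Defs

/-!
# Approximation at a finite stage
-/

set_option linter.unusedSectionVars false

namespace Pool.Agent.Helper75.KT

open Matrix Filter Topology CPd
open scoped Kronecker ComplexOrder Matrix.Norms.L2Operator

section PBm

variable {R R' : Type*} [Ring R] [StarRing R] [Algebra ℂ R] [Ring R'] [StarRing R'] [Algebra ℂ R']

/-- the Bott matrix of five elements -/
noncomputable def PBm (h : Fin 5 → R) : Matrix (Fin 4) (Fin 4) R := fun i j =>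
  (1 / 2 : ℂ) • ((if i = j then 1 else 0) + ∑ a, gam a i j • h a)

theorem PBm_map (f : R →⋆ₐ[ℂ] R') (h : Fin 5 → R) : (PBm h).map f = PBm (fun a => f (h a)) := by
  ext1 i j
  simp only [Matrix.map_apply, PBm, map_smul, map_add, map_sum]
  congr 2
  split_ifs <;> simp

theorem PBm_xc : PBm xc = pB := by
  ext i j x
  simp only [PBm, pB, Matrix.smul_apply, Matrix.add_apply, Matrix.sum_apply,
    ContinuousMap.smul_apply, ContinuousMap.add_apply, ContinuousMap.sum_apply, smul_eq_mul,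
    ContinuousMap.mul_apply, Matrix.one_apply]
  congr 2
  apply Finset.sum_congr rfl
  intro a _
  exact mul_comm _ _

theorem pB_map (f : C(S4, ℂ) →⋆ₐ[ℂ] R) : pB.map f = PBm (fun a => f (xc a)) := by
  rw [← PBm_xc, PBm_map]

end PBm

section

variable (𝒟 : AlgData)

theorem one_map' {R R' : Type*} [Ring R] [StarRing R] [Algebra ℂ R] [Ring R'] [StarRing R']
    [Algebra ℂ R'] (f : R →⋆ₐ[ℂ] R') {ι : Type*} [DecidableEq ι] :
    (1 : Matrix ι ι R).map f = 1 := by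
  rw [Matrix.map_one _ (map_zero f) (map_one f)]

/-- the left hand projection, at a finite stage -/
noncomputable def PPm {R : Type*} [Ring R] [StarRing R] [Algebra ℂ R] (n : ℕ) (h : Fin 5 → R) :
    Matrix (Fin 4 ⊕ Fin n) (Fin 4 ⊕ Fin n) R :=
  Matrix.fromBlocks (PBm h) 0 0 (1 : Matrix (Fin n) (Fin n) R)

/-- the right hand projection -/
def QQm {R : Type*} [Ring R] [StarRing R] (n : ℕ) (L : Matrix (Fin 2) (Fin 2) R) :
    Matrix ((Fin 1 ⊕ Fin 2) ⊕ Fin n) ((Fin 1 ⊕ Fin 2) ⊕ Fin n) R :=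
  Matrix.fromBlocks (Matrix.fromBlocks (1 : Matrix (Fin 1) (Fin 1) R) 0 0 L) 0 0
    (1 : Matrix (Fin n) (Fin n) R)

theorem PPm_map {R R' : Type*} [Ring R] [StarRing R] [Algebra ℂ R] [Ring R'] [StarRing R']
    [Algebra ℂ R'] (f : R →⋆ₐ[ℂ] R') (n : ℕ) (h : Fin 5 → R) :
    (PPm n h).map f = PPm n (fun a => f (h a)) := by
  unfold PPm
  rw [fromBlocks_map', PBm_map, one_map']

theorem QQm_map {R R' : Type*} [Ring R] [StarRing R] [Algebra ℂ R] [Ring R'] [StarRing R']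
    [Algebra ℂ R'] (f : R →⋆ₐ[ℂ] R') (n : ℕ) (L : Matrix (Fin 2) (Fin 2) R) :
    (QQm n L).map f = QQm n (L.map f) := by
  unfold QQm
  rw [fromBlocks_map', fromBlocks_map', one_map', one_map']

theorem sub_map' {R R' : Type*} [Ring R] [StarRing R] [Algebra ℂ R] [Ring R'] [StarRing R']
    [Algebra ℂ R'] (f : R →⋆ₐ[ℂ] R') {α β : Type*} (M N : Matrix α β R) :
    (M - N).map f = M.map f - N.map f := by
  ext a b; simp

theorem approx_stage {σ τ : Type} [Fintype σ] [Fintype τ] (f : σ → 𝒟.A) (g : τ → 𝒟.A)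
    (hg : ∀ t, star (g t) = g t) {ε : ℝ} (hε : 0 < ε) :
    ∃ (i : ℕ) (f' : σ → 𝒟.D i) (g' : τ → 𝒟.D i), (∀ s, ‖f s - f' s‖ < ε) ∧
      (∀ t, ‖g t - g' t‖ < ε) ∧ ∀ t, star (g' t) = g' t := by
  choose i1 d1 hd1 h1 using fun s => 𝒟.dense (f s) ε hε
  choose i2 d2 hd2 h2 using fun t => 𝒟.dense (g t) ε hε
  set i := (Finset.univ.sup i1) ⊔ (Finset.univ.sup i2) with hi
  have hi1 : ∀ s, i1 s ≤ i := fun s => (Finset.le_sup (Finset.mem_univ s)).trans le_sup_left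
  have hi2 : ∀ t, i2 t ≤ i := fun t => (Finset.le_sup (Finset.mem_univ t)).trans le_sup_right
  have hm2 : ∀ t, d2 t ∈ 𝒟.D i := fun t => 𝒟.mono (hi2 t) (hd2 t)
  refine ⟨i, fun s => ⟨d1 s, 𝒟.mono (hi1 s) (hd1 s)⟩,
    fun t => (1 / 2 : ℂ) • ((⟨d2 t, hm2 t⟩ : 𝒟.D i) + star ⟨d2 t, hm2 t⟩), h1, ?_, ?_⟩
  · intro t
    have e : g t - (((1 / 2 : ℂ) • ((⟨d2 t, hm2 t⟩ : 𝒟.D i) + star ⟨d2 t, hm2 t⟩) : 𝒟.D i) : 𝒟.A)
        = (1 / 2 : ℂ) • ((g t - d2 t) + star (g t - d2 t)) := by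
      change g t - (1 / 2 : ℂ) • (d2 t + star (d2 t)) = _
      rw [star_sub, hg]
      have : g t = (1 / 2 : ℂ) • (g t + g t) := by
        rw [← two_smul ℂ (g t), smul_smul]; norm_num
      conv_lhs => rw [this]
      rw [← smul_sub]
      congr 1
      abel
    rw [e, norm_smul]
    have h3 : ‖(g t - d2 t) + star (g t - d2 t)‖ ≤ ‖g t - d2 t‖ + ‖g t - d2 t‖ := by
      refine (norm_add_le _ _).trans ?_
      rw [norm_star]
    have h4 : ‖(1 / 2 : ℂ)‖ = 1 / 2 := by norm_num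
    rw [h4]
    have := h2 t
    linarith
  · intro t
    rw [star_smul, star_add, star_star, add_comm]
    congr 1
    simp

/-- row index type -/
abbrev aIx (n : ℕ) : Type := Fin 4 ⊕ Fin n
/-- column index type -/
abbrev bIx (n : ℕ) : Type := (Fin 1 ⊕ Fin 2) ⊕ Fin n

theorem exists_stage (n : ℕ) (φ : C(S4, ℂ) →⋆ₐ[ℂ] 𝒟.A)
    (v : Matrix (aIx n) (bIx n) 𝒟.A)
    (hv1 : v * vᴴ = PPm n (fun a => φ (xc a)))
    (hv2 : vᴴ * v = QQm n (LL.map 𝒟.emb)) {η : ℝ} (hη : 0 < η) :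
    ∃ (i : ℕ) (h : Fin 5 → 𝒟.D i) (w : Matrix (aIx n) (bIx n) (𝒟.D i)),
      (∀ a, star (h a) = h a) ∧
      (∀ x, ‖evM x (PsiM 𝒟 i (w * wᴴ - PPm n h))‖ ≤ η) ∧
      (∀ x, ‖evM x (PsiM 𝒟 i (wᴴ * w - QQm n (LD 𝒟 i)))‖ ≤ η) ∧
      (∀ x, ‖evM x (PsiM 𝒟 i (PPm n h * PPm n h - PPm n h))‖ ≤ η) := by
  set z : Fin 5 → 𝒟.A := fun a => φ (xc a) with hz
  have hzs : ∀ a, star (z a) = z a := by
    intro a
    rw [hz]
    simp only
    rw [← map_star]
    congr 1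
    ext x
    simp [xc_apply]
  have hPP : PPm n z * PPm n z = PPm n z := by
    have h1 : IsPr (PPm n z) := by
      rw [PPm, ← pB_map]
      exact (pB_pr.map φ).fromBlocks IsPr.one
    exact h1.1
  -- approximating sequence
  have happ : ∀ m : ℕ, ∃ (i : ℕ) (f' : aIx n × bIx n → 𝒟.D i) (g' : Fin 5 → 𝒟.D i),
      (∀ s, ‖v s.1 s.2 - f' s‖ < 1 / ((m : ℝ) + 1)) ∧
      (∀ t, ‖z t - g' t‖ < 1 / ((m : ℝ) + 1)) ∧ ∀ t, star (g' t) = g' t := fun m =>
    approx_stage 𝒟 (fun s : aIx n × bIx n => v s.1 s.2) z hzs (by positivity)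
  choose I f' g' h1 h2 h3 using happ
  let wA : ℕ → Matrix (aIx n) (bIx n) 𝒟.A := fun m a b => (f' m (a, b) : 𝒟.A)
  let hA : ℕ → (Fin 5 → 𝒟.A) := fun m a => (g' m a : 𝒟.A)
  have hlim : Tendsto (fun m : ℕ => 1 / ((m : ℝ) + 1)) atTop (𝓝 0) :=
    tendsto_one_div_add_atTop_nhds_zero_nat
  have hw : Tendsto wA atTop (𝓝 v) := by
    refine tendsto_pi_nhds.2 fun a => tendsto_pi_nhds.2 fun b => ?_
    rw [tendsto_iff_norm_sub_tendsto_zero]
    refine squeeze_zero (fun _ => norm_nonneg _) (fun m => ?_) hlim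
    rw [norm_sub_rev]
    exact (h1 m (a, b)).le
  have hh : Tendsto hA atTop (𝓝 z) := by
    rw [tendsto_pi_nhds]
    intro a
    rw [tendsto_iff_norm_sub_tendsto_zero]
    refine squeeze_zero (fun _ => norm_nonneg _) (fun m => ?_) hlim
    rw [norm_sub_rev]
    exact (h2 m a).le
  have hPc : Continuous (fun h : Fin 5 → 𝒟.A => (PPm n h : Matrix (aIx n) (aIx n) 𝒟.A)) := by
    unfold PPm
    refine Continuous.matrix_fromBlocks ?_ continuous_const continuous_const continuous_const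
    refine continuous_matrix fun i j => ?_
    unfold PBm
    fun_prop
  have hP : Tendsto (fun m => (PPm n (hA m) : Matrix (aIx n) (aIx n) 𝒟.A)) atTop (𝓝 (PPm n z)) :=
    (hPc.tendsto z).comp hh
  have hstar : Continuous (fun w : Matrix (aIx n) (bIx n) 𝒟.A => wᴴ) := by fun_prop
  have hws : Tendsto (fun m => (wA m)ᴴ) atTop (𝓝 vᴴ) := (hstar.tendsto v).comp hw
  have hm1 : Continuous (fun p : Matrix (aIx n) (bIx n) 𝒟.A × Matrix (bIx n) (aIx n) 𝒟.A => p.1 * p.2) := by fun_prop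
  have hm2 : Continuous (fun p : Matrix (bIx n) (aIx n) 𝒟.A × Matrix (aIx n) (bIx n) 𝒟.A => p.1 * p.2) := by fun_prop
  have hm3 : Continuous (fun p : Matrix (aIx n) (aIx n) 𝒟.A × Matrix (aIx n) (aIx n) 𝒟.A => p.1 * p.2) := by fun_prop
  have t1 : Tendsto (fun m => wA m * (wA m)ᴴ - PPm n (hA m)) atTop (𝓝 0) := by
    have := ((hm1.tendsto (v, vᴴ)).comp (hw.prodMk_nhds hws)).sub hP
    rw [hv1, sub_self] at this
    exact this
  have t2 : Tendsto (fun m => (wA m)ᴴ * wA m - QQm n (LL.map 𝒟.emb)) atTop (𝓝 0) := by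
    have := ((hm2.tendsto (vᴴ, v)).comp (hws.prodMk_nhds hw)).sub_const (QQm n (LL.map 𝒟.emb))
    rw [hv2, sub_self] at this
    exact this
  have t3 : Tendsto (fun m => PPm n (hA m) * PPm n (hA m) - (PPm n (hA m) : Matrix (aIx n) (aIx n) 𝒟.A))
      atTop (𝓝 0) := by
    have := ((hm3.tendsto (PPm n z, PPm n z)).comp (hP.prodMk_nhds hP)).sub hP
    rw [hPP, sub_self] at this
    exact this
  -- sums of norms of entries tend to zero
  have key : ∀ {σ τ : Type} [Fintype σ] [Fintype τ] (M : ℕ → Matrix σ τ 𝒟.A),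
      Tendsto M atTop (𝓝 0) → ∀ᶠ m in atTop, ∑ a, ∑ b, ‖M m a b‖ < η := by
    intro σ τ _ _ M hM
    have hc : Continuous (fun M : Matrix σ τ 𝒟.A => ∑ a, ∑ b, ‖M a b‖) := by
      refine continuous_finsetSum _ fun a _ => continuous_finsetSum _ fun b _ => ?_
      exact (continuous_id.matrix_elem a b).norm
    have h5 : Tendsto (fun m => ∑ a, ∑ b, ‖M m a b‖) atTop (𝓝 0) := by
      have h7 := (hc.tendsto 0).comp hM
      have h8 : ∑ a, ∑ b, ‖(0 : Matrix σ τ 𝒟.A) a b‖ = 0 := by simp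
      rw [h8] at h7
      exact h7
    exact (tendsto_order.1 h5).2 η hη
  obtain ⟨m, hm1', hm2', hm3'⟩ := ((key _ t1).and ((key _ t2).and (key _ t3))).exists
  set wD : Matrix (aIx n) (bIx n) (𝒟.D (I m)) := Matrix.of fun a b => f' m (a, b) with hwD
  have hwA : wD.map (𝒟.D (I m)).subtype = wA m := rfl
  have hLD : (LD 𝒟 (I m)).map (𝒟.D (I m)).subtype = LL.map 𝒟.emb := rfl
  have hcoe : ∀ {σ τ : Type} (M : Matrix σ τ (𝒟.D (I m))) (a : σ) (b : τ),
      ((M a b : 𝒟.D (I m)) : 𝒟.A) = (M.map (𝒟.D (I m)).subtype) a b := fun M a b => rfl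
  refine ⟨I m, g' m, wD, h3 m, ?_, ?_, ?_⟩
  · intro x
    refine (norm_PsiM_le 𝒟 _ _ x).trans (le_of_lt ?_)
    refine lt_of_eq_of_lt (Finset.sum_congr rfl fun a _ => Finset.sum_congr rfl fun b _ => ?_) hm1'
    rw [hcoe, sub_map', mul_map, ← conjT_map, hwA, PPm_map]
    rfl
  · intro x
    refine (norm_PsiM_le 𝒟 _ _ x).trans (le_of_lt ?_)
    refine lt_of_eq_of_lt (Finset.sum_congr rfl fun a _ => Finset.sum_congr rfl fun b _ => ?_) hm2'
    rw [hcoe, sub_map', mul_map, ← conjT_map, hwA, QQm_map, hLD]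
  · intro x
    refine (norm_PsiM_le 𝒟 _ _ x).trans (le_of_lt ?_)
    refine lt_of_eq_of_lt (Finset.sum_congr rfl fun a _ => Finset.sum_congr rfl fun b _ => ?_) hm3'
    rw [hcoe, sub_map', mul_map, PPm_map]
    rfl

end

end Pool.Agent.Helper75.KT
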