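import Pool.Agent.Helper75.KT.MatC

/-!
# The transfer theorem
-/

set_option linter.unusedSectionVars false

namespace Pool.Agent.Helper75.KT

open Matrix Filter Topology
open scoped Kronecker ComplexOrder Matrix.Norms.L2Operator

section Const

variable {X Y : Type*} [TopologicalSpace X] [TopologicalSpace Y]
variable {α β γ : Type*} [Fintype α] [Fintype β] [Fintype γ] [DecidableEq α] [DecidableEq β]
  [DecidableEq γ]

/-- constants as a star algebra homomorphism -/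
noncomputable def constH (X : Type*) [TopologicalSpace X] : ℂ →⋆ₐ[ℂ] C(X, ℂ) where
  toFun c := ContinuousMap.const X c
  map_one' := rfl
  map_mul' _ _ := rfl
  map_zero' := rfl
  map_add' _ _ := rfl
  commutes' _ := by ext x; simp
  map_star' _ := rfl

/-- constant matrices -/
noncomputable def cM (X : Type*) [TopologicalSpace X] (M : Matrix α β ℂ) : Matrix α β C(X, ℂ) :=
  M.map (constH X)

theorem evM_cM (x : X) (M : Matrix α β ℂ) : evM x (cM X M) = M := rfl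

theorem cM_pr {M : Matrix α α ℂ} (h : IsPr M) : IsPr (cM X M) := h.map (constH X)

theorem cM_eqv {M : Matrix α α ℂ} {N : Matrix β β ℂ} (h : Eqv M N) :
    Eqv (cM X M) (cM X N) := h.map (constH X)

theorem cM_one : cM X (1 : Matrix α α ℂ) = 1 := one_map (constH X)

theorem kcl_cM {M : Matrix α α ℂ} {r : ℕ} (h : Eqv M (1 : Matrix (Fin r) (Fin r) ℂ)) :
    kcl (cM X M) = (r : K0 C(X, ℂ)) := by
  rw [(cM_eqv h).kcl_eq, cM_one, kcl_one, Fintype.card_fin]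

end Const

namespace AQ

variable {K : Type*} [TopologicalSpace K] [CompactSpace K] (A : AQ K)
variable {X : Type*} [TopologicalSpace X] [CompactSpace X]
variable {ι κ μ : Type*} [Fintype ι] [Fintype κ] [Fintype μ]
  [DecidableEq ι] [DecidableEq κ] [DecidableEq μ]

theorem Qz.fromBlocks {P : Matrix ι ι C(X × K, ℂ)} {Q : Matrix κ κ C(X × K, ℂ)}
    {c c' : ℕ → K0 C(X, ℂ)} (hP : A.Qz P c) (hQ : A.Qz Q c') :
    A.Qz (Matrix.fromBlocks P 0 0 Q) (c + c') := by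
  intro ε hε
  filter_upwards [hP (ε / 2) (by linarith), hQ (ε / 2) (by linarith)] with n h1 h2
  obtain ⟨Ph, hPh, hPc, hPn⟩ := h1
  obtain ⟨Qh, hQh, hQc, hQn⟩ := h2
  refine ⟨(Matrix.fromBlocks Ph 0 0 Qh).submatrix (Equiv.sumProdDistrib ι κ (A.α n))
    (Equiv.sumProdDistrib ι κ (A.α n)), (hPh.fromBlocks hQh).submatrix _, ?_, ?_⟩
  · rw [kcl_submatrix (hPh.fromBlocks hQh), kcl_fromBlocks hPh hQh, hPc, hQc]
    rfl
  · intro x
    have e : A.TMx n x (Matrix.fromBlocks P 0 0 Q)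
        - evM x ((Matrix.fromBlocks Ph 0 0 Qh).submatrix (Equiv.sumProdDistrib ι κ (A.α n))
          (Equiv.sumProdDistrib ι κ (A.α n)))
        = (Matrix.fromBlocks (A.TMx n x P - evM x Ph) 0 0 (A.TMx n x Q - evM x Qh)).submatrix
          (Equiv.sumProdDistrib ι κ (A.α n)) (Equiv.sumProdDistrib ι κ (A.α n)) := by
      ext ⟨i, a⟩ ⟨j, b⟩
      have h0 : sl (0 : C(X × K, ℂ)) x = 0 := rfl
      rcases i with i | i <;> rcases j with j | j <;>
        simp [TMx, evM, h0]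
    rw [e]
    refine lt_of_le_of_lt (norm_submatrix_le _ _ _ (Equiv.injective _) (Equiv.injective _)) ?_
    refine lt_of_le_of_lt (norm_fromBlocks_le _ _) ?_
    linarith [hPn x, hQn x]

/-- entrywise application of `T n` to a matrix of functions on `K` -/
noncomputable def Tc (n : ℕ) (e : Matrix μ μ C(K, ℂ)) : Matrix (μ × A.α n) (μ × A.α n) ℂ :=
  fun a b => A.T n (e a.1 b.1) a.2 b.2

/-- `T n (e)` is close to a projection of rank `r n`. -/
def NearRank (e : Matrix μ μ C(K, ℂ)) (r : ℕ → ℕ) : Prop :=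
  ∀ ε > (0 : ℝ), ∀ᶠ n in atTop, ∃ E : Matrix (μ × A.α n) (μ × A.α n) ℂ,
    IsPr E ∧ Eqv E (1 : Matrix (Fin (r n)) (Fin (r n)) ℂ) ∧ ‖A.Tc n e - E‖ < ε

/-- the first projection -/
def fstC (X K : Type*) [TopologicalSpace X] [TopologicalSpace K] : C(X × K, X) :=
  ⟨Prod.fst, continuous_fst⟩

/-- the second projection -/
def sndC (X K : Type*) [TopologicalSpace X] [TopologicalSpace K] : C(X × K, K) :=
  ⟨Prod.snd, continuous_snd⟩

theorem norm_kron_le (M : Matrix ι ι ℂ) (N : Matrix κ κ ℂ) :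
    ‖M ⊗ₖ N‖ ≤ (∑ i, ∑ j, ‖M i j‖) * ‖N‖ := by
  refine (norm_blk_le _).trans ?_
  rw [Finset.sum_mul]
  gcongr with i _
  rw [Finset.sum_mul]
  gcongr with j _
  have : blk (M ⊗ₖ N) i j = M i j • N := by
    ext a b; simp [blk]
  rw [this, norm_smul]

theorem qz_box {p : Matrix ι ι C(X, ℂ)} (hp : IsPr p) {e : Matrix μ μ C(K, ℂ)} {r : ℕ → ℕ}
    (he : A.NearRank e r) :
    A.Qz ((p.map (pbA (fstC X K))) ⊗ₖ (e.map (pbA (sndC X K))))
      (fun n => (r n : K0 C(X, ℂ)) * kcl p) := by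
  intro ε hε
  set C : ℝ := (∑ i, ∑ j, ‖p i j‖) + 1 with hC
  have hC0 : 0 < C := by positivity
  filter_upwards [he (ε / C) (div_pos hε hC0)] with n hn
  obtain ⟨E, hE, hE1, hEn⟩ := hn
  refine ⟨(p ⊗ₖ cM X E).submatrix (Equiv.prodAssoc ι μ (A.α n)) (Equiv.prodAssoc ι μ (A.α n)),
    (hp.kron (cM_pr hE)).submatrix _, ?_, ?_⟩
  · rw [kcl_submatrix (hp.kron (cM_pr hE)), kcl_kron hp (cM_pr hE), kcl_cM hE1, mul_comm]
  · intro x
    have e1 : A.TMx n x ((p.map (pbA (fstC X K))) ⊗ₖ (e.map (pbA (sndC X K))))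
        - evM x ((p ⊗ₖ cM X E).submatrix (Equiv.prodAssoc ι μ (A.α n))
          (Equiv.prodAssoc ι μ (A.α n)))
        = ((evM x p) ⊗ₖ (A.Tc n e - E)).submatrix (Equiv.prodAssoc ι μ (A.α n))
          (Equiv.prodAssoc ι μ (A.α n)) := by
      ext ⟨⟨i, m⟩, a⟩ ⟨⟨j, m'⟩, b⟩
      have h0 : sl (((p.map (pbA (fstC X K))) ⊗ₖ (e.map (pbA (sndC X K)))) (i, m) (j, m')) x
          = p i j x • e m m' := by
        ext k
        rfl
      have h1 : A.TMx n x ((p.map (pbA (fstC X K))) ⊗ₖ (e.map (pbA (sndC X K))))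
          ((i, m), a) ((j, m'), b) = p i j x * A.T n (e m m') a b := by
        change A.T n (sl (((p.map (pbA (fstC X K))) ⊗ₖ (e.map (pbA (sndC X K)))) (i, m) (j, m'))
          x) a b = _
        rw [h0, map_smul]
        rfl
      rw [Matrix.sub_apply, h1]
      simp only [evM, submatrix_apply, Equiv.prodAssoc_apply, kroneckerMap_apply, Matrix.sub_apply,
        ContinuousMap.mul_apply]
      rw [mul_sub]
      rfl
    rw [e1]
    refine lt_of_le_of_lt (norm_submatrix_le _ _ _ (Equiv.injective _) (Equiv.injective _)) ?_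
    refine lt_of_le_of_lt (norm_kron_le _ _) ?_
    have h2 : (∑ i, ∑ j, ‖evM x p i j‖) ≤ ∑ i, ∑ j, ‖p i j‖ := by
      gcongr with i _ j _
      exact (p i j).norm_coe_le_norm x
    calc (∑ i, ∑ j, ‖evM x p i j‖) * ‖A.Tc n e - E‖
        ≤ (∑ i, ∑ j, ‖p i j‖) * ‖A.Tc n e - E‖ := by gcongr
      _ ≤ C * ‖A.Tc n e - E‖ := by
          gcongr
          rw [hC]; linarith
      _ < C * (ε / C) := by gcongr
      _ = ε := by field_simp

/-- The transfer relation. -/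
def Tr (a : K0 C(X × K, ℂ)) (c : ℕ → K0 C(X, ℂ)) : Prop :=
  ∃ (Λ Λ' : Type) (_ : Fintype Λ) (_ : Fintype Λ') (_ : DecidableEq Λ) (_ : DecidableEq Λ')
    (P : Matrix Λ Λ C(X × K, ℂ)) (Q : Matrix Λ' Λ' C(X × K, ℂ)) (c₁ c₂ : ℕ → K0 C(X, ℂ)),
    IsPr P ∧ IsPr Q ∧ a = kcl P - kcl Q ∧ A.Qz P c₁ ∧ A.Qz Q c₂ ∧ c = c₁ - c₂

theorem tc_one_rank (h1 : ∀ n, A.T n 1 = 1) :
    A.NearRank (1 : Matrix (Fin 1) (Fin 1) C(K, ℂ)) (fun n => Fintype.card (A.α n)) := by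
  intro ε hε
  filter_upwards with n
  refine ⟨1, IsPr.one, ?_, ?_⟩
  · refine Eqv.of_submatrix IsPr.one
      ((Equiv.uniqueProd (A.α n) (Fin 1)).trans (Fintype.equivFin (A.α n))).symm ?_
    rw [Matrix.submatrix_one_equiv]
  · have : A.Tc n (1 : Matrix (Fin 1) (Fin 1) C(K, ℂ)) = 1 := by
      ext ⟨i, a⟩ ⟨j, b⟩
      obtain rfl := Subsingleton.elim i j
      simp [Tc, h1, Matrix.one_apply]
    rw [this]; simpa using hε

theorem Tr.add {a b : K0 C(X × K, ℂ)} {c d : ℕ → K0 C(X, ℂ)} (h : A.Tr a c) (h' : A.Tr b d) :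
    A.Tr (a + b) (c + d) := by
  obtain ⟨Λ, Λ', i1, i2, i3, i4, P, Q, c₁, c₂, hP, hQ, ha, hPc, hQc, hc⟩ := h
  obtain ⟨M, M', j1, j2, j3, j4, R, S, d₁, d₂, hR, hS, hb, hRd, hSd, hd⟩ := h'
  refine ⟨Λ ⊕ M, Λ' ⊕ M', inferInstance, inferInstance, inferInstance, inferInstance,
    Matrix.fromBlocks P 0 0 R, Matrix.fromBlocks Q 0 0 S, c₁ + d₁, c₂ + d₂, hP.fromBlocks hR,
    hQ.fromBlocks hS, ?_, Qz.fromBlocks A hPc hRd, Qz.fromBlocks A hQc hSd, ?_⟩
  · rw [kcl_fromBlocks hP hR, kcl_fromBlocks hQ hS, ha, hb]; abel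
  · rw [hc, hd]; abel

theorem Tr.neg {a : K0 C(X × K, ℂ)} {c : ℕ → K0 C(X, ℂ)} (h : A.Tr a c) : A.Tr (-a) (-c) := by
  obtain ⟨Λ, Λ', i1, i2, i3, i4, P, Q, c₁, c₂, hP, hQ, ha, hPc, hQc, hc⟩ := h
  refine ⟨Λ', Λ, i2, i1, i4, i3, Q, P, c₂, c₁, hQ, hP, ?_, hQc, hPc, ?_⟩
  · rw [ha]; abel
  · rw [hc]; abel

theorem qz_zero : A.Qz (0 : Matrix (Fin 0) (Fin 0) C(X × K, ℂ)) 0 := by
  intro ε hε
  filter_upwards with n
  refine ⟨0, IsPr.zero, kcl_zero, fun x => ?_⟩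
  have : A.TMx n x (0 : Matrix (Fin 0) (Fin 0) C(X × K, ℂ)) - evM x 0 = 0 := by
    ext ⟨i, a⟩; exact i.elim0
  rw [this]; simpa using hε

theorem tr_box_kcl {n : ℕ} {p : Matrix (Fin n) (Fin n) C(X, ℂ)} (hp : IsPr p) {m : ℕ}
    {e : Matrix (Fin m) (Fin m) C(K, ℂ)} (hep : IsPr e)
    {r : ℕ → ℕ} (he : A.NearRank e r) :
    A.Tr (pb (fstC X K) (kcl p) * pb (sndC X K) (kcl e))
      (fun n => (r n : K0 C(X, ℂ)) * kcl p) := by
  refine ⟨Fin n × Fin m, Fin 0, inferInstance, inferInstance, inferInstance, inferInstance,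
    (p.map (pbA (fstC X K))) ⊗ₖ (e.map (pbA (sndC X K))), 0, _, 0,
    (hp.map _).kron (hep.map _), IsPr.zero, ?_, A.qz_box hp he, A.qz_zero, ?_⟩
  · rw [kcl_zero, sub_zero, pb_kcl _ hp, pb_kcl _ hep, kcl_kron (hp.map _) (hep.map _)]
  · simp

theorem tr_box (a : K0 C(X, ℂ)) {m : ℕ}
    {e : Matrix (Fin m) (Fin m) C(K, ℂ)} (hep : IsPr e)
    {r : ℕ → ℕ} (he : A.NearRank e r) :
    A.Tr (pb (fstC X K) a * pb (sndC X K) (kcl e)) (fun n => (r n : K0 C(X, ℂ)) * a) := by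
  obtain ⟨n, p, q, hp, hq, rfl⟩ := exists_kcl_sub a
  have h1 := A.tr_box_kcl hp hep he
  have h2 := A.tr_box_kcl hq hep he
  have h3 := Tr.add A h1 (Tr.neg A h2)
  convert h3 using 1
  · rw [map_sub]; ring
  · funext n
    simp only [Pi.add_apply, Pi.neg_apply]
    ring

theorem Tr.zero (h1 : ∀ n, A.T n 1 = 1) {c : ℕ → K0 C(X, ℂ)} (h : A.Tr (0 : K0 C(X × K, ℂ)) c) :
    ∀ᶠ n in atTop, c n = 0 := by
  obtain ⟨Λ, Λ', i1, i2, i3, i4, P, Q, c₁, c₂, hP, hQ, ha, hPc, hQc, hc⟩ := h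
  have h2 : kcl P = kcl Q := (sub_eq_zero.1 ha.symm)
  obtain ⟨n, hn⟩ := (kcl_eq_iff hP hQ).1 h2
  -- the trivial projection of size n
  have h3 : A.Qz (1 : Matrix (Fin n) (Fin n) C(X × K, ℂ))
      (fun k => (n : K0 C(X, ℂ)) * (Fintype.card (A.α k) : K0 C(X, ℂ))) := by
    intro ε hε
    filter_upwards with k
    refine ⟨1, IsPr.one, ?_, ?_⟩
    · rw [kcl_one, Fintype.card_prod, Fintype.card_fin, Nat.cast_mul]
    · intro x
      have : A.TMx k x (1 : Matrix (Fin n) (Fin n) C(X × K, ℂ)) - evM x 1 = 0 := by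
        rw [evM_one]
        ext ⟨i, a⟩ ⟨j, b⟩
        by_cases hij : i = j
        · subst hij
          have h0 : sl (1 : C(X × K, ℂ)) x = 1 := rfl
          simp [TMx, h0, h1, Matrix.one_apply]
        · have h0 : sl (0 : C(X × K, ℂ)) x = 0 := rfl
          simp [TMx, h0, hij]
      rw [this]; simpa using hε
  have h4 := Qz.eqv A (Qz.fromBlocks A hPc h3) (Qz.fromBlocks A hQc h3) hn
  filter_upwards [h4] with k hk
  simp only [Pi.add_apply] at hk
  have := add_right_cancel hk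
  rw [hc, Pi.sub_apply, this, sub_self]

/-- The transfer theorem. -/
theorem transfer (h1 : ∀ n, A.T n 1 = 1) {σ : Type*} (s : Finset σ) (a : σ → K0 C(X, ℂ))
    (m : σ → ℕ) (e : ∀ i, Matrix (Fin (m i)) (Fin (m i)) C(K, ℂ)) (he : ∀ i, IsPr (e i))
    (r : σ → ℕ → ℕ) (hr : ∀ i, A.NearRank (e i) (r i))
    (h : ∑ i ∈ s, pb (fstC X K) (a i) * pb (sndC X K) (kcl (e i)) = 0) :
    ∀ᶠ n in atTop, ∑ i ∈ s, (r i n : K0 C(X, ℂ)) * a i = 0 := by
  classical
  have key : ∀ s : Finset σ, A.Tr (∑ i ∈ s, pb (fstC X K) (a i) * pb (sndC X K) (kcl (e i)))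
      (fun n => ∑ i ∈ s, (r i n : K0 C(X, ℂ)) * a i) := by
    intro s
    induction s using Finset.induction_on with
    | empty =>
      refine ⟨Fin 0, Fin 0, inferInstance, inferInstance, inferInstance, inferInstance, 0, 0, 0, 0,
        IsPr.zero, IsPr.zero, ?_, A.qz_zero, A.qz_zero, ?_⟩
      · simp
      · funext n; simp
    | insert j s hj ih =>
      rw [Finset.sum_insert hj]
      have := Tr.add A (A.tr_box (a j) (he j) (hr j)) ih
      convert this using 1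
      funext n
      rw [Finset.sum_insert hj]
      rfl
  have h2 := key s
  rw [h] at h2
  exact Tr.zero A h1 h2

/-- Every projection over `C(K)` is asymptotically close to projections. -/
theorem exists_nearRank {e : Matrix μ μ C(K, ℂ)} (he : IsPr e) : ∃ r, A.NearRank e r := by
  -- view `e` as a family over a point
  have hTc_star : ∀ n, (A.Tc n e)ᴴ = A.Tc n e := by
    intro n
    ext ⟨i, a⟩ ⟨j, b⟩
    simp only [Tc, conjTranspose_apply]
    have h1 : star (A.T n (e j i) b a) = (A.T n (e j i))ᴴ a b := rfl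
    rw [h1, ← A.T_star]
    have h2 : star (e j i) = e i j := by
      have := congrFun (congrFun he.2 i) j
      rwa [conjTranspose_apply] at this
    rw [h2]
  have h1 : ∀ n, ∃ r : ℕ, ∃ E : Matrix (μ × A.α n) (μ × A.α n) ℂ, IsPr E ∧
      Eqv E (1 : Matrix (Fin r) (Fin r) ℂ) ∧ ‖A.Tc n e - E‖ ≤ 2 * ‖A.Tc n e * A.Tc n e - A.Tc n e‖ := by
    intro n
    obtain ⟨E, hE, hEn⟩ := near_pr (A.Tc n e) (hTc_star n)
    obtain ⟨r, hr, _⟩ := pr_eqv_one E hE
    exact ⟨r, E, hE, hr, hEn⟩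
  choose r E hE hE1 hEn using h1
  refine ⟨r, ?_⟩
  intro ε hε
  have h2 := A.TMx_mul_unif (X := Unit) (e.map (pbA (sndC Unit K))) (e.map (pbA (sndC Unit K)))
    (show (0 : ℝ) < ε / 2 by linarith)
  filter_upwards [h2] with n hn
  refine ⟨E n, hE n, hE1 n, ?_⟩
  have h3 := hn ()
  have h4 : A.TMx n () (e.map (pbA (sndC Unit K))) = A.Tc n e := rfl
  rw [← mul_map, he.1, h4, norm_sub_rev] at h3
  linarith [hEn n]

end AQ

end Pool.Agent.Helper75.KT
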