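import Pool.Agent.Helper75.KT.Block

/-!
# Transfer along an asymptotic quantisation
-/

set_option linter.unusedSectionVars false

namespace Pool.Agent.Helper75.KT

open Matrix Filter Topology
open scoped Kronecker ComplexOrder Matrix.Norms.L2Operator

/-- A sequence of contractive star-preserving linear maps from `C(K)` to matrix algebras which is
asymptotically multiplicative. -/
structure AQ (K : Type*) [TopologicalSpace K] [CompactSpace K] where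
  /-- index sets -/
  α : ℕ → Type
  [fin : ∀ n, Fintype (α n)]
  [dec : ∀ n, DecidableEq (α n)]
  /-- the maps -/
  T : ∀ n, C(K, ℂ) →ₗ[ℂ] Matrix (α n) (α n) ℂ
  T_star : ∀ n f, T n (star f) = (T n f)ᴴ
  T_norm : ∀ n f, ‖T n f‖ ≤ ‖f‖
  T_mul : ∀ f g, Tendsto (fun n => ‖T n (f * g) - T n f * T n g‖) atTop (𝓝 0)

attribute [instance] AQ.fin AQ.dec

namespace AQ

variable {K : Type*} [TopologicalSpace K] [CompactSpace K] (A : AQ K)
variable {X : Type*} [TopologicalSpace X] [CompactSpace X]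

theorem T_cont (n : ℕ) : Continuous (A.T n) := by
  have : Continuous ((A.T n).mkContinuous 1 (fun f => by rw [one_mul]; exact A.T_norm n f)) :=
    ContinuousLinearMap.continuous _
  exact this

theorem defect_bound (n : ℕ) (f g f' g' : C(K, ℂ)) :
    ‖A.T n (f * g) - A.T n f * A.T n g‖ ≤ ‖A.T n (f' * g') - A.T n f' * A.T n g'‖
      + 2 * (‖f‖ * ‖g - g'‖ + ‖f - f'‖ * ‖g'‖) := by
  have e : A.T n (f * g) - A.T n f * A.T n g = (A.T n (f' * g') - A.T n f' * A.T n g')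
      + ((A.T n (f * (g - g')) - A.T n f * A.T n (g - g'))
        + (A.T n ((f - f') * g') - A.T n (f - f') * A.T n g')) := by
    simp only [map_sub, mul_sub, sub_mul]
    abel
  have key : ∀ a b : C(K, ℂ), ‖A.T n (a * b) - A.T n a * A.T n b‖ ≤ 2 * (‖a‖ * ‖b‖) := by
    intro a b
    calc ‖A.T n (a * b) - A.T n a * A.T n b‖ ≤ ‖A.T n (a * b)‖ + ‖A.T n a * A.T n b‖ :=
          norm_sub_le _ _
      _ ≤ ‖a * b‖ + ‖A.T n a‖ * ‖A.T n b‖ := by
          gcongr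
          · exact A.T_norm n _
          · exact Matrix.l2_opNorm_mul _ _
      _ ≤ ‖a‖ * ‖b‖ + ‖a‖ * ‖b‖ := by
          gcongr
          · exact norm_mul_le _ _
          · exact A.T_norm n _
          · exact A.T_norm n _
      _ = _ := by ring
  rw [e]
  refine (norm_add_le _ _).trans ?_
  gcongr
  refine (norm_add_le _ _).trans ?_
  have h1 := key f (g - g')
  have h2 := key (f - f') g'
  linarith

theorem unif (F G : C(X, C(K, ℂ))) {ε : ℝ} (hε : 0 < ε) :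
    ∀ᶠ n in atTop, ∀ x, ‖A.T n (F x * G x) - A.T n (F x) * A.T n (G x)‖ < ε := by
  have hloc : ∀ y ∈ (Set.univ : Set X), ∀ᶠ z : ℕ × X in atTop ×ˢ 𝓝 y,
      ‖A.T z.1 (F z.2 * G z.2) - A.T z.1 (F z.2) * A.T z.1 (G z.2)‖ < ε := by
    intro y _
    have h1 : ∀ᶠ n in atTop, ‖A.T n (F y * G y) - A.T n (F y) * A.T n (G y)‖ < ε / 2 :=
      (tendsto_order.1 (A.T_mul (F y) (G y))).2 _ (by linarith)
    have h2 : Tendsto (fun x => 2 * (‖F x‖ * ‖G x - G y‖ + ‖F x - F y‖ * ‖G y‖)) (𝓝 y)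
        (𝓝 (2 * (‖F y‖ * ‖G y - G y‖ + ‖F y - F y‖ * ‖G y‖))) := by
      have : Continuous (fun x => 2 * (‖F x‖ * ‖G x - G y‖ + ‖F x - F y‖ * ‖G y‖)) := by
        fun_prop
      exact this.tendsto y
    have h3 : ∀ᶠ x in 𝓝 y, 2 * (‖F x‖ * ‖G x - G y‖ + ‖F x - F y‖ * ‖G y‖) < ε / 2 := by
      apply (tendsto_order.1 h2).2
      simp only [sub_self, norm_zero, mul_zero, zero_mul, add_zero]
      linarith
    filter_upwards [h1.prod_mk h3] with z hz
    have := A.defect_bound z.1 (F z.2) (G z.2) (F y) (G y)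
    linarith [hz.1, hz.2]
  have h4 : ∀ᶠ z : ℕ × X in atTop ×ˢ 𝓝ˢ (Set.univ : Set X),
      ‖A.T z.1 (F z.2 * G z.2) - A.T z.1 (F z.2) * A.T z.1 (G z.2)‖ < ε := by
    rw [isCompact_univ.prod_nhdsSet_eq_biSup]
    simpa only [eventually_iSup] using hloc
  rw [nhdsSet_univ, prod_top, eventually_comap] at h4
  filter_upwards [h4] with n hn x
  exact hn (n, x) rfl

variable {ι κ μ : Type*} [Fintype ι] [Fintype κ] [Fintype μ]
  [DecidableEq ι] [DecidableEq κ] [DecidableEq μ]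

/-- the slice of a function on `X × K` -/
noncomputable def sl (f : C(X × K, ℂ)) (x : X) : C(K, ℂ) := f.curry x

theorem sl_apply (f : C(X × K, ℂ)) (x : X) (k : K) : sl f x k = f (x, k) := rfl

theorem sl_mul (f g : C(X × K, ℂ)) (x : X) : sl (f * g) x = sl f x * sl g x := rfl
theorem sl_add (f g : C(X × K, ℂ)) (x : X) : sl (f + g) x = sl f x + sl g x := rfl
theorem sl_star (f : C(X × K, ℂ)) (x : X) : sl (star f) x = star (sl f x) := rfl

theorem sl_sum {σ : Type*} (s : Finset σ) (f : σ → C(X × K, ℂ)) (x : X) :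
    sl (∑ i ∈ s, f i) x = ∑ i ∈ s, sl (f i) x := by
  ext k
  simp [sl_apply, ContinuousMap.sum_apply]

theorem norm_sl_le (f : C(X × K, ℂ)) (x : X) : ‖sl f x‖ ≤ ‖f‖ := by
  rw [ContinuousMap.norm_le _ (norm_nonneg _)]
  intro k
  exact f.norm_coe_le_norm (x, k)

/-- entrywise application of `T n` to the slice of a matrix of functions -/
noncomputable def TMx (n : ℕ) (x : X) (M : Matrix ι κ C(X × K, ℂ)) :
    Matrix (ι × A.α n) (κ × A.α n) ℂ :=
  fun a b => A.T n (sl (M a.1 b.1) x) a.2 b.2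

theorem blk_TMx (n : ℕ) (x : X) (M : Matrix ι κ C(X × K, ℂ)) (i : ι) (j : κ) :
    blk (A.TMx n x M) i j = A.T n (sl (M i j) x) := rfl

theorem TMx_conjT (n : ℕ) (x : X) (M : Matrix ι κ C(X × K, ℂ)) :
    A.TMx n x Mᴴ = (A.TMx n x M)ᴴ := by
  ext ⟨i, a⟩ ⟨j, b⟩
  simp only [TMx, conjTranspose_apply, sl_star, A.T_star]

theorem norm_TMx_le (n : ℕ) (x : X) (M : Matrix ι κ C(X × K, ℂ)) :
    ‖A.TMx n x M‖ ≤ ∑ i, ∑ j, ‖M i j‖ := by
  refine (norm_blk_le _).trans ?_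
  gcongr with i _ j _
  rw [blk_TMx]
  exact (A.T_norm n _).trans (norm_sl_le _ _)

/-- the continuous family version of `TMx` -/
noncomputable def TM (n : ℕ) (M : Matrix ι κ C(X × K, ℂ)) :
    Matrix (ι × A.α n) (κ × A.α n) C(X, ℂ) :=
  fun a b => ⟨fun x => A.T n (sl (M a.1 b.1) x) a.2 b.2, by
    have h1 : Continuous (fun x => A.T n ((M a.1 b.1).curry x)) :=
      (A.T_cont n).comp (M a.1 b.1).curry.continuous
    exact h1.matrix_elem a.2 b.2⟩

theorem evM_TM (n : ℕ) (x : X) (M : Matrix ι κ C(X × K, ℂ)) :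
    evM x (A.TM n M) = A.TMx n x M := rfl

theorem TMx_mul_unif (M : Matrix ι κ C(X × K, ℂ)) (N : Matrix κ μ C(X × K, ℂ)) {ε : ℝ}
    (hε : 0 < ε) :
    ∀ᶠ n in atTop, ∀ x, ‖A.TMx n x (M * N) - A.TMx n x M * A.TMx n x N‖ < ε := by
  set C : ℝ := (Fintype.card ι : ℝ) * ((Fintype.card μ : ℝ) * (Fintype.card κ : ℝ)) + 1 with hC
  have hCpos : 0 < C := by positivity
  have h1 : ∀ i j k, ∀ᶠ n in atTop, ∀ x, ‖A.T n (sl (M i j) x * sl (N j k) x)
      - A.T n (sl (M i j) x) * A.T n (sl (N j k) x)‖ < ε / C := by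
    intro i j k
    exact A.unif (M i j).curry (N j k).curry (div_pos hε hCpos)
  have h2 : ∀ᶠ n in atTop, ∀ i j k x, ‖A.T n (sl (M i j) x * sl (N j k) x)
      - A.T n (sl (M i j) x) * A.T n (sl (N j k) x)‖ < ε / C := by
    rw [eventually_all]; intro i
    rw [eventually_all]; intro j
    rw [eventually_all]; intro k
    exact h1 i j k
  filter_upwards [h2] with n hn x
  have e : ∀ i k, blk (A.TMx n x (M * N) - A.TMx n x M * A.TMx n x N) i k
      = ∑ j, (A.T n (sl (M i j) x * sl (N j k) x)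
        - A.T n (sl (M i j) x) * A.T n (sl (N j k) x)) := by
    intro i k
    rw [Finset.sum_sub_distrib]
    have e1 : blk (A.TMx n x (M * N)) i k = ∑ j, A.T n (sl (M i j) x * sl (N j k) x) := by
      rw [blk_TMx, Matrix.mul_apply, sl_sum, map_sum]
      rfl
    have e2 : blk (A.TMx n x M * A.TMx n x N) i k
        = ∑ j, A.T n (sl (M i j) x) * A.T n (sl (N j k) x) := by
      ext a b
      simp only [blk, Matrix.mul_apply, Matrix.sum_apply, TMx]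
      rw [Fintype.sum_prod_type]
    have e3 : blk (A.TMx n x (M * N) - A.TMx n x M * A.TMx n x N) i k
        = blk (A.TMx n x (M * N)) i k - blk (A.TMx n x M * A.TMx n x N) i k := rfl
    rw [e3, e1, e2]
  calc ‖A.TMx n x (M * N) - A.TMx n x M * A.TMx n x N‖
      ≤ ∑ i, ∑ k, ‖blk (A.TMx n x (M * N) - A.TMx n x M * A.TMx n x N) i k‖ := norm_blk_le _
    _ ≤ ∑ i : ι, ∑ k : μ, ∑ j : κ, ε / C := by
        gcongr with i _ k _
        rw [e]
        refine (norm_sum_le _ _).trans ?_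
        gcongr with j _
        exact (hn i j k x).le
    _ = ε * ((C - 1) / C) := by
        simp only [Finset.sum_const, Finset.card_univ, nsmul_eq_mul]
        rw [hC]
        field_simp
        ring
    _ < ε * 1 := by
        gcongr
        rw [div_lt_one hCpos]
        linarith
    _ = ε := mul_one ε

/-- `P` has an asymptotic class `c`. -/
def Qz {Λ : Type*} [Fintype Λ] [DecidableEq Λ] (P : Matrix Λ Λ C(X × K, ℂ))
    (c : ℕ → K0 C(X, ℂ)) : Prop :=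
  ∀ ε > (0 : ℝ), ∀ᶠ n in atTop, ∃ Ph : Matrix (Λ × A.α n) (Λ × A.α n) C(X, ℂ),
    IsPr Ph ∧ kcl Ph = c n ∧ ∀ x, ‖A.TMx n x P - evM x Ph‖ < ε

theorem qz_eqv_aux {α β : Type*} [Fintype α] [Fintype β] [DecidableEq α] [DecidableEq β]
    (C ε : ℝ) (hC : 0 ≤ C) (P Ph : Matrix α α ℂ) (Qh : Matrix β β ℂ) (V PV : Matrix α β ℂ)
    (VV : Matrix β β ℂ)
    (hε : 0 ≤ ε) (hCε : C * (ε * C + ε + ε) + (ε + ε) < 1)
    (hV : ‖V‖ ≤ C) (hQh : IsPr Qh)
    (hP : ‖P - Ph‖ ≤ ε) (hQ : ‖VV - Qh‖ ≤ ε) (hPV : ‖PV - P * V‖ ≤ ε) (hPV' : ‖PV - V‖ ≤ ε)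
    (hVV : ‖VV - Vᴴ * V‖ ≤ ε) (hPh : IsPr Ph) :
    ‖(Ph * V * Qh)ᴴ * (Ph * V * Qh) - Qh‖ < 1 := by
  have e1 : (Ph * V * Qh)ᴴ * (Ph * V * Qh) - Qh
      = Qh * (Vᴴ * (Ph * V - V) + (Vᴴ * V - Qh)) * Qh := by
    rw [conjTranspose_mul, conjTranspose_mul, hQh.2, hPh.2]
    have : Qh * (Vᴴ * Ph) * (Ph * V * Qh) = Qh * (Vᴴ * (Ph * Ph * V)) * Qh := by
      simp only [Matrix.mul_assoc]
    rw [this, hPh.1]
    have e2 : Vᴴ * (Ph * V - V) + (Vᴴ * V - Qh) = Vᴴ * (Ph * V) - Qh := by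
      rw [Matrix.mul_sub]; abel
    rw [e2, Matrix.mul_sub, Matrix.sub_mul, hQh.1, hQh.1]
  have h1 : ‖Ph * V - V‖ ≤ ε * C + ε + ε := by
    have : Ph * V - V = (Ph - P) * V + (P * V - PV) + (PV - V) := by
      rw [Matrix.sub_mul]; abel
    rw [this]
    refine (norm_add_le _ _).trans ?_
    refine add_le_add ((norm_add_le _ _).trans (add_le_add ?_ ?_)) hPV'
    · refine (Matrix.l2_opNorm_mul _ _).trans ?_
      rw [norm_sub_rev]
      gcongr
    · rw [norm_sub_rev]; exact hPV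
  have h2 : ‖Vᴴ * V - Qh‖ ≤ ε + ε := by
    have : Vᴴ * V - Qh = (Vᴴ * V - VV) + (VV - Qh) := by abel
    rw [this]
    refine (norm_add_le _ _).trans (add_le_add ?_ hQ)
    rw [norm_sub_rev]; exact hVV
  have h3 : ‖Vᴴ * (Ph * V - V) + (Vᴴ * V - Qh)‖ ≤ C * (ε * C + ε + ε) + (ε + ε) := by
    refine (norm_add_le _ _).trans (add_le_add ?_ h2)
    refine (Matrix.l2_opNorm_mul _ _).trans ?_
    rw [Matrix.l2_opNorm_conjTranspose]
    gcongr
  rw [e1]
  calc ‖Qh * (Vᴴ * (Ph * V - V) + (Vᴴ * V - Qh)) * Qh‖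
      ≤ ‖Qh * (Vᴴ * (Ph * V - V) + (Vᴴ * V - Qh))‖ * ‖Qh‖ := Matrix.l2_opNorm_mul _ _
    _ ≤ ‖Qh * (Vᴴ * (Ph * V - V) + (Vᴴ * V - Qh))‖ * 1 := by
        gcongr; exact norm_pr_le hQh
    _ ≤ (‖Qh‖ * ‖Vᴴ * (Ph * V - V) + (Vᴴ * V - Qh)‖) * 1 := by
        gcongr; exact Matrix.l2_opNorm_mul _ _
    _ ≤ (1 * ‖Vᴴ * (Ph * V - V) + (Vᴴ * V - Qh)‖) * 1 := by
        gcongr; exact norm_pr_le hQh
    _ = ‖Vᴴ * (Ph * V - V) + (Vᴴ * V - Qh)‖ := by ring
    _ < 1 := lt_of_le_of_lt h3 hCε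

theorem Qz.eqv {Λ Λ' : Type*} [Fintype Λ] [DecidableEq Λ] [Fintype Λ'] [DecidableEq Λ']
    {P : Matrix Λ Λ C(X × K, ℂ)} {Q : Matrix Λ' Λ' C(X × K, ℂ)} {c c' : ℕ → K0 C(X, ℂ)}
    (hP : A.Qz P c) (hQ : A.Qz Q c') (h : Eqv P Q) : ∀ᶠ n in atTop, c n = c' n := by
  obtain ⟨v, h1, h2, h3⟩ := h
  have hPv : P * v = v := by rw [← h1, h3]
  have hQv : Q * vᴴ = vᴴ := by
    have := congrArg conjTranspose h3
    rw [conjTranspose_mul, conjTranspose_mul, conjTranspose_conjTranspose, ← Matrix.mul_assoc,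
      h2] at this
    exact this
  set C : ℝ := ∑ i, ∑ j, ‖v i j‖ with hC
  have hC0 : 0 ≤ C := by positivity
  obtain ⟨ε, hε, hCε⟩ : ∃ ε > 0, C * (ε * C + ε + ε) + (ε + ε) < 1 := by
    refine ⟨1 / (2 * (C * C + 2 * C + 2)), by positivity, ?_⟩
    have hpos : 0 < C * C + 2 * C + 2 := by positivity
    have : C * (1 / (2 * (C * C + 2 * C + 2)) * C + 1 / (2 * (C * C + 2 * C + 2))
        + 1 / (2 * (C * C + 2 * C + 2))) + (1 / (2 * (C * C + 2 * C + 2))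
        + 1 / (2 * (C * C + 2 * C + 2))) = 1 / 2 := by
      field_simp
      ring
    rw [this]; norm_num
  filter_upwards [hP ε hε, hQ ε hε, A.TMx_mul_unif P v hε, A.TMx_mul_unif vᴴ v hε,
    A.TMx_mul_unif Q vᴴ hε, A.TMx_mul_unif v vᴴ hε] with n a1 a2 a3 a4 a5 a6
  obtain ⟨Ph, hPh, hPc, hPn⟩ := a1
  obtain ⟨Qh, hQh, hQc, hQn⟩ := a2
  rw [← hPc, ← hQc]
  apply Eqv.kcl_eq
  refine eqv_of_pointwise Ph Qh (Ph * A.TM n v * Qh) hPh hQh ?_ ?_ ?_ ?_
  · rw [← Matrix.mul_assoc, ← Matrix.mul_assoc, hPh.1]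
  · rw [Matrix.mul_assoc, hQh.1]
  · intro x u hu hw
    rw [evM_mul, evM_mul, evM_TM] at hw
    refine near_inj (W := evM x Ph * A.TMx n x v * evM x Qh) ?_ u hu hw
    refine qz_eqv_aux C ε hC0 (A.TMx n x P) (evM x Ph) (evM x Qh) (A.TMx n x v)
      (A.TMx n x v) (A.TMx n x Q) hε.le hCε (A.norm_TMx_le n x v) (hQh.evM x) (hPn x).le
      (hQn x).le ?_ ?_ ?_ (hPh.evM x)
    · have := (a3 x).le
      rwa [hPv] at this
    · simpa using hε.le
    · have := (a4 x).le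
      rwa [h2, TMx_conjT] at this
  · intro x u hu hw
    have e : (evM x (Ph * A.TM n v * Qh))ᴴ = evM x Qh * A.TMx n x vᴴ * evM x Ph := by
      rw [evM_mul, evM_mul, evM_TM, conjTranspose_mul, conjTranspose_mul, (hQh.evM x).2,
        (hPh.evM x).2, TMx_conjT, Matrix.mul_assoc]
    rw [e] at hw
    refine near_inj (W := evM x Qh * A.TMx n x vᴴ * evM x Ph) ?_ u hu hw
    refine qz_eqv_aux C ε hC0 (A.TMx n x Q) (evM x Qh) (evM x Ph) (A.TMx n x vᴴ)
      (A.TMx n x vᴴ) (A.TMx n x P) hε.le hCε ?_ (hPh.evM x) (hQn x).le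
      (hPn x).le ?_ ?_ ?_ (hQh.evM x)
    · rw [TMx_conjT, Matrix.l2_opNorm_conjTranspose]; exact A.norm_TMx_le n x v
    · have := (a5 x).le
      rwa [hQv] at this
    · simpa using hε.le
    · have := (a6 x).le
      rw [h1, TMx_conjT] at this
      rw [TMx_conjT, conjTranspose_conjTranspose]
      exact this

end AQ

end Pool.Agent.Helper75.KT
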