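import Pool.Agent.Helper75.KT.VDefs

/-!
# The zero locus of the off-diagonal entries
-/

set_option linter.unusedSectionVars false

namespace Pool.Agent.Helper75.KT

open Matrix Filter Topology CPd
open scoped Kronecker ComplexOrder Matrix.Norms.L2Operator

section core

variable {V : Type*} [TopologicalSpace V] [CompactSpace V]
variable {κ ν β : Type*} [Fintype κ] [Fintype ν] [Fintype β] [DecidableEq κ] [DecidableEq ν]
  [DecidableEq β]

theorem norm_rs_sub_le {X : Type*} [TopologicalSpace X] [CompactSpace X] (Vs : Set X)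
    {α γ δ ε : Type*} [Fintype α] [Fintype γ] [DecidableEq α] [DecidableEq γ]
    [Fintype δ] [Fintype ε] [DecidableEq δ] [DecidableEq ε]
    (M : Matrix α δ C(X, ℂ)) (e : γ → α) (he : Function.Injective e) (f : ε → δ)
    (hf : Function.Injective f) (x : Vs) :
    ‖evM x ((M.map (pbA (inc Vs))).submatrix e f)‖ ≤ ‖evM (x : X) M‖ := by
  have h : evM x ((M.map (pbA (inc Vs))).submatrix e f) = (evM (x : X) M).submatrix e f := rfl
  rw [h]
  exact norm_submatrix_le _ _ _ he hf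

/-- the abstract splitting -/
theorem split_core (B0 : Matrix (Fin 4) (Fin 4) C(V, ℂ)) (B1 : Matrix κ κ C(V, ℂ))
    (Bq : Matrix ν ν C(V, ℂ)) (hBq : IsPr Bq) (hB1 : B1ᴴ = B1) (t : Fin 5 → V → ℝ)
    (htc : ∀ a, Continuous (t a)) (hB0e : ∀ x, evM x B0 = pb4 (fun a => t a x))
    (N : Matrix ((Fin 4 ⊕ κ) ⊕ ν) ((Fin 4 ⊕ κ) ⊕ ν) C(V, ℂ))
    (hN : N = Matrix.fromBlocks (Matrix.fromBlocks B0 0 0 B1) 0 0 Bq)
    (hNN : ∀ x, ‖evM x (N * N - N)‖ ≤ 1 / 500)
    (W : Matrix ((Fin 4 ⊕ κ) ⊕ ν) β C(V, ℂ)) (Q : Matrix β β C(V, ℂ)) (hQ : IsPr Q)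
    (hW1 : ∀ x, ‖evM x (W * Wᴴ - N)‖ ≤ 1 / 500) (hW2 : ∀ x, ‖evM x (Wᴴ * W - Q)‖ ≤ 1 / 500) :
    ∃ (τ : C(V, S4)) (E : Matrix κ κ C(V, ℂ)), IsPr E ∧
      pb τ (kcl pB) + kcl E + kcl Bq = kcl Q := by
  have hNN' : N * N - N = Matrix.fromBlocks (Matrix.fromBlocks (B0 * B0 - B0) 0 0 (B1 * B1 - B1))
      0 0 (Bq * Bq - Bq) := by
    rw [hN, Matrix.fromBlocks_multiply, Matrix.fromBlocks_multiply, fromBlocks_sub',
      Matrix.mul_zero, Matrix.zero_mul]
    simp only [Matrix.mul_zero, Matrix.zero_mul, add_zero, zero_add, sub_zero]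
    rw [fromBlocks_sub']
    simp
  have hB0n : ∀ x : V, ‖evM x (B0 * B0 - B0)‖ ≤ 1 / 500 := by
    intro x
    have e : evM x (B0 * B0 - B0) = (evM x (N * N - N)).submatrix (Sum.inl ∘ Sum.inl)
        (Sum.inl ∘ Sum.inl) := by
      rw [hNN']; rfl
    rw [e]
    exact (norm_submatrix_le _ _ _ (Sum.inl_injective.comp Sum.inl_injective)
      (Sum.inl_injective.comp Sum.inl_injective)).trans (hNN x)
  have hB1n : ∀ x : V, ‖evM x (B1 * B1 - B1)‖ ≤ 1 / 500 := by
    intro x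
    have e : evM x (B1 * B1 - B1) = (evM x (N * N - N)).submatrix (Sum.inl ∘ Sum.inr)
        (Sum.inl ∘ Sum.inr) := by
      rw [hNN']; rfl
    rw [e]
    exact (norm_submatrix_le _ _ _ (Sum.inl_injective.comp Sum.inr_injective)
      (Sum.inl_injective.comp Sum.inr_injective)).trans (hNN x)
  obtain ⟨E, hE, hEn⟩ := near_prC B1 hB1 (1 / 500) (by norm_num) hB1n
  have htn : ∀ x : V, |∑ a, t a x * t a x - 1| ≤ 4 * (1 / 500) := by
    intro x
    have h1 := hB0n x
    rw [evM_sub, evM_mul, hB0e, pb4_defect, norm_smul, norm_one_four, mul_one, Complex.norm_real,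
      Real.norm_eq_abs, abs_div, abs_of_pos (show (0 : ℝ) < 4 by norm_num)] at h1
    linarith
  have htpos : ∀ x : V, 0 < ∑ a, t a x * t a x := by
    intro x
    have := (abs_le.1 (htn x)).1
    linarith
  let ρ : V → ℝ := fun x => Real.sqrt (∑ a, t a x * t a x)
  have hρc : Continuous ρ := by
    refine Real.continuous_sqrt.comp ?_
    exact continuous_finsetSum _ fun a _ => (htc a).mul (htc a)
  have hρ0 : ∀ x, 0 < ρ x := fun x => Real.sqrt_pos.2 (htpos x)
  have hρρ : ∀ x, ρ x * ρ x = ∑ a, t a x * t a x := fun x =>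
    Real.mul_self_sqrt (htpos x).le
  have hτmem : ∀ x : V, WithLp.toLp 2 (fun a => t a x / ρ x) ∈
      Metric.sphere (0 : EuclideanSpace ℝ (Fin 5)) 1 := by
    intro x
    rw [mem_sphere_zero_iff_norm, EuclideanSpace.norm_eq, Real.sqrt_eq_one]
    have h1 : ∀ a, ‖t a x / ρ x‖ ^ 2 = (t a x * t a x) / (ρ x * ρ x) := by
      intro a
      rw [Real.norm_eq_abs, sq_abs]
      field_simp
    rw [Finset.sum_congr rfl (fun a _ => h1 a), ← Finset.sum_div, hρρ]
    exact div_self (htpos x).ne'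
  let τ : C(V, S4) := ⟨fun x => ⟨WithLp.toLp 2 (fun a => t a x / ρ x), hτmem x⟩, by
    refine Continuous.subtype_mk ?_ _
    refine (PiLp.continuous_toLp 2 _).comp ?_
    refine continuous_pi fun a => ?_
    exact (htc a).div hρc (fun x => (hρ0 x).ne')⟩
  set P0 := pB.map (pbA τ) with hP0
  have hP0pr : IsPr P0 := pB_pr.map _
  have hP0n : ∀ x : V, ‖evM x (B0 - P0)‖ ≤ 2 * (1 / 500) := by
    intro x
    have e : evM x P0 = pb4 (fun a => t a x / ρ x) := by
      rw [hP0, evM_pb, evM_pB]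
      rfl
    rw [evM_sub, hB0e, e]
    refine (pb4_dist (fun a => t a x) (ρ x) rfl (hρ0 x)).trans ?_
    linarith [htn x]
  set Ph := Matrix.fromBlocks (Matrix.fromBlocks P0 0 0 E) 0 0 Bq with hPh
  have hPhpr : IsPr Ph := (hP0pr.fromBlocks hE).fromBlocks hBq
  have key : Eqv Ph Q := by
    refine eqv_of_near Ph Q W hPhpr hQ (1 / 100) le_rfl ?_ ?_
    · intro x
      exact (hW2 x).trans (by norm_num)
    · intro x
      have e : W * Wᴴ - Ph = (W * Wᴴ - N) + (N - Ph) := by abel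
      have e' : N - Ph = Matrix.fromBlocks (Matrix.fromBlocks (B0 - P0) 0 0 (B1 - E)) 0 0 0 := by
        rw [hN, hPh, fromBlocks_sub', fromBlocks_sub']
        simp
      rw [e, evM_add]
      refine (norm_add_le _ _).trans ?_
      have n1 := hW1 x
      have n2 : ‖evM x (N - Ph)‖ ≤ 2 * (1 / 500) + 2 * (1 / 500) := by
        rw [e', evM_fromBlocks, evM_fromBlocks, evM_zero, evM_zero, evM_zero, evM_zero, evM_zero]
        refine (norm_fromBlocks_le _ _).trans ?_
        rw [norm_zero, add_zero]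
        refine (norm_fromBlocks_le _ _).trans ?_
        exact add_le_add (hP0n x) (hEn x)
      linarith
  refine ⟨τ, E, hE, ?_⟩
  have hk := key.kcl_eq
  rw [hPh, kcl_fromBlocks (hP0pr.fromBlocks hE) hBq, kcl_fromBlocks hP0pr hE, hP0,
    ← pb_kcl τ pB_pr] at hk
  exact hk

end core

end Pool.Agent.Helper75.KT
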