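import Pool.Agent.Helper75.KT.Stage
import Pool.Agent.Helper96.KTNear

/-!
# The zero locus of the off-diagonal entries
-/

set_option linter.unusedSectionVars false

namespace Pool.Agent.Helper75.KT

open Matrix Filter Topology CPd
open scoped Kronecker ComplexOrder Matrix.Norms.L2Operator

section gsnorm

theorem norm_one_four : ‖(1 : Matrix (Fin 4) (Fin 4) ℂ)‖ = 1 := norm_one

theorem norm_gs (s : Fin 5 → ℝ) : ‖gs s‖ = Real.sqrt (∑ a, s a * s a) := by
  have h1 : ‖(gs s)ᴴ * gs s‖ = ‖gs s‖ * ‖gs s‖ := Matrix.l2_opNorm_conjTranspose_mul_self _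
  have h0 : 0 ≤ ∑ a, s a * s a := Finset.sum_nonneg fun a _ => mul_self_nonneg _
  rw [gs_conjT, gs_sq, norm_smul, norm_one_four, mul_one, Complex.norm_real, Real.norm_eq_abs,
    abs_of_nonneg h0] at h1
  rw [h1, Real.sqrt_mul_self (norm_nonneg _)]

theorem pb4_defect (s : Fin 5 → ℝ) : pb4 s * pb4 s - pb4 s
    = (((∑ a, s a * s a - 1) / 4 : ℝ) : ℂ) • (1 : Matrix (Fin 4) (Fin 4) ℂ) := by
  unfold pb4
  have h := gs_sq s
  have e : (1 + gs s) * (1 + gs s) = 1 + gs s + gs s + gs s * gs s := by noncomm_ring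
  rw [Matrix.smul_mul, Matrix.mul_smul, smul_smul, e, h]
  ext i j
  simp only [Matrix.sub_apply, Matrix.smul_apply, Matrix.add_apply, smul_eq_mul]
  push_cast
  ring

theorem pb4_dist (s : Fin 5 → ℝ) (r : ℝ) (hr : r = Real.sqrt (∑ a, s a * s a)) (hr0 : 0 < r) :
    ‖pb4 s - pb4 (fun a => s a / r)‖ ≤ (1 / 2) * |∑ a, s a * s a - 1| := by
  have e : pb4 s - pb4 (fun a => s a / r) = ((1 / 2 * (1 - 1 / r) : ℝ) : ℂ) • gs s := by
    unfold pb4
    have h1 : gs (fun a => s a / r) = ((1 / r : ℝ) : ℂ) • gs s := by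
      unfold gs
      rw [Finset.smul_sum]
      apply Finset.sum_congr rfl
      intro a _
      rw [smul_smul]
      congr 1
      push_cast
      ring
    rw [h1]
    ext i j
    simp only [Matrix.sub_apply, Matrix.smul_apply, Matrix.add_apply, smul_eq_mul]
    push_cast
    ring
  rw [e, norm_smul, norm_gs, ← hr, Complex.norm_real, Real.norm_eq_abs]
  have h2 : |1 / 2 * (1 - 1 / r)| * r = (1 / 2) * |r - 1| := by
    rw [abs_mul, abs_of_pos (show (0 : ℝ) < 1 / 2 by norm_num), mul_assoc]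
    congr 1
    rw [← abs_of_pos hr0, ← abs_mul, abs_of_pos hr0]
    congr 1
    field_simp
  rw [h2]
  have hrr : ∑ a, s a * s a = r * r := by
    rw [hr, Real.mul_self_sqrt (Finset.sum_nonneg fun a _ => mul_self_nonneg _)]
  rw [hrr]
  have h3 : r * r - 1 = (r - 1) * (r + 1) := by ring
  rw [h3, abs_mul]
  have h4 : 1 ≤ |r + 1| := by rw [abs_of_pos (by linarith)]; linarith
  nlinarith [abs_nonneg (r - 1)]

end gsnorm

section

variable (𝒟 : AlgData) (i : ℕ)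

/-- the distinguished index -/
def zs (i : ℕ) : KK i := ⟨⟨0, Nat.two_pow_pos i⟩, fun _ => 0⟩

theorem eq_zs {k : KK i} (h : (k.1 : ℕ) = 0) : k = zs i := by
  obtain ⟨⟨m, hm⟩, r⟩ := k
  simp only at h
  subst h
  unfold zs
  congr 1
  funext c
  have : dd (Nat.size 0) = 0 := by rw [Nat.size_zero]; rfl
  exact (Fin.cast this c).elim0

theorem ne_zs {k : KK i} (h : k ≠ zs i) : (k.1 : ℕ) ≠ 0 := fun h' => h (eq_zs i h')

/-- the other indices -/
abbrev KK' (i : ℕ) : Type := {k : KK i // k ≠ zs i}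

/-- index splitting -/
noncomputable def e1 (i : ℕ) : Fin 4 ⊕ (Fin 4 × KK' i) ≃ Fin 4 × KK i :=
  Equiv.ofBijective (Sum.elim (fun p => (p, zs i)) (fun p => (p.1, p.2.1))) (by
    constructor
    · rintro (p | ⟨p, k⟩) (q | ⟨q, l⟩) h
      · simp only [Sum.elim_inl, Prod.mk.injEq, and_true] at h
        rw [h]
      · simp only [Sum.elim_inl, Sum.elim_inr, Prod.mk.injEq] at h
        exact absurd h.2.symm l.2
      · simp only [Sum.elim_inl, Sum.elim_inr, Prod.mk.injEq] at h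
        exact absurd h.2 k.2
      · simp only [Sum.elim_inr, Prod.mk.injEq] at h
        obtain ⟨h1, h2⟩ := h
        rw [h1, Subtype.ext h2]
    · rintro ⟨p, k⟩
      by_cases h : k = zs i
      · exact ⟨Sum.inl p, by rw [h]; rfl⟩
      · exact ⟨Sum.inr (p, ⟨k, h⟩), rfl⟩)

/-- index splitting -/
noncomputable def e2 (i n : ℕ) : (Fin 4 ⊕ (Fin 4 × KK' i)) ⊕ (Fin n × KK i) ≃ aIx n × KK i :=
  (Equiv.sumCongr (e1 i) (Equiv.refl _)).trans (Equiv.sumProdDistrib _ _ _).symm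

theorem e2_inl_inl (n : ℕ) (p : Fin 4) : e2 i n (Sum.inl (Sum.inl p)) = (Sum.inl p, zs i) := rfl
theorem e2_inl_inr (n : ℕ) (p : Fin 4) (k : KK' i) :
    e2 i n (Sum.inl (Sum.inr (p, k))) = (Sum.inl p, k.1) := rfl
theorem e2_inr (n : ℕ) (p : Fin n) (k : KK i) : e2 i n (Sum.inr (p, k)) = (Sum.inr p, k) := rfl

variable (h : Fin 5 → 𝒟.D i)

/-- the zero locus -/
def VV : Set XX := {x | ∀ a (k : KK i), k ≠ zs i → 𝒟.Ψ i (h a) k (zs i) x = 0}

theorem VV_closed : IsClosed (VV 𝒟 i h) := by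
  have : VV 𝒟 i h = ⋂ a, ⋂ k : KK i, ⋂ _ : k ≠ zs i, {x | 𝒟.Ψ i (h a) k (zs i) x = 0} := by
    ext x; simp [VV]
  rw [this]
  refine isClosed_iInter fun a => isClosed_iInter fun k => isClosed_iInter fun _ => ?_
  exact isClosed_eq (𝒟.Ψ i (h a) k (zs i)).continuous continuous_const

theorem psi_pbm (p q : Fin 4) (k l : KK i) (x : XX) : 𝒟.Ψ i (PBm h p q) k l x
    = (1 / 2 : ℂ) * ((if p = q then qq 𝒟 i k l x else 0) + ∑ a, gam a p q * 𝒟.Ψ i (h a) k l x) := by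
  unfold PBm
  rw [map_smul, map_add, map_sum]
  simp only [Matrix.smul_apply, Matrix.add_apply, Matrix.sum_apply, ContinuousMap.smul_apply,
    ContinuousMap.add_apply, ContinuousMap.sum_apply, smul_eq_mul, map_smul]
  congr 2
  split_ifs
  · rfl
  · rw [map_zero]; rfl

theorem qq_apply_ne {k l : KK i} (hkl : k.1 ≠ l.1) : qq 𝒟 i k l = 0 := by
  unfold qq
  rw [𝒟.Ψ_one]
  obtain ⟨k1, k2⟩ := k
  obtain ⟨l1, l2⟩ := l
  exact Matrix.blockDiagonal'_apply_ne _ _ _ hkl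

theorem qq_apply_eq {k : Fin (2 ^ i)} (r s : RR (Nat.size k)) :
    qq 𝒟 i ⟨k, r⟩ ⟨k, s⟩ = ee (Nat.size k) r s := by
  unfold qq
  rw [𝒟.Ψ_one]
  exact Matrix.blockDiagonal'_apply_eq _ _ _ _

theorem qq_zs (x : XX) : qq 𝒟 i (zs i) (zs i) x = 1 := by
  have h1 : qq 𝒟 i (zs i) (zs i) = ee (Nat.size 0) (fun _ => 0) (fun _ => 0) :=
    qq_apply_eq 𝒟 i (k := ⟨0, Nat.two_pow_pos i⟩) _ _
  rw [h1, ee_apply]
  apply Finset.prod_eq_one
  intro c _
  have : dd (Nat.size 0) = 0 := by rw [Nat.size_zero]; rfl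
  exact (Fin.cast this c).elim0

variable {h}

theorem psi_sa (hs : ∀ a, star (h a) = h a) (a : Fin 5) (k l : KK i) (x : XX) :
    𝒟.Ψ i (h a) k l x = star (𝒟.Ψ i (h a) l k x) := by
  have h1 := map_star (𝒟.Ψ i) (h a)
  rw [hs] at h1
  have h2 := congrFun (congrFun h1 k) l
  rw [Matrix.star_apply] at h2
  have h3 := DFunLike.congr_fun h2 x
  exact h3

end

end Pool.Agent.Helper75.KT
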