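import Pool.Agent.Helper75.KT.VCore

/-!
# The image of the Bott class over the zero locus
-/

set_option linter.unusedSectionVars false

namespace Pool.Agent.Helper75.KT

open Matrix Filter Topology CPd
open scoped Kronecker ComplexOrder Matrix.Norms.L2Operator

section

variable (𝒟 : AlgData) (i : ℕ) {h : Fin 5 → 𝒟.D i}

theorem psi_zero (k l : KK i) : 𝒟.Ψ i 0 k l = 0 := by
  rw [map_zero]; rfl

theorem PPm_sa (n : ℕ) (hs : ∀ a, star (h a) = h a) : (PPm n h)ᴴ = PPm n h := by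
  unfold PPm
  rw [Matrix.fromBlocks_conjTranspose]
  simp only [conjTranspose_zero, conjTranspose_one]
  congr 1
  ext1 p q
  rw [conjTranspose_apply]
  unfold PBm
  rw [star_smul, star_add, star_sum]
  congr 1
  · simp
  · congr 1
    · by_cases hpq : p = q
      · simp [hpq]
      · simp [hpq, Ne.symm hpq]
    · apply Finset.sum_congr rfl
      intro a _
      rw [star_smul, hs]
      congr 1
      have := congrFun (congrFun (gam_conjT a) p) q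
      rwa [conjTranspose_apply] at this

theorem psi_pbm_off (x : XX) (hx : x ∈ VV 𝒟 i h) (p q : Fin 4) (k : KK i) (hk : k ≠ zs i) :
    𝒟.Ψ i (PBm h p q) k (zs i) x = 0 := by
  rw [psi_pbm]
  have h1 : qq 𝒟 i k (zs i) = 0 := by
    apply qq_apply_ne
    intro h'
    exact ne_zs i hk (congrArg Fin.val h')
  have h2 : ∀ a, 𝒟.Ψ i (h a) k (zs i) x = 0 := fun a => hx a k hk
  rw [h1]
  simp [h2]

theorem psi_pbm_off' (hs : ∀ a, star (h a) = h a) (x : XX) (hx : x ∈ VV 𝒟 i h) (p q : Fin 4)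
    (k : KK i) (hk : k ≠ zs i) : 𝒟.Ψ i (PBm h p q) (zs i) k x = 0 := by
  rw [psi_pbm]
  have h1 : qq 𝒟 i (zs i) k = 0 := by
    apply qq_apply_ne
    intro h'
    exact ne_zs i hk (congrArg Fin.val h').symm
  have h2 : ∀ a, 𝒟.Ψ i (h a) (zs i) k x = 0 := fun a => by
    rw [psi_sa 𝒟 i hs, hx a k hk, star_zero]
  rw [h1]
  simp [h2]

theorem psi_real (hs : ∀ a, star (h a) = h a) (a : Fin 5) (x : XX) :
    𝒟.Ψ i (h a) (zs i) (zs i) x = (((𝒟.Ψ i (h a) (zs i) (zs i) x).re : ℝ) : ℂ) := by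
  have h1 := psi_sa 𝒟 i hs a (zs i) (zs i) x
  exact (Complex.conj_eq_iff_re.1 h1.symm).symm

theorem psi_pbm_zs (hs : ∀ a, star (h a) = h a) (p q : Fin 4) (x : XX) :
    𝒟.Ψ i (PBm h p q) (zs i) (zs i) x
      = pb4 (fun a => (𝒟.Ψ i (h a) (zs i) (zs i) x).re) p q := by
  rw [psi_pbm, qq_zs]
  unfold pb4 gs
  simp only [Matrix.smul_apply, Matrix.add_apply, Matrix.sum_apply, smul_eq_mul,
    Matrix.one_apply]
  congr 2
  apply Finset.sum_congr rfl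
  intro a _
  rw [psi_real 𝒟 i hs a x, mul_comm]
  simp

/-- restriction of a matrix to the zero locus -/
noncomputable def rM {α β : Type*} (Vs : Set XX) (M : Matrix α β C(XX, ℂ)) :
    Matrix α β C(Vs, ℂ) := M.map (pbA (inc Vs))

theorem rM_apply {α β : Type*} (Vs : Set XX) (M : Matrix α β C(XX, ℂ)) (a : α) (b : β) (x : Vs) :
    rM Vs M a b x = M a b x := rfl

theorem rM_sub {α β : Type*} (Vs : Set XX) (M N : Matrix α β C(XX, ℂ)) :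
    rM Vs (M - N) = rM Vs M - rM Vs N := sub_map' _ _ _

theorem rM_mul {α β γ : Type*} [Fintype α] [Fintype β] [Fintype γ] (Vs : Set XX) (M : Matrix α β C(XX, ℂ))
    (N : Matrix β γ C(XX, ℂ)) : rM Vs (M * N) = rM Vs M * rM Vs N := mul_map _ _ _

theorem rM_conjT {α β : Type*} [Fintype α] [Fintype β] (Vs : Set XX) (M : Matrix α β C(XX, ℂ)) :
    rM Vs Mᴴ = (rM Vs M)ᴴ := (conjT_map _ _).symm

/-- the block form of the restricted matrix -/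
theorem block_form (n : ℕ) (hs : ∀ a, star (h a) = h a) :
    (rM (VV 𝒟 i h) (PsiM 𝒟 i (PPm n h))).submatrix (e2 i n) (e2 i n)
      = Matrix.fromBlocks (Matrix.fromBlocks
        (Matrix.of fun p q => rM (VV 𝒟 i h) (PsiM 𝒟 i (PPm n h)) (Sum.inl p, zs i)
          (Sum.inl q, zs i)) 0 0
        (Matrix.of fun (p q : Fin 4 × KK' i) => rM (VV 𝒟 i h) (PsiM 𝒟 i (PPm n h))
          (Sum.inl p.1, p.2.1) (Sum.inl q.1, q.2.1))) 0 0
        (rM (VV 𝒟 i h) (PsiM 𝒟 i (1 : Matrix (Fin n) (Fin n) (𝒟.D i)))) := by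
  ext1 a b
  rcases a with (a | ⟨a, k⟩) | ⟨a, k⟩ <;> rcases b with (b | ⟨b, l⟩) | ⟨b, l⟩
  · rfl
  · ext x
    exact psi_pbm_off' 𝒟 i hs x x.2 a b l.1 l.2
  · ext x
    change 𝒟.Ψ i 0 _ _ _ = 0
    rw [psi_zero]; rfl
  · ext x
    exact psi_pbm_off 𝒟 i x x.2 a b k.1 k.2
  · rfl
  · ext x
    change 𝒟.Ψ i 0 _ _ _ = 0
    rw [psi_zero]; rfl
  · ext x
    change 𝒟.Ψ i 0 _ _ _ = 0
    rw [psi_zero]; rfl
  · ext x
    change 𝒟.Ψ i 0 _ _ _ = 0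
    rw [psi_zero]; rfl
  · rfl

theorem sub_sub' {α β γ δ : Type*} {R : Type*} [AddGroup R] (M N : Matrix α β R) (e : γ → α)
    (f : δ → β) : (M - N).submatrix e f = M.submatrix e f - N.submatrix e f := rfl

theorem defect_form {α γ : Type*} [Fintype α] [DecidableEq α] [Fintype γ] [DecidableEq γ]
    (Vs : Set XX) (M : Matrix α α C(XX, ℂ)) (e : γ ≃ α) :
    ((rM Vs M).submatrix e e) * ((rM Vs M).submatrix e e) - (rM Vs M).submatrix e e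
      = (rM Vs (M * M - M)).submatrix e e := by
  rw [rM_sub, rM_mul, sub_sub', Matrix.submatrix_mul_equiv]

theorem norm_rM_le {α γ : Type*} [Fintype α] [DecidableEq α] [Fintype γ] [DecidableEq γ]
    (Vs : Set XX) (M : Matrix α α C(XX, ℂ)) (e : γ ≃ α) (x : Vs) :
    ‖evM x ((rM Vs M).submatrix e e)‖ ≤ ‖evM (x : XX) M‖ :=
  norm_rs_sub_le Vs M e e.injective e e.injective x

theorem norm_rM_le' {α : Type*} [Fintype α] [DecidableEq α]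
    (Vs : Set XX) (M : Matrix α α C(XX, ℂ)) (x : Vs) :
    ‖evM x (rM Vs M)‖ ≤ ‖evM (x : XX) M‖ :=
  norm_rs_sub_le Vs M id Function.injective_id id Function.injective_id x

theorem defect_le {α κ ν : Type*} [Fintype α] [DecidableEq α] [Fintype κ] [DecidableEq κ]
    [Fintype ν] [DecidableEq ν] (Vs : Set XX) (M : Matrix α α C(XX, ℂ))
    (e : (Fin 4 ⊕ κ) ⊕ ν ≃ α) {δ : ℝ} (hM : ∀ x, ‖evM x (M * M - M)‖ ≤ δ) (x : Vs) :
    ‖evM x (((rM Vs M).submatrix e e) * ((rM Vs M).submatrix e e)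
      - (rM Vs M).submatrix e e)‖ ≤ δ := by
  rw [defect_form]
  exact (norm_rM_le _ _ _ x).trans (hM x)

theorem near_le {α β κ ν : Type*} [Fintype α] [DecidableEq α] [Fintype κ] [DecidableEq κ]
    [Fintype ν] [DecidableEq ν] [Fintype β] [DecidableEq β] (Vs : Set XX)
    (W : Matrix α β C(XX, ℂ)) (M : Matrix α α C(XX, ℂ))
    (e : (Fin 4 ⊕ κ) ⊕ ν ≃ α) {δ : ℝ} (hM : ∀ x, ‖evM x (W * Wᴴ - M)‖ ≤ δ) (x : Vs) :
    ‖evM x (((rM Vs W).submatrix e id) * ((rM Vs W).submatrix e id)ᴴ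
      - (rM Vs M).submatrix e e)‖ ≤ δ := by
  have h : ((rM Vs W).submatrix e id) * ((rM Vs W).submatrix e id)ᴴ
      - (rM Vs M).submatrix e e = (rM Vs (W * Wᴴ - M)).submatrix e e := by
    rw [rM_sub, sub_sub', rM_mul, rM_conjT, conjTranspose_submatrix]
    refine congrArg₂ (· - ·) ?_ rfl
    exact Matrix.submatrix_mul_equiv _ _ e (Equiv.refl _) e
  rw [h]
  exact (norm_rM_le _ _ _ x).trans (hM x)

theorem near_le' {α β κ ν : Type*} [Fintype α] [DecidableEq α] [Fintype κ] [DecidableEq κ]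
    [Fintype ν] [DecidableEq ν] [Fintype β] [DecidableEq β] (Vs : Set XX)
    (W : Matrix α β C(XX, ℂ)) (Q : Matrix β β C(XX, ℂ))
    (e : (Fin 4 ⊕ κ) ⊕ ν ≃ α) {δ : ℝ} (hM : ∀ x, ‖evM x (Wᴴ * W - Q)‖ ≤ δ) (x : Vs) :
    ‖evM x (((rM Vs W).submatrix e id)ᴴ * ((rM Vs W).submatrix e id) - rM Vs Q)‖ ≤ δ := by
  have h : ((rM Vs W).submatrix e id)ᴴ * ((rM Vs W).submatrix e id) - rM Vs Q
      = rM Vs (Wᴴ * W - Q) := by
    rw [rM_sub, rM_mul, rM_conjT, conjTranspose_submatrix]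
    refine congrArg₂ (· - ·) ?_ rfl
    exact Matrix.submatrix_mul_equiv _ _ id e id
  rw [h]
  exact (norm_rM_le' _ _ x).trans (hM x)

/-- The structure of the situation over the zero locus: the class of the image of the Bott
projection. -/
theorem exists_split (n : ℕ) (w : Matrix (aIx n) (bIx n) (𝒟.D i))
    (hs : ∀ a, star (h a) = h a)
    (b1 : ∀ x, ‖evM x (PsiM 𝒟 i (w * wᴴ - PPm n h))‖ ≤ 1 / 500)
    (b2 : ∀ x, ‖evM x (PsiM 𝒟 i (wᴴ * w - QQm n (LD 𝒟 i)))‖ ≤ 1 / 500)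
    (b3 : ∀ x, ‖evM x (PsiM 𝒟 i (PPm n h * PPm n h - PPm n h))‖ ≤ 1 / 500) :
    ∃ (τ : C(VV 𝒟 i h, S4)) (E : Matrix (Fin 4 × KK' i) (Fin 4 × KK' i) C(VV 𝒟 i h, ℂ)),
      IsPr E ∧ pb τ (kcl pB) + kcl E
        = 1 + rs (VV 𝒟 i h) (kcl LL)
          + 2 * ∑ k ∈ (Finset.range (2 ^ i)).erase 0, rs (VV 𝒟 i h) (ek k) := by
  have hVc : IsClosed (VV 𝒟 i h) := VV_closed 𝒟 i h
  have hVcomp : CompactSpace (VV 𝒟 i h) := isCompact_iff_compactSpace.1 hVc.isCompact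
  have hQpr : IsPr (PsiM 𝒟 i (QQm n (LD 𝒟 i))) :=
    PsiM_pr 𝒟 i ((IsPr.one.fromBlocks (LD_pr 𝒟 i)).fromBlocks IsPr.one)
  have hMsa : (PsiM 𝒟 i (PPm n h))ᴴ = PsiM 𝒟 i (PPm n h) := by
    rw [← PsiM_conjT, PPm_sa 𝒟 i n hs]
  have c1 : (Matrix.of fun (p q : Fin 4 × KK' i) => rM (VV 𝒟 i h) (PsiM 𝒟 i (PPm n h))
          (Sum.inl p.1, p.2.1) (Sum.inl q.1, q.2.1))ᴴ = Matrix.of fun (p q : Fin 4 × KK' i) =>
          rM (VV 𝒟 i h) (PsiM 𝒟 i (PPm n h)) (Sum.inl p.1, p.2.1) (Sum.inl q.1, q.2.1) := by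
    ext1 p q
    rw [conjTranspose_apply]
    have h1 := congrFun (congrFun hMsa (Sum.inl p.1, p.2.1)) (Sum.inl q.1, q.2.1)
    rw [conjTranspose_apply] at h1
    ext x
    exact DFunLike.congr_fun h1 (x : XX)
  have c2 : ∀ a, Continuous fun (x : VV 𝒟 i h) => (𝒟.Ψ i (h a) (zs i) (zs i) x).re := by
    intro a
    exact Complex.continuous_re.comp
      ((𝒟.Ψ i (h a) (zs i) (zs i)).continuous.comp continuous_subtype_val)
  have c3 : ∀ x : VV 𝒟 i h, evM x (Matrix.of fun p q => rM (VV 𝒟 i h) (PsiM 𝒟 i (PPm n h))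
      (Sum.inl p, zs i) (Sum.inl q, zs i)) = pb4 (fun a => (𝒟.Ψ i (h a) (zs i) (zs i) x).re) := by
    intro x
    ext1 p q
    exact psi_pbm_zs 𝒟 i hs p q x
  have b1' : ∀ x, ‖evM x (PsiM 𝒟 i w * (PsiM 𝒟 i w)ᴴ - PsiM 𝒟 i (PPm n h))‖ ≤ 1 / 500 := by
    intro x
    rw [← PsiM_conjT, ← PsiM_mul, ← PsiM_sub]
    exact b1 x
  have b2' : ∀ x, ‖evM x ((PsiM 𝒟 i w)ᴴ * PsiM 𝒟 i w - PsiM 𝒟 i (QQm n (LD 𝒟 i)))‖
      ≤ 1 / 500 := by
    intro x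
    rw [← PsiM_conjT, ← PsiM_mul, ← PsiM_sub]
    exact b2 x
  have b3' : ∀ x, ‖evM x (PsiM 𝒟 i (PPm n h) * PsiM 𝒟 i (PPm n h) - PsiM 𝒟 i (PPm n h))‖
      ≤ 1 / 500 := by
    intro x
    rw [← PsiM_mul, ← PsiM_sub]
    exact b3 x
  obtain ⟨τ, E, hE, hk⟩ := split_core (κ := Fin 4 × KK' i) (ν := Fin n × KK i)
    (β := bIx n × KK i) _ _
    (rM (VV 𝒟 i h) (PsiM 𝒟 i (1 : Matrix (Fin n) (Fin n) (𝒟.D i))))
    ((PsiM_pr 𝒟 i IsPr.one).map _) c1 _ c2 c3 _ (block_form 𝒟 i n hs)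
    (defect_le _ _ (e2 i n) b3') _
    (rM (VV 𝒟 i h) (PsiM 𝒟 i (QQm n (LD 𝒟 i)))) (hQpr.map _)
    (near_le _ _ _ (e2 i n) b1') (near_le' _ _ _ (e2 i n) b2')
  refine ⟨τ, E, hE, ?_⟩
  have hBqk : kcl (rM (VV 𝒟 i h) (PsiM 𝒟 i (1 : Matrix (Fin n) (Fin n) (𝒟.D i))))
      = rs (VV 𝒟 i h) (kcl (PsiM 𝒟 i (1 : Matrix (Fin n) (Fin n) (𝒟.D i)))) := by
    rw [rs, pb_kcl _ (PsiM_pr 𝒟 i IsPr.one)]
    rfl
  have hQk : kcl (rM (VV 𝒟 i h) (PsiM 𝒟 i (QQm n (LD 𝒟 i))))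
      = rs (VV 𝒟 i h) (kcl (PsiM 𝒟 i (QQm n (LD 𝒟 i)))) := by
    rw [rs, pb_kcl _ hQpr]
    rfl
  have hQk2 : kcl (PsiM 𝒟 i (QQm n (LD 𝒟 i))) = kcl (qq 𝒟 i)
      + (kcl LL + ∑ k ∈ (Finset.range (2 ^ i)).erase 0, ek k)
      + (n : K0 C(XX, ℂ)) * kcl (qq 𝒟 i) := by
    unfold QQm
    rw [kcl_PsiM_fromBlocks 𝒟 i (IsPr.one.fromBlocks (LD_pr 𝒟 i)) IsPr.one,
      kcl_PsiM_fromBlocks 𝒟 i IsPr.one (LD_pr 𝒟 i), kcl_PsiM_one, kcl_PsiM_one, kcl_PsiM_LD]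
    simp
  rw [hQk, hQk2, hBqk, kcl_PsiM_one, kcl_qq] at hk
  simp only [map_add, map_mul, map_natCast, map_one, map_sum, Fintype.card_fin] at hk
  linear_combination hk

end

end Pool.Agent.Helper75.KT
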